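import Pool.Agent.Lib.MP_640417_ag.Kf.Spec

/-!
# MP_640417_ag, Kf, assembly: the equivalences up to the center
-/

set_option autoImplicit false

namespace Pool.Agent.Lib.MP_640417_ag.Kf

open Matrix Module TensorProduct MeasureTheory Pool.Agent.Lib.MP_640417_ag
  Pool.Agent.Lib.MP_640417_ag.Frob Pool.Agent.Lib.MP_640417_ag.Glob
  Pool.Agent.Lib.MP_640417_ag.Ctl Pool.Agent.Lib.MP_640417_ag.Ty Pool.Agent.Lib.MP_640417_ag.Gen4
  Pool.Agent.Lib.MP_640417_ag.Dfr Pool.Agent.Lib.MP_640417_ag.Fr Pool.Agent.Lib.MP_640417_ag.Fg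
  Pool.Agent.Lib.MP_640417_ag.Orth

variable (l : ℕ) [Fact l.Prime] {Γ : Type} [Group Γ] [TopologicalSpace Γ]
  [IsTopologicalGroup Γ] [CompactSpace Γ] {V : Type} [AddCommGroup V] [Module ℚ_[l] V]
  [FiniteDimensional ℚ_[l] V] (ρ : FormRep Γ ℚ_[l] V)
  {I : Type} [Fintype I] [DecidableEq I] (e : Basis I ℚ_[l] (V × V)) (R : MRep Γ ℚ_[l] I)
  (h1 : ∀ γ, R.M γ = LinearMap.toMatrix e e ((dbl ρ).T γ)) (h2 : R.μ = ρ.χ⁻¹)
  (h3 : ∀ i j, R.J i j = (dbl ρ).form (e i) (e j))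

include h1 h3 in
/-- the elements of `Hp` are Lefschetz elements -/
theorem hp_lef {A : Matrix I I ℚ_[l]} (hA : A ∈ Hp R l) : ∃ X, Lef ρ X ∧ mtx e X = A := by
  obtain ⟨a, ha, z, hz, rfl⟩ := Submodule.mem_sup.1 hA
  refine exists_lef l ρ e R h1 h3 ((spJ R.J).add_mem ha.1 hz.2.2) fun c hc => ?_
  rw [Matrix.add_mul, Matrix.mul_add, Hh_comm_C R l (norm_l l) (l_ne l) ha hc, hz.2.1 c hc]

include h1 h3 in
/-- central skew elements -/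
theorem cenSkew_mtx (z : Module.End ℚ_[l] V) : mtx e z ∈ Zm R ↔ CenSkew ρ z := by
  rw [mtx_apply, coord_zm (dbl ρ) e R h1 h3, central_dbl]
  constructor
  · rintro ⟨z', hz', h⟩
    have h4 : z = z' := LinearMap.ext fun x =>
      congrArg Prod.fst (LinearMap.congr_fun h (x, (0 : V)))
    rw [h4]
    exact hz'
  · intro h
    exact ⟨z, h, rfl⟩

include h1 h3 in
/-- the center of the Lie algebra of the known forms -/
theorem center_lieOf {Z : Fam ℚ_[l] V} (hHL : Mt.HL R l ((lieS Z).map (mtx e)))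
    {z : Module.End ℚ_[l] V} (hz : z ∈ LieOf Z) (hzX : ∀ X ∈ LieOf Z, z * X = X * z) :
    CenSkew ρ z := by
  rw [← cenSkew_mtx l ρ e R h1 h3]
  have hzg : mtx e z ∈ (lieS Z).map (mtx e) := ⟨z, hz, rfl⟩
  obtain ⟨W, hW⟩ := comm_open R l (norm_l l) (l_ne l)
  refine ⟨⟨W, hW _ fun Y hY => ?_⟩, hHL.com _ hzg, hHL.skew _ hzg⟩
  obtain ⟨X, hX, rfl⟩ := hHL.hh hY
  rw [← mtx_mul, ← mtx_mul, hzX X hX]

include h1 h2 h3 in
/-- If the Lie algebra is in `Hp`, all Tate forms are controlled. -/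
theorem controls_of_le {Z : Fam ℚ_[l] V} (hHL : Mt.HL R l ((lieS Z).map (mtx e)))
    (hle : (lieS Z).map (mtx e) ≤ Hp R l) (k : ℕ) : Controls ρ (LieOf Z) k := by
  intro f hf hz X hX
  obtain ⟨A, hA, z', hz', hXe⟩ := Submodule.mem_sup.1 (hle ⟨X, hX, rfl⟩)
  obtain ⟨Y, hY, hYA⟩ := hHL.hh hA
  have hz1 : z' = mtx e (X - Y) := by
    rw [map_sub, hYA, ← hXe, add_sub_cancel_left]
  have hzL : X - Y ∈ LieOf Z := (lieS Z).sub_mem hX hY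
  have hzc : ∀ W ∈ LieOf Z, (X - Y) * W = W * (X - Y) := by
    intro W hW
    apply mtx_inj e
    rw [mtx_mul, mtx_mul, ← hz1]
    exact (hHL.com _ ⟨W, hW, rfl⟩ z' hz'.1).symm
  have h4 := (df_iff _ f).1 (hz _ hzL hzc)
  have h5 : Dm Y f = 0 := by
    rw [← df_iff]
    intro v
    have h6 := hh_kills l ρ e R h1 h2 hA f hf v
    rwa [← hYA, cm_mtx] at h6
  rw [df_iff, ← sub_add_cancel X Y, Dm_add, h4, h5, add_zero]

theorem tateG_of_tateF {F : Type} [Field F] [TopologicalSpace F] {V : Type} [AddCommGroup V]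
    [Module F V] (ρ : FormRep Γ F V) {i : ℕ} {f : MultilinearMap F (fun _ : Fin (2 * i) => V) F}
    (hf : TateF ρ i f) : TateG ρ (2 * i) f := by
  obtain ⟨U, hU⟩ := hf
  refine ⟨U, fun γ hγ v w => ?_⟩
  rw [← hU γ hγ v, ← hU γ hγ w]
  ring

/-- the diagonal elements in coordinates -/
theorem dg_iff {F : Type} [Field F] {V : Type} [AddCommGroup V] [Module F V] {I : Type}
    [Fintype I] [DecidableEq I] (e : Basis I F (V × V)) (Z : Fam F V)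
    (X' : Module.End F (V × V)) :
    X' ∈ dg (LieOf Z) ↔ LinearMap.toMatrix e e X' ∈ (lieS Z).map (mtx e) := by
  constructor
  · rintro ⟨X, hX, rfl⟩
    exact ⟨X, hX, rfl⟩
  · rintro ⟨X, hX, h⟩
    exact ⟨X, hX, ((LinearMap.toMatrix e e).injective h).symm⟩

include h1 in
/-- good elements in coordinates -/
theorem tGood {Z : Fam ℚ_[l] V} (hGf : S_Gf) (γ : Γ) :
    GoodFor ρ (LieOf Z) γ ↔ Mt.GoodM R ((lieS Z).map (mtx e)) γ := by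
  rw [← hGf Γ ℚ_[l] V ρ (LieOf Z) γ]
  exact Mt.tTg l (V × V) I (dbl ρ) e R h1 (dg (LieOf Z)) _ (dg_iff e Z) γ

theorem dm_of_kill {F : Type} [Field F] {V : Type} [AddCommGroup V] [Module F V]
    {k : ℕ} {f : MultilinearMap F (fun _ : Fin k => V) F} {X Y : Module.End F V}
    (h : X = Y) (hf : ∀ v, DF X f v = 0) : ∀ v, DF Y f v = 0 := by
  rwa [← h]

/-- **The equivalences up to the center**, from the statements of the modules. -/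
theorem part_a (hKp : S_Kp l) (hGf : S_Gf) [MeasurableSpace Γ] [BorelSpace Γ] (ν : Measure Γ)
    [ν.IsHaarMeasure] (hss : Fr.Semisimple ρ) :
    ∃ κ : MultilinearMap ℚ_[l] (fun _ : Fin 4 => V) ℚ_[l], TateG ρ 4 κ ∧
      ∀ Z : Fam ℚ_[l] V, Known ρ Z →
        List.TFAE [∀ k, Controls ρ (LieOf Z) k, Controls ρ (LieOf Z) 4,
          ∀ X ∈ LieOf Z, ∀ v, DF X κ v = 0, NearOne ν (GoodFor ρ (LieOf Z)),
          ∃ γ, GoodFor ρ (LieOf Z) γ] := by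
  let e := Module.finBasis ℚ_[l] (V × V)
  obtain ⟨R, h1, h2, h3⟩ := exists_coord (dbl ρ) e
  have h2' : R.μ = ρ.χ⁻¹ := h2
  have hsemi : R.Semi := coord_semi (dbl ρ) e R h1 (semi_dbl ρ hss)
  obtain ⟨κ, hκ1, hκ2, hκ3⟩ := hKp Γ V ρ _ e R h1 h3 hsemi
  refine ⟨κ, tateG_of_tateF ρ hκ1, fun Z hZ => ?_⟩
  have hHL := hl_of_known l ρ e R h1 h2' h3 Z hZ
  have hgood : ∀ γ, GoodFor ρ (LieOf Z) γ ↔ Mt.GoodM R ((lieS Z).map (mtx e)) γ :=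
    tGood l ρ e R h1 hGf
  have key1 : (lieS Z).map (mtx e) ≤ Hp R l → ∀ k, Controls ρ (LieOf Z) k :=
    fun h => controls_of_le l ρ e R h1 h2' h3 hHL h
  have key2 : (∀ X ∈ LieOf Z, ∀ v, DF X κ v = 0) → (lieS Z).map (mtx e) ≤ Hp R l := by
    rintro h _ ⟨X, hX, rfl⟩
    refine Mt.tIdl l _ R hsemi _ (hHL.skew _ ⟨X, hX, rfl⟩) (hHL.com _ ⟨X, hX, rfl⟩) fun Y hY => ?_
    obtain ⟨Y', -, rfl⟩ := hp_lef l ρ e R h1 h3 hY
    have h4 := hκ3 X (lef_of_lieOf ρ hZ hX).2 (h X hX) Y' hY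
    rwa [map_sub, mtx_mul, mtx_mul] at h4
  tfae_have 1 → 2 := fun h => h 4
  tfae_have 2 → 3 := by
    intro h X hX
    exact h κ (tateG_of_tateF ρ hκ1) (fun z hz hzX =>
      hκ2 z (center_lieOf l ρ e R h1 h3 hHL hz hzX)) X hX
  tfae_have 3 → 1 := fun h => key1 (key2 h)
  tfae_have 5 → 1 := by
    rintro ⟨γ, hγ⟩
    exact key1 (Mt.le_Hp l Mt.tBc Mt.tGz
      (Mt.tCor (Mt.tRt Mt.tMul Mt.tGrd) (Mt.tInd Mt.tLin (Mt.tSlt Mt.tTnl) Mt.tInt Mt.tWtl))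
      (Mt.tGnd l) (Mt.tIdl l) (Mt.tHlz l) R hsemi _ hHL γ ((hgood γ).1 hγ))
  tfae_have 4 → 5 := by
    intro h
    obtain ⟨γ, -, hγ⟩ := Mt.nearOne_dense' h dense_univ
    exact ⟨γ, hγ⟩
  tfae_have 3 → 4 := by
    intro h
    refine Mt.nearOne_mono (fun γ hγ => (hgood γ).2 fun N hN => ?_)
      (Mt.near_Hp l Mt.tBc Mt.tGn0 Mt.tRsd Mt.tFrA Mt.tFrB Mt.tExt (Mt.tSpn Mt.tFrB)
        (Mt.tRnk Mt.tMul Mt.tGrd) (Mt.tGnr (Mt.tOne Mt.tMul Mt.tGrd Mt.tTnl Mt.tJac))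
        (Mt.tGdp l (Mt.tPwc l)) (Mt.tRgl l) (Mt.tLmt l Mt.tFrB) (Mt.tGnd l) (Mt.tHlz l) R hsemi ν)
    exact Mt.GoodL.mono (Mt.gK_mono _ (key2 h)) (hγ N hN)
  tfae_finish

end Pool.Agent.Lib.MP_640417_ag.Kf
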