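import Pool.Agent.Lib.MP_640417_ag.Kf.AsmA

/-!
# MP_640417_ag, Kf, assembly: the equivalences including the center, the forms in two variables
-/

set_option autoImplicit false

namespace Pool.Agent.Lib.MP_640417_ag.Kf

open Matrix Module TensorProduct MeasureTheory Pool.Agent.Lib.MP_640417_ag
  Pool.Agent.Lib.MP_640417_ag.Frob Pool.Agent.Lib.MP_640417_ag.Glob
  Pool.Agent.Lib.MP_640417_ag.Ctl Pool.Agent.Lib.MP_640417_ag.Ty Pool.Agent.Lib.MP_640417_ag.Gen4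
  Pool.Agent.Lib.MP_640417_ag.Dfr Pool.Agent.Lib.MP_640417_ag.Fr Pool.Agent.Lib.MP_640417_ag.Fg
  Pool.Agent.Lib.MP_640417_ag.Orth

theorem bnd_eq (n b : ℕ) :
    bnd n b = 4 + 2 * (n * (n.factorial * (Mb (2 * n) b + 2) ^ n)) * n := rfl

/-- the bound for the lattices -/
theorem lat_bound (hLx : S_Lx) (n M : ℕ) : ∀ N ≤ n, ∀ (st : Fin N → Fin N)
    (S : Set (Fin N → Fin (M + 1))) (G : AddSubgroup (Fin N → ℤ)),
    (∃ t ∉ G, (∀ i, t (st i) = - t i) ∧ ∀ v ∈ S, ∑ i, t i * ((v i : ℕ) : ℤ) = 0) →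
    ∃ t ∉ G, (∀ i, (t i).natAbs ≤ n * (n.factorial * (M + 2) ^ n)) ∧ (∀ i, t (st i) = - t i) ∧
      ∀ v ∈ S, ∑ i, t i * ((v i : ℕ) : ℤ) = 0 := by
  intro N hN st S G h
  obtain ⟨t, h1, h2, h3, h4⟩ := hLx N M st S G h
  refine ⟨t, h1, fun i => (h2 i).trans ?_, h3, h4⟩
  refine Nat.mul_le_mul hN (Nat.mul_le_mul (Nat.factorial_le hN) ?_)
  exact Nat.pow_le_pow_right (by omega) hN

/-- **The equivalences including the center**, from the statements of the modules. -/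
theorem part_c (l : ℕ) [Fact l.Prime] (hCn : S_Cn l) (hNw : S_Nw) (hTw : S_Tw)
    (hNrb : S_Nrb l) (hFd : S_Fd) (hLx : S_Lx) (hBd : S_Bd l)
    {Γ : Type} [Group Γ] [TopologicalSpace Γ] [IsTopologicalGroup Γ] [CompactSpace Γ]
    [MeasurableSpace Γ] [BorelSpace Γ] (ν : Measure Γ) [ν.IsHaarMeasure]
    {V : Type} [AddCommGroup V] [Module ℚ_[l] V] [FiniteDimensional ℚ_[l] V]
    (ρ : FormRep Γ ℚ_[l] V) (hss : Fr.Semisimple ρ)
    (κ : MultilinearMap ℚ_[l] (fun _ : Fin 4 => V) ℚ_[l]) (hκ : TateG ρ 4 κ)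
    (Z : Fam ℚ_[l] V) (hZ : Known ρ Z)
    (hT : List.TFAE [∀ k, Controls ρ (LieOf Z) k, Controls ρ (LieOf Z) 4,
          ∀ X ∈ LieOf Z, ∀ v, DF X κ v = 0, NearOne ν (GoodFor ρ (LieOf Z)),
          ∃ γ, GoodFor ρ (LieOf Z) γ])
    (c b : ℕ) (hF : Dense {γ | FrobLike ρ c b γ}) :
    List.TFAE [KillsAll ρ (LieOf Z),
      ∀ k ≤ bnd (finrank ℚ_[l] V) b, ∀ f, TateG ρ k f → ∀ X ∈ LieOf Z, ∀ v, DF X f v = 0,
      (∀ X ∈ LieOf Z, ∀ v, DF X κ v = 0) ∧ ¬ WeilFor ρ (LieOf Z),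
      NearOne ν (fun γ => GoodFor ρ (LieOf Z) γ ∧ (FrobLike ρ c b γ → DetFor ρ (LieOf Z) γ)),
      ∃ γ, FrobLike ρ c b γ ∧ GoodFor ρ (LieOf Z) γ ∧ DetFor ρ (LieOf Z) γ] := by
  have hlef : ∀ X ∈ LieOf Z, Lef ρ X := fun X hX => lef_of_lieOf ρ hZ hX
  have hF' : Dense {γ | FrobH (dbl ρ) c b γ} := hF.mono fun γ hγ => hFd Γ ℚ_[l] V ρ c b γ hγ
  -- the center of the Lie algebra
  have hcen : ∀ z ∈ LieOf Z, (∀ X ∈ LieOf Z, z * X = X * z) → CenSkew ρ z := by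
    intro z hz hzX
    obtain ⟨R, h1, h2, h3⟩ := exists_coord (dbl ρ) (Module.finBasis ℚ_[l] (V × V))
    exact center_lieOf l ρ _ R h1 h3 (hl_of_known l ρ _ R h1 h2 h3 Z hZ) hz hzX
  tfae_have 1 → 2 := fun h k _ f hf => h k f hf
  tfae_have 2 → 3 := by
    intro h
    refine ⟨h 4 (by rw [bnd]; omega) κ hκ, ?_⟩
    refine hBd Γ ν V ρ hss c b hF' _ (lat_bound hLx (finrank ℚ_[l] V) _) (LieOf Z) hlef
      fun k hk => h k (hk.trans ?_)
    have h4 : finrank ℚ_[l] (V × V) = 2 * finrank ℚ_[l] V := by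
      rw [Module.finrank_prod, two_mul]
    rw [bnd_eq, h4]
    omega
  tfae_have 3 → 1 := by
    rintro ⟨h4, hW⟩ k f hf X hX
    have h5 : ∀ k, Controls ρ (LieOf Z) k := (hT.out 2 0 rfl rfl).1 h4
    exact h5 k f hf (fun z hz hzX => hCn Γ V ρ hss _ hW z hz (hcen z hz hzX) k f hf) X hX
  tfae_have 3 → 4 := by
    rintro ⟨h4, hW⟩
    have h5 : NearOne ν (GoodFor ρ (LieOf Z)) := (hT.out 2 3 rfl rfl).1 h4
    have h6 := hNrb Γ (V × V) ν (dbl ρ) (semi_dbl ρ hss) c b (dg (LieOf Z))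
      (fun h => hW (((hTw Γ ℚ_[l] V ρ (LieOf Z)).1).2 h))
    refine T3.nearOne_and h5 (Mt.nearOne_mono (fun γ hγ h => ?_) h6)
    exact (((hTw Γ ℚ_[l] V ρ (LieOf Z)).2) γ).2 (hγ (hFd Γ ℚ_[l] V ρ c b γ h))
  tfae_have 4 → 5 := by
    intro h
    obtain ⟨γ, hγ, h4, h5⟩ := Mt.nearOne_dense' h hF
    exact ⟨γ, hγ, h4, h5 hγ⟩
  tfae_have 5 → 3 := by
    rintro ⟨γ, -, h4, h5⟩
    refine ⟨(hT.out 4 2 rfl rfl).1 ⟨γ, h4⟩, ?_⟩
    rintro ⟨k, p, s, hp, hn, U, hU⟩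
    obtain ⟨N, hN, hNU⟩ := exists_pow U
    exact hn (h5 N hN k p s hp (hU _ (hNU γ)))
  tfae_finish

/-- **The forms in two variables**: the test for the known forms and the local-global principle for every
variety. -/
theorem part_z (l : ℕ) [Fact l.Prime] (hTz : S_Tz l)
    {Γ : Type} [Group Γ] [TopologicalSpace Γ] [IsTopologicalGroup Γ] [CompactSpace Γ]
    [MeasurableSpace Γ] [BorelSpace Γ] (ν : Measure Γ) [ν.IsHaarMeasure]
    {V : Type} [AddCommGroup V] [Module ℚ_[l] V] [FiniteDimensional ℚ_[l] V]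
    (ρ : FormRep Γ ℚ_[l] V) (hss : Fr.Semisimple ρ) :
    List.TFAE [∀ k, Controls ρ (LieOf (TwoZ ρ)) k, ∀ k f, TateG ρ k f → Generated ρ k f,
      ∀ f, TateG ρ 4 f → (∀ z, CenSkew ρ z → ∀ v, DF z f v = 0) → Generated ρ 4 f,
      Near ν (GoodF ρ), ∀ D : Set Γ, Dense D → ∃ γ ∈ D, GoodF ρ γ, ∃ γ, DetectsF ρ γ] := by
  have hL := (hTz Γ V ρ).2
  have hB : ∀ Z, Lef ρ Z → (∀ X, Lef ρ X → Z * X = X * Z) → InCom ρ Z :=
    fun Z _ h => lie_center l ρ h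
  have h0 := every_variety l ρ hss ν
  tfae_have 2 ↔ 3 := h0.out 0 1 rfl rfl
  tfae_have 2 ↔ 4 := h0.out 0 2 rfl rfl
  tfae_have 2 ↔ 5 := h0.out 0 3 rfl rfl
  tfae_have 2 ↔ 6 := h0.out 0 4 rfl rfl
  tfae_have 2 → 1 := by
    intro h k f hf hz X hX
    refine kill_of_generated ρ hss hB k f (h k f hf) (fun z hz' => ?_) X ((hL X).1 hX)
    have hzL : Lef ρ z := ⟨fun c hc => hz'.2.1 c hc, hz'.2.2⟩
    exact hz z ((hL z).2 hzL) fun X hX => (((hL X).1 hX).1 z hz'.1).symm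
  tfae_have 1 → 3 := by
    intro h f hf hz
    refine generated_of_kill ρ hss hB 4 f hf fun X Y hX hY => ?_
    have hXY : Lef ρ (X * Y - Y * X) := by
      refine ⟨fun c hc => ?_, fun x y => ?_⟩
      · have hx := hX.1 c hc
        have hy := hY.1 c hc
        rw [sub_mul, mul_sub, mul_assoc, hy, ← mul_assoc, hx, mul_assoc, mul_assoc Y X c, hx,
          ← mul_assoc Y c X, hy, mul_assoc]
      · have a1 := hX.2 (Y x) y
        have a2 := hY.2 x (X y)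
        have a3 := hY.2 (X x) y
        have a4 := hX.2 x (Y y)
        simp only [LinearMap.sub_apply, Module.End.mul_apply, map_sub]
        linear_combination a1 - a2 - a3 + a4
    refine h 4 f hf (fun z hz' hzX => ?_) _ ((hL _).2 hXY)
    refine hz z ⟨hB z ((hL z).1 hz') fun X hX => hzX X ((hL X).2 hX), fun c hc => ?_, ?_⟩
    · exact ((hL z).1 hz').1 c hc
    · exact ((hL z).1 hz').2
  tfae_finish

end Pool.Agent.Lib.MP_640417_ag.Kf
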