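import Pool.Agent.Lib.MP_640417_ag.Kf.Spec

/-!
# MP_640417_ag, Kf, module Bd: the Tate forms in a bounded number of variables decide
-/

set_option autoImplicit false

namespace Pool.Agent.Lib.MP_640417_ag.Kf

open Polynomial Matrix Module TensorProduct MeasureTheory Pool.Agent.Lib.MP_640417_ag
  Pool.Agent.Lib.MP_640417_ag.Frob Pool.Agent.Lib.MP_640417_ag.Glob
  Pool.Agent.Lib.MP_640417_ag.Ctl Pool.Agent.Lib.MP_640417_ag.Ty Pool.Agent.Lib.MP_640417_ag.Gen4
  Pool.Agent.Lib.MP_640417_ag.Dfr Pool.Agent.Lib.MP_640417_ag.Fr Pool.Agent.Lib.MP_640417_ag.Fg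
  Pool.Agent.Lib.MP_640417_ag.Orth

section alg

variable {K W : Type} [Field K] [CharZero K] [AddCommGroup W] [Module K W]
  {form : LinearMap.BilinForm K W} {C : Subalgebra K (Module.End K W)} {N : ℕ}
  {st : Fin N → Fin N} {ε : Fin N → Module.End K W}

/-- the skew combinations of the primitive central idempotents -/
theorem Bd_skew_iff (halt : ∀ x, form x x = 0) (hnd : ∀ x, (∀ y, form x y = 0) → x = 0)
    (hS : Mt.CSys form C N st ε) (t : Fin N → ℤ) :
    Four.Skew form (∑ i, (t i : K) • ε i) ↔ ∀ i, t (st i) = - t i := by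
  have hanti : ∀ x y, form x y = - form y x := by
    intro x y
    have h := halt (x + y)
    simp only [map_add, LinearMap.add_apply] at h
    linear_combination h - halt x - halt y
  let σ : Equiv.Perm (Fin N) := ⟨st, st, hS.inv, hS.inv⟩
  have hsum : ∀ x y, form ((∑ i, (t i : K) • ε i) x) y =
      form x ((∑ i, (t (st i) : K) • ε i) y) := by
    intro x y
    rw [LinearMap.sum_apply, map_sum, LinearMap.sum_apply, LinearMap.sum_apply, map_sum]
    rw [← Equiv.sum_comp σ (fun i => form x (((t (st i) : K) • ε i) y))]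
    refine Finset.sum_congr rfl fun i _ => ?_
    show form (((t i : K) • ε i) x) y = form x (((t (st (st i)) : K) • ε (st i)) y)
    rw [hS.inv i, LinearMap.smul_apply, LinearMap.smul_apply, map_smul, map_smul,
      LinearMap.smul_apply, hS.adj]
  constructor
  · intro h
    have h1 : ∑ i, ((t (st i) + t i : ℤ) : K) • ε i = 0 := by
      refine LinearMap.ext fun y => ?_
      rw [LinearMap.zero_apply]
      refine hnd _ fun x => ?_
      have h2 := h x y
      rw [hsum] at h2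
      rw [hanti]
      have h3 : (∑ i, ((t (st i) + t i : ℤ) : K) • ε i) y =
          (∑ i, (t (st i) : K) • ε i) y + (∑ i, (t i : K) • ε i) y := by
        rw [← LinearMap.add_apply, ← Finset.sum_add_distrib]
        congr 1
        refine Finset.sum_congr rfl fun i _ => ?_
        push_cast
        rw [add_smul]
      rw [h3, map_add, h2, neg_zero]
    intro j
    have h2 := congrArg (fun z => ε j * z) h1
    simp only [mul_zero, Finset.mul_sum] at h2
    rw [Finset.sum_eq_single j] at h2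
    · rw [mul_smul_comm, hS.idem] at h2
      rcases smul_eq_zero.1 h2 with h3 | h3
      · have h4 : t (st j) + t j = 0 := by exact_mod_cast h3
        omega
      · exact absurd h3 (hS.ne j)
    · intro i _ hi
      rw [mul_smul_comm, hS.orth j i (Ne.symm hi), smul_zero]
    · intro h
      exact absurd (Finset.mem_univ j) h
  · intro h x y
    rw [hsum, ← map_add, ← LinearMap.add_apply, ← Finset.sum_add_distrib]
    rw [Finset.sum_eq_zero, LinearMap.zero_apply, map_zero]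
    intro i _
    rw [h i, ← add_smul]
    push_cast
    rw [neg_add_cancel, zero_smul]

/-- the ranks of the idempotents -/
theorem Bd_rank [FiniteDimensional K W] {q : Fin N → Module.End K W}
    (hid : ∀ j, q j * q j = q j) (hsum : ∑ j, q j = 1) :
    ∑ j, finrank K (LinearMap.range (q j)) = finrank K W := by
  have h1 : LinearMap.trace K W (∑ j, q j) = (finrank K W : K) := by
    rw [hsum, LinearMap.trace_one]
  rw [map_sum] at h1
  have h2 : ((∑ j, finrank K (LinearMap.range (q j)) : ℕ) : K) = (finrank K W : K) := by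
    rw [← h1]
    push_cast
    exact Finset.sum_congr rfl fun j _ => (RelM.trace_idem (hid j)).symm
  exact_mod_cast h2

/-- additive maps -/
theorem Bd_sub {W' : Type} [AddCommGroup W'] [Module K W'] (φ : Module.End K W → Module.End K W')
    (hadd : ∀ p q, φ (p + q) = φ p + φ q) (p q : Module.End K W) : φ (p - q) = φ p - φ q := by
  have h := hadd (p - q) q
  rw [sub_add_cancel] at h
  rw [h, add_sub_cancel_right]

theorem Bd_fsum {W' : Type} [AddCommGroup W'] [Module K W']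
    (φ : Module.End K W → Module.End K W') (hadd : ∀ p q, φ (p + q) = φ p + φ q)
    (hone : φ 1 = 1) (hinj : ∀ p, φ p = 0 → p = 0) {q : Fin N → Module.End K W}
    (h : ∑ j, φ (q j) = 1) : ∑ j, q j = 1 := by
  let Φ : Module.End K W →+ Module.End K W' := AddMonoidHom.mk' φ hadd
  have h1 : Φ (∑ j, q j - 1) = 0 := by
    rw [map_sub, map_sum]
    have h4 : ∑ j, Φ (q j) = 1 := h
    have h5 : Φ 1 = 1 := hone
    rw [h4, h5, sub_self]
  exact sub_eq_zero.1 (hinj _ h1)

end alg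

section rel

variable {F : Type} [Field F] {V : Type} [AddCommGroup V] [Module F V]

/-- the relations which hold for `g` -/
def Bd_grp (g : Set (Module.End F V)) {N : ℕ}
    (ε : Fin N → Module.End (AlgebraicClosure F) (AlgebraicClosure F ⊗[F] V)) :
    AddSubgroup (Fin N → ℤ) where
  carrier := {t | Mt.TrRel g ε t}
  zero_mem' := by
    intro X _
    refine Finset.sum_eq_zero fun j _ => ?_
    rw [Pi.zero_apply, Int.cast_zero, zero_mul]
  add_mem' := by
    intro s t hs ht X hX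
    have h3 := congrArg₂ (· + ·) (hs X hX) (ht X hX)
    simp only [add_zero, ← Finset.sum_add_distrib] at h3
    rw [← h3]
    refine Finset.sum_congr rfl fun j _ => ?_
    rw [Pi.add_apply]
    push_cast
    ring
  neg_mem' := by
    intro s hs X hX
    have h3 := congrArg (fun z => - z) (hs X hX)
    simp only [neg_zero, ← Finset.sum_neg_distrib] at h3
    rw [← h3]
    refine Finset.sum_congr rfl fun j _ => ?_
    rw [Pi.neg_apply]
    push_cast
    ring

theorem Bd_mem {g : Set (Module.End F V)} {N : ℕ}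
    {ε : Fin N → Module.End (AlgebraicClosure F) (AlgebraicClosure F ⊗[F] V)} {t : Fin N → ℤ} :
    t ∈ Bd_grp g ε ↔ Mt.TrRel g ε t := Iff.rfl

/-- determinants on the double -/
theorem Bd_detProd [FiniteDimensional F V] [CharZero F] (h1 : S_Dk) (h2 : S_Dt) {N : ℕ}
    (q : Fin N → Module.End (AlgebraicClosure F) (AlgebraicClosure F ⊗[F] V)) (t : Fin N → ℤ)
    (X : Module.End F V) : detProd q (fun j => 2 * t j) (X.baseChange (AlgebraicClosure F)) =
      detProd (fun j => dK (q j)) t ((X.prodMap X).baseChange (AlgebraicClosure F)) := by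
  obtain ⟨a1, a2, a3, a4, -, a6⟩ := h1 F V
  rw [detProd, detProd]
  refine Finset.prod_congr rfl fun j _ => ?_
  have h3 : dK (q j) * (X.prodMap X).baseChange (AlgebraicClosure F) + (1 - dK (q j)) =
      dK (q j * X.baseChange (AlgebraicClosure F) + (1 - q j)) := by
    rw [a2, a1, a6, Bd_sub dK a2, a4]
  rw [h3, (h2 F V _).2, ← zpow_natCast, ← _root_.zpow_mul]
  norm_num

/-- traces on the double -/
theorem Bd_trRel [FiniteDimensional F V] [CharZero F] (h1 : S_Dk) (h2 : S_Dt) {N : ℕ}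
    (q : Fin N → Module.End (AlgebraicClosure F) (AlgebraicClosure F ⊗[F] V)) (t : Fin N → ℤ)
    (g : Set (Module.End F V)) (h : Mt.TrRel g q (fun j => ((2 : ℕ) : ℤ) * t j)) :
    Mt.TrRel (dg g) (fun j => dK (q j)) t := by
  obtain ⟨a1, a2, a3, a4, -, a6⟩ := h1 F V
  rintro _ ⟨X, hX, rfl⟩
  have h3 := Mt.Bl_trRel_of_mul (by norm_num) h X hX
  have h4 : ∑ j, (t j : AlgebraicClosure F) * LinearMap.trace (AlgebraicClosure F)
      (AlgebraicClosure F ⊗[F] (V × V)) (dK (q j) *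
        (X.prodMap X).baseChange (AlgebraicClosure F)) =
      2 * ∑ j, (t j : AlgebraicClosure F) * LinearMap.trace (AlgebraicClosure F)
      (AlgebraicClosure F ⊗[F] V) (q j * X.baseChange (AlgebraicClosure F)) := by
    rw [Finset.mul_sum]
    refine Finset.sum_congr rfl fun j _ => ?_
    rw [← a6, ← a1, (h2 F V _).1]
    ring
  rw [h4, h3, mul_zero]

/-- the sum of the components is 1 -/
theorem Bd_sum (h1 : S_Dk) [CharZero F] {N : ℕ}
    {q : Fin N → Module.End (AlgebraicClosure F) (AlgebraicClosure F ⊗[F] V)}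
    (h : ∑ j, dK (q j) = 1) : ∑ j, q j = 1 :=
  Bd_fsum dK (h1 F V).2.1 (h1 F V).2.2.2.1 (h1 F V).2.2.2.2.1 h

end rel

section near

/-- an open subgroup is near one -/
theorem Bd_near {Γ : Type} [Group Γ] [TopologicalSpace Γ] [MeasurableSpace Γ] (ν : Measure Γ)
    (U : OpenSubgroup Γ) : NearOne ν (fun γ => γ ∈ U) :=
  ⟨U, U, U.isOpen, Set.Subset.rfl, by rw [Set.sdiff_self, measure_empty], fun _ h => h⟩

end near

section kill

variable (l : ℕ) [Fact l.Prime] {Γ : Type} [Group Γ] [TopologicalSpace Γ] [IsTopologicalGroup Γ]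
  [CompactSpace Γ] {W : Type} [AddCommGroup W] [Module ℚ_[l] W] [FiniteDimensional ℚ_[l] W]
  (ρ : H1Rep Γ ℚ_[l] W) {I : Type} [Fintype I] [DecidableEq I] (e : Basis I ℚ_[l] W)
  (R : MRep Γ ℚ_[l] I) (r1 : ∀ γ, R.M γ = LinearMap.toMatrix e e (ρ.T γ)) (r2 : R.μ = ρ.χ⁻¹)
  (r3 : ∀ i j, R.J i j = ρ.form (e i) (e j))

include r1 r2 r3 in
/-- no relation fails for the Lie algebra of the image -/
theorem Bd_hh : ¬ Mt.WeilFor ρ {Y | LinearMap.toMatrix e e Y ∈ R.Hh l} := by
  refine Mt.tNwl l Mt.tWl W ρ _ ?_ ?_ ?_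
  · intro X hX
    exact (coord_skew ρ e R r3 X).1 hX.1
  · intro X hX c hc
    have h5 := Hh_comm_C R l (norm_l l) (l_ne l) hX ((coord_inC ρ e R r1 c).mpr hc)
    apply (LinearMap.toMatrixAlgEquiv e).injective
    rw [map_mul, map_mul]
    exact h5
  · intro n i x hx X hX
    rw [kills_iff]
    obtain ⟨y, hy, hy'⟩ := coord_dv ρ e R r1 r2 n i x hx
    exact (hy' X).mp (hh_tate R l (norm_l l) (l_ne l) _ hX n i y hy)

end kill

section main

/-- **A bounded number of variables decides.** -/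
theorem tBd (l : ℕ) [Fact l.Prime] (h1 : S_Dk) (h2 : S_Dt) (h3 : S_Cr) (h4 : S_Tw) (h5 : S_Nw)
    (h6 : S_Rl l) (h7 : S_Cs l) (h8 : S_Elb) (h9 : S_Nrb l) : S_Bd l := by
  classical
  intro Γ _ _ _ _ _ _ ν _ V _ _ _ ρ hss c b hD B hB g hg hk hW
  have hchar : CharZero (AlgebraicClosure ℚ_[l]) :=
    charZero_of_injective_algebraMap (algebraMap ℚ_[l] (AlgebraicClosure ℚ_[l])).injective
  have hss' := semi_dbl ρ hss
  have halt := alt_baseChange (AlgebraicClosure ℚ_[l]) (dbl ρ).form (dbl ρ).form_alt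
  have hnd := nondeg_baseChange (AlgebraicClosure ℚ_[l]) (dbl ρ).form (dbl ρ).form_alt
    (dbl ρ).form_nondeg
  obtain ⟨k, p, s, hp, hno, U, hU⟩ := ((h4 Γ ℚ_[l] V ρ g).1).1 hW
  obtain ⟨N, st, ε, hS⟩ := h7 Γ (V × V) (dbl ρ) hss'
  obtain ⟨t, ht1, ht2⟩ := Mt.tFm (AlgebraicClosure ℚ_[l]) (AlgebraicClosure ℚ_[l] ⊗[ℚ_[l]] (V × V))
    ((dbl ρ).form.baseChange (AlgebraicClosure ℚ_[l])) (comK (dbl ρ)) N st ε hS k p s hp
  have hskt : Four.Skew ((dbl ρ).form.baseChange (AlgebraicClosure ℚ_[l]))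
      (∑ i, (t i : AlgebraicClosure ℚ_[l]) • ε i) := by
    rw [ht1]
    exact hp.skew
  have hnot : ¬ Mt.TrRel (dg g) ε t := fun h => hno (Mt.Bl_trRel_congr ht1 h)
  -- the subgroup which commutes with the commutant
  obtain ⟨U0, hU0⟩ := Ty.exists_U0 (dbl ρ)
  have := topGroup_U U0
  have := compact_U U0
  have hfull : ∀ c, CommF (Ty.res (dbl ρ) U0) c → ∀ γ, c * (Ty.res (dbl ρ) U0).T γ =
      (Ty.res (dbl ρ) U0).T γ * c :=
    fun c hc γ' => (hU0 γ'.1).mp γ'.2 c ((commF_res (dbl ρ) U0 c).mp hc)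
  have hcom : ∀ γ ∈ U0, ∀ z ∈ comK (dbl ρ), z * ((dbl ρ).T γ).baseChange (AlgebraicClosure ℚ_[l]) =
      ((dbl ρ).T γ).baseChange (AlgebraicClosure ℚ_[l]) * z := by
    intro γ hγ z hz
    have hz' : z ∈ comK (Ty.res (dbl ρ) U0) := by
      rw [comK_resU]
      exact hz
    exact comK_full (Ty.res (dbl ρ) U0) hfull hz' ⟨γ, hγ⟩
  -- coordinates, the Lie algebra of the image
  obtain ⟨R, r1, r2, r3⟩ := exists_coord (dbl ρ) (Module.finBasis ℚ_[l] (V × V))
  set e := Module.finBasis ℚ_[l] (V × V) with he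
  obtain ⟨γ, hγF, hγ⟩ := Mt.nearOne_dense' (T3.nearOne_and (h9 Γ (V × V) ν (dbl ρ) hss' c b _
    (Bd_hh l (dbl ρ) e R r1 r2 r3)) (Bd_near ν (U ⊓ U0))) hD
  have hDet := hγ.1 hγF
  obtain ⟨hγU, hγ0⟩ := OpenSubgroup.mem_inf.1 hγ.2
  -- the relations of the Frobenius element
  have hS' : Mt.CSys ((Ty.res (dbl ρ) U0).form.baseChange (AlgebraicClosure ℚ_[l]))
      (comK (Ty.res (dbl ρ) U0)) N st ε := by
    rw [comK_resU]
    exact hS
  obtain ⟨n0, hn0, hset⟩ := h8 ℚ_[l] (V × V) U0 (Ty.res (dbl ρ) U0) hfull N st ε hS' c b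
  obtain ⟨S, hSt⟩ := hset ⟨γ, hγ0⟩ hγF
  have hdt : detProd ε t (((dbl ρ).T γ).baseChange (AlgebraicClosure ℚ_[l])) = 1 := by
    rw [ht2 _ (hcom γ hγ0) (((Group.isUnit γ).map (dbl ρ).T).map
      (Module.End.baseChangeHom ℚ_[l] (AlgebraicClosure ℚ_[l]) (V × V)))]
    exact hU γ hγU
  have htv : ∀ v ∈ S, ∑ i, t i * ((v i : ℕ) : ℤ) = 0 := by
    refine (hSt t hskt).1 1 one_pos ?_
    rw [pow_one]
    exact hdt
  -- the number of idempotents
  obtain ⟨q, hq1, hq2⟩ := (h3 Γ ℚ_[l] V ρ N t).2 ε ⟨hS.mem, hS.cen, hS.idem, hS.orth, hskt⟩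
  have hqs : ∑ j, q j = 1 := by
    refine Bd_sum h1 ?_
    rw [← hS.sum]
    exact Finset.sum_congr rfl fun j _ => (hq1 j).symm
  have hrank := Bd_rank hq2.idem hqs
  rw [Module.finrank_baseChange] at hrank
  have hpos : ∀ j, 1 ≤ finrank (AlgebraicClosure ℚ_[l]) (LinearMap.range (q j)) := by
    intro j
    rw [Nat.one_le_iff_ne_zero, Ne, Submodule.finrank_eq_zero, LinearMap.range_eq_bot]
    intro h0
    apply hS.ne j
    rw [hq1 j, h0]
    have h10 := (h1 ℚ_[l] V).2.2.1 0 0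
    rw [zero_smul, zero_smul] at h10
    exact h10
  have hN : N ≤ finrank ℚ_[l] V := by
    rw [← hrank]
    calc N = ∑ _j : Fin N, 1 := by rw [Finset.sum_const, Finset.card_univ, Fintype.card_fin, smul_eq_mul, mul_one]
      _ ≤ _ := Finset.sum_le_sum fun j _ => hpos j
  obtain ⟨t', ht'1, ht'2, ht'3, ht'4⟩ := hB N hN st S (Bd_grp (dg g) ε)
    ⟨t, hnot, (Bd_skew_iff halt hnd hS t).1 hskt, htv⟩
  have hskt' := (Bd_skew_iff halt hnd hS t').2 ht'3
  have hdet' := (hSt t' hskt').2 ht'4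
  have hpow : ((dbl ρ).T (γ ^ n0)).baseChange (AlgebraicClosure ℚ_[l]) =
      (((dbl ρ).T γ).baseChange (AlgebraicClosure ℚ_[l])) ^ n0 := by
    rw [map_pow]
    exact map_pow (Module.End.baseChangeHom ℚ_[l] (AlgebraicClosure ℚ_[l]) (V × V))
      ((dbl ρ).T γ) n0
  have hTr' := hDet n0 hn0 N ε t' ⟨hS.mem, hS.cen, hS.idem, hS.orth, hskt'⟩ (by
    rw [hpow, Mt.Bl_detProd_pow t' hS.idem (fun i => hcom γ hγ0 _ (hS.mem i)) n0]
    exact hdet')
  obtain ⟨U', hU'⟩ := h6 Γ (V × V) (dbl ρ) hss' N st ε hS _ e R r1 r3 t' hskt'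
    fun Y hY _ => hTr' Y hY
  -- the relation for the form
  obtain ⟨q', hq'1, hq'2⟩ := (h3 Γ ℚ_[l] V ρ N t').2 ε ⟨hS.mem, hS.cen, hS.idem, hS.orth, hskt'⟩
  have hqs' : ∑ j, q' j = 1 := by
    refine Bd_sum h1 ?_
    rw [← hS.sum]
    exact Finset.sum_congr rfl fun j _ => (hq'1 j).symm
  have hrank' := Bd_rank hq'2.idem hqs'
  rw [Module.finrank_baseChange] at hrank'
  have hε : ε = fun j => dK (q' j) := funext hq'1
  have hsk2 := Mt.Bl_skew_mul hq'2.skew 2
  have hfin := h5 Γ ℚ_[l] V ρ g hg N q' (fun j => ((2 : ℕ) : ℤ) * t' j)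
    ⟨hq'2.mem, hq'2.cen, hq'2.idem, hq'2.orth, hsk2⟩
    ⟨U', fun γ' hγ' => by
      have h10 := hU' γ' hγ'
      rw [hε] at h10
      rw [← h10]
      exact Bd_detProd h1 h2 q' t' (ρ.T γ')⟩ _ rfl fun f hf => hk _ ?_ f hf
  · apply ht'1
    rw [Bd_mem, hε]
    exact Bd_trRel h1 h2 q' t' g hfin
  · rw [← hrank', Finset.mul_sum]
    refine Finset.sum_le_sum fun j _ => Nat.mul_le_mul_right _ ?_
    rw [Int.natAbs_mul]
    exact Nat.mul_le_mul_left 2 (ht'2 j)

end main

end Pool.Agent.Lib.MP_640417_ag.Kf
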