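import Pool.Agent.Lib.MP_640417_ag.Kf.Spec

/-!
# MP_640417_ag, Kf, module Cn: the central skew elements of `g` kill all Tate forms
-/

set_option autoImplicit false

namespace Pool.Agent.Lib.MP_640417_ag.Kf

open Polynomial Matrix Module TensorProduct MeasureTheory Pool.Agent.Lib.MP_640417_ag
  Pool.Agent.Lib.MP_640417_ag.Frob Pool.Agent.Lib.MP_640417_ag.Glob
  Pool.Agent.Lib.MP_640417_ag.Ctl Pool.Agent.Lib.MP_640417_ag.Ty Pool.Agent.Lib.MP_640417_ag.Gen4
  Pool.Agent.Lib.MP_640417_ag.Dfr Pool.Agent.Lib.MP_640417_ag.Fr Pool.Agent.Lib.MP_640417_ag.Fg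
  Pool.Agent.Lib.MP_640417_ag.Orth

section alg

variable {F : Type} [Field F] {V : Type} [AddCommGroup V] [Module F V]

/-- the derivative of the form pulled back to the double -/
private theorem Cn_df (y : Module.End F V) {k : ℕ} (f : MultilinearMap F (fun _ : Fin k => V) F)
    (v : Fin k → V × V) :
    DF (y.prodMap y) (f.compLinearMap fun _ => LinearMap.fst F V V) v =
      DF y f (fun j => (v j).1) := by
  unfold DF
  refine Finset.sum_congr rfl fun j _ => ?_
  rw [MultilinearMap.compLinearMap_apply]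
  congr 1
  funext i
  by_cases h : i = j
  · subst h
    rw [Function.update_self, Function.update_self]
    rfl
  · rw [Function.update_of_ne h, Function.update_of_ne h]
    rfl

/-- the value of the derivative of the extended form -/
private theorem Cn_val {W : Type} [AddCommGroup W] [Module F W] {k : ℕ}
    (f : MultilinearMap F (fun _ : Fin k => W) F)
    (G : Mf (AlgebraicClosure F) (AlgebraicClosure F ⊗[F] W) k)
    (hG : ∀ v : Fin k → W, G (fun i => 1 ⊗ₜ[F] v i) = algebraMap F (AlgebraicClosure F) (f v))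
    (M : Module.End F W) (v : Fin k → W) :
    Dm (M.baseChange (AlgebraicClosure F)) G (fun i => 1 ⊗ₜ[F] v i) =
      algebraMap F (AlgebraicClosure F) (DF M f v) := by
  rw [Dm_apply]
  unfold DF
  rw [map_sum]
  refine Finset.sum_congr rfl fun j _ => ?_
  rw [LinearMap.baseChange_tmul, ← hG]
  congr 1
  funext i
  by_cases h : i = j
  · subst h
    rw [Function.update_self, Function.update_self]
  · rw [Function.update_of_ne h, Function.update_of_ne h]

end alg

theorem tCn (l : ℕ) [Fact l.Prime] (h1 : S_Tw) (h2 : S_Ck) (h3 : S_Rl l) (h4 : S_Cs l) :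
    S_Cn l := by
  classical
  intro Γ _ _ _ _ V _ _ _ ρ hss g hW z hzg hz k f hf v
  have hchar : CharZero (AlgebraicClosure ℚ_[l]) :=
    charZero_of_injective_algebraMap (algebraMap ℚ_[l] (AlgebraicClosure ℚ_[l])).injective
  have hW' : ¬ Mt.WeilFor (dbl ρ) (dg g) := fun h => hW ((h1 Γ ℚ_[l] V ρ g).1.2 h)
  obtain ⟨N, st, ε, hS⟩ := h4 Γ (V × V) (dbl ρ) (semi_dbl ρ hss)
  obtain ⟨R, r1, r2, r3⟩ := exists_coord (dbl ρ) (Module.finBasis ℚ_[l] (V × V))
  set e := Module.finBasis ℚ_[l] (V × V) with he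
  have halt := alt_baseChange (AlgebraicClosure ℚ_[l]) (dbl ρ).form (dbl ρ).form_alt
  have hnd := nondeg_baseChange (AlgebraicClosure ℚ_[l]) (dbl ρ).form (dbl ρ).form_alt
    (dbl ρ).form_nondeg
  have hz' : CentralSkew (dbl ρ) (z.prodMap z) := (central_dbl ρ _).2 ⟨z, hz, rfl⟩
  obtain ⟨G, hG1, hG2⟩ := exists_bcF (f.compLinearMap fun _ => LinearMap.fst ℚ_[l] V V)
  let A : Set (Module.End (AlgebraicClosure ℚ_[l]) (AlgebraicClosure ℚ_[l] ⊗[ℚ_[l]] (V × V))) :=
    {a | ∃ Y : Module.End ℚ_[l] (V × V), a = Y.baseChange (AlgebraicClosure ℚ_[l]) ∧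
      LinearMap.toMatrix e e Y ∈ R.Hh l ∧ CentralSkew (dbl ρ) Y}
  have key : Dm ((z.prodMap z).baseChange (AlgebraicClosure ℚ_[l])) G = 0 := by
    refine h2 (AlgebraicClosure ℚ_[l]) (AlgebraicClosure ℚ_[l] ⊗[ℚ_[l]] (V × V))
      ((dbl ρ).form.baseChange (AlgebraicClosure ℚ_[l])) (comK (dbl ρ)) N st ε halt hnd hS A
      ((z.prodMap z).baseChange (AlgebraicClosure ℚ_[l])) ?_
      ⟨base_mem (dbl ρ) hz'.1, fun c hc => cen_K (dbl ρ) hz' hc, skew_base (dbl ρ) hz'.2.2⟩
      ?_ k G ?_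
    · rintro a ⟨Y, rfl, -, hY⟩
      exact ⟨base_mem (dbl ρ) hY.1, fun c hc => cen_K (dbl ρ) hY hc, skew_base (dbl ρ) hY.2.2⟩
    · intro s hs hA
      have hU := h3 Γ (V × V) (dbl ρ) (semi_dbl ρ hss) N st ε hS (Fin _) e R r1 r3 s hs
        (fun Y hY hY' => hA _ ⟨Y, rfl, hY, hY'⟩)
      have hTr : Mt.TrRel (dg g) ε s := by
        by_contra hno
        exact hW' ⟨N, ε, s, ⟨hS.mem, hS.cen, hS.idem, hS.orth, hs⟩, hno, hU⟩
      exact hTr _ ⟨z, hzg, rfl⟩
    · rintro a ⟨Y, rfl, hY, hY'⟩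
      obtain ⟨y, hy, rfl⟩ := (central_dbl ρ _).1 hY'
      refine hG2 _ fun w => ?_
      rw [Cn_df]
      have h5 := hh_kills l ρ e R r1 r2 hY f hf (fun j => (w j).1)
      have h6 : cm e (LinearMap.toMatrix e e (y.prodMap y)) = y := cm_mtx e y
      rwa [h6] at h5
  have h7 := Cn_val _ G hG1 (z.prodMap z) (fun j => (v j, (0 : V)))
  rw [key, MultilinearMap.zero_apply, Cn_df] at h7
  exact (map_eq_zero _).1 h7.symm

end Pool.Agent.Lib.MP_640417_ag.Kf
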