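import Pool.Agent.Lib.MP_640417_ag.Kf.Spec

/-!
# MP_640417_ag, Kf, module Cr: relations of the double
-/

set_option autoImplicit false

namespace Pool.Agent.Lib.MP_640417_ag.Kf

open Polynomial Matrix Module TensorProduct MeasureTheory Pool.Agent.Lib.MP_640417_ag
  Pool.Agent.Lib.MP_640417_ag.Frob Pool.Agent.Lib.MP_640417_ag.Glob
  Pool.Agent.Lib.MP_640417_ag.Ctl Pool.Agent.Lib.MP_640417_ag.Ty Pool.Agent.Lib.MP_640417_ag.Gen4
  Pool.Agent.Lib.MP_640417_ag.Dfr Pool.Agent.Lib.MP_640417_ag.Fr Pool.Agent.Lib.MP_640417_ag.Fg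
  Pool.Agent.Lib.MP_640417_ag.Orth

section alg

variable {F : Type} [Field F] {V : Type} [AddCommGroup V] [Module F V]

private theorem pI (a : Bool) (x : AlgebraicClosure F ⊗[F] V) :
    prK F V a (injK F V a x) = x := by
  rw [prK_injK, if_pos rfl]

private theorem pI_ne {a b : Bool} (h : a ≠ b) (x : AlgebraicClosure F ⊗[F] V) :
    prK F V a (injK F V b x) = 0 := by
  rw [prK_injK, if_neg h]

private theorem prK_dK (a : Bool)
    (p : Module.End (AlgebraicClosure F) (AlgebraicClosure F ⊗[F] V))
    (z : AlgebraicClosure F ⊗[F] (V × V)) : prK F V a (dK p z) = p (prK F V a z) := by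
  show prK F V a (injK F V false (p (prK F V false z)) + injK F V true (p (prK F V true z))) = _
  rw [map_add]
  cases a
  · rw [pI, pI_ne (by decide), add_zero]
  · rw [pI, pI_ne (by decide), zero_add]

private theorem ext_pr {z w : AlgebraicClosure F ⊗[F] (V × V)}
    (h : ∀ a, prK F V a z = prK F V a w) : z = w := by
  rw [← injK_prK F V z, ← injK_prK F V w, h, h]

/-- `dK` as a linear map -/
private noncomputable def dL (h1 : S_Dk) :
    Module.End (AlgebraicClosure F) (AlgebraicClosure F ⊗[F] V) →ₗ[AlgebraicClosure F]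
      Module.End (AlgebraicClosure F) (AlgebraicClosure F ⊗[F] (V × V)) where
  toFun := dK
  map_add' := (h1 F V).2.1
  map_smul' := (h1 F V).2.2.1

private theorem dL_apply (h1 : S_Dk)
    (p : Module.End (AlgebraicClosure F) (AlgebraicClosure F ⊗[F] V)) : dL h1 p = dK p := rfl

private theorem dK_zero (h1 : S_Dk) :
    dK (0 : Module.End (AlgebraicClosure F) (AlgebraicClosure F ⊗[F] V)) = 0 :=
  map_zero (dL (F := F) (V := V) h1)

private theorem dK_sum (h1 : S_Dk) {k : ℕ} (s : Fin k → ℤ)
    (p : Fin k → Module.End (AlgebraicClosure F) (AlgebraicClosure F ⊗[F] V)) :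
    ∑ j, (s j : AlgebraicClosure F) • dK (p j) =
      dK (∑ j, (s j : AlgebraicClosure F) • p j) := by
  rw [← dL_apply h1, map_sum]
  refine Finset.sum_congr rfl fun j _ => ?_
  rw [map_smul, dL_apply]

private theorem dK_inj
    {p q : Module.End (AlgebraicClosure F) (AlgebraicClosure F ⊗[F] V)} (h : dK p = dK q) :
    p = q := by
  refine LinearMap.ext fun x => ?_
  have h2 := congrArg (prK F V false) (LinearMap.congr_fun h (injK F V false x))
  rw [prK_dK, prK_dK, pI] at h2
  exact h2

end alg

section rep

variable {Γ : Type} [Group Γ] [TopologicalSpace Γ] {F : Type} [Field F]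
  [TopologicalSpace F] [ContinuousAdd F] {V : Type} [AddCommGroup V] [Module F V]
  (ρ : FormRep Γ F V)

private theorem comK_eq' : comK (dbl ρ) = comF (dblF ρ) := rfl

private theorem form_eq' : (dbl ρ).form.baseChange (AlgebraicClosure F) =
    (dblF ρ).form.baseChange (AlgebraicClosure F) := rfl

private theorem dK_mem {p : Module.End (AlgebraicClosure F) (AlgebraicClosure F ⊗[F] V)}
    (h : p ∈ comF ρ) : dK p ∈ comF (dblF ρ) :=
  Subalgebra.add_mem _ (inj_comF ρ h false false) (inj_comF ρ h true true)

private theorem dK_cen {p : Module.End (AlgebraicClosure F) (AlgebraicClosure F ⊗[F] V)}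
    (h : ∀ c ∈ comF ρ, c * p = p * c) : ∀ c ∈ comF (dblF ρ), c * dK p = dK p * c := by
  intro c hc
  refine LinearMap.ext fun z => ext_pr fun a => ?_
  have h1 : ∀ a b x, prK F V a (c (injK F V b (p x))) = p (prK F V a (c (injK F V b x))) :=
    fun a b x => LinearMap.congr_fun (h _ (pr_comF ρ hc a b)) x
  have h2 : ∀ w, c w = c (injK F V false (prK F V false w)) +
      c (injK F V true (prK F V true w)) := by
    intro w
    rw [← map_add, injK_prK]
  show prK F V a (c (dK p z)) = prK F V a (dK p (c z))
  rw [prK_dK, h2 (dK p z), h2 z, map_add, map_add, map_add, prK_dK, prK_dK, h1, h1]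

private theorem dK_skew {P : Module.End (AlgebraicClosure F) (AlgebraicClosure F ⊗[F] V)}
    (h : Four.Skew (ρ.form.baseChange (AlgebraicClosure F)) P) :
    Four.Skew ((dblF ρ).form.baseChange (AlgebraicClosure F)) (dK P) := by
  intro z w
  rw [dblF_formK, dblF_formK, prK_dK, prK_dK, prK_dK, prK_dK]
  have h1 := h (prK F V false z) (prK F V true w)
  have h2 := h (prK F V false w) (prK F V true z)
  linear_combination h1 - h2

private theorem skew_dK {P : Module.End (AlgebraicClosure F) (AlgebraicClosure F ⊗[F] V)}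
    (h : Four.Skew ((dblF ρ).form.baseChange (AlgebraicClosure F)) (dK P)) :
    Four.Skew (ρ.form.baseChange (AlgebraicClosure F)) P := by
  intro x y
  have h1 := h (injK F V false x) (injK F V true y)
  rw [dblF_formK, dblF_formK, prK_dK, prK_dK, prK_dK, prK_dK, pI, pI,
    pI_ne (a := false) (b := true) (by decide), pI_ne (a := true) (b := false) (by decide)] at h1
  simp only [map_zero, sub_zero] at h1
  exact h1

/-- an endomorphism which commutes with the matrix units is diagonal -/
private theorem eq_dK {P' : Module.End (AlgebraicClosure F) (AlgebraicClosure F ⊗[F] (V × V))}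
    (h : ∀ c ∈ comF (dblF ρ), c * P' = P' * c) :
    P' = dK (prK F V false ∘ₗ P' ∘ₗ injK F V false) := by
  have hone : (1 : Module.End (AlgebraicClosure F) (AlgebraicClosure F ⊗[F] V)) ∈ comF ρ :=
    (comF ρ).one_mem
  have hE : ∀ a b z, injK F V a (prK F V b (P' z)) = P' (injK F V a (prK F V b z)) :=
    fun a b z => LinearMap.congr_fun (h _ (inj_comF ρ hone a b)) z
  refine LinearMap.ext fun z => ext_pr fun a => ?_
  rw [prK_dK]
  show prK F V a (P' z) = prK F V false (P' (injK F V false (prK F V a z)))
  rw [← hE, pI]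

private theorem cen_dK {P : Module.End (AlgebraicClosure F) (AlgebraicClosure F ⊗[F] V)}
    (h : ∀ c ∈ comF (dblF ρ), c * dK P = dK P * c) : ∀ c ∈ comF ρ, c * P = P * c := by
  intro c hc
  refine LinearMap.ext fun x => ?_
  have h1 := congrArg (prK F V false)
    (LinearMap.congr_fun (h _ (inj_comF ρ hc false false)) (injK F V false x))
  change prK F V false (injK F V false (c (prK F V false (dK P (injK F V false x))))) =
    prK F V false (dK P (injK F V false (c (prK F V false (injK F V false x))))) at h1
  rw [prK_dK, prK_dK, pI, pI, pI] at h1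
  exact h1

end rep

theorem tCr (h1 : S_Dk) : S_Cr := by
  intro Γ _ _ F _ _ _ V _ _ ρ k s
  constructor
  · intro p hp
    constructor
    · exact fun j => dK_mem ρ (hp.mem j)
    · exact fun j => dK_cen ρ (hp.cen j)
    · intro j
      show dK (p j) * dK (p j) = dK (p j)
      rw [← (h1 F V).1, hp.idem]
    · intro i j hij
      show dK (p i) * dK (p j) = 0
      rw [← (h1 F V).1, hp.orth i j hij, dK_zero h1]
    · have h2 := dK_skew ρ hp.skew
      rw [← dK_sum h1] at h2
      exact h2
  · intro p' hp'
    have h2 : ∀ j, p' j = dK (prK F V false ∘ₗ p' j ∘ₗ injK F V false) := fun j =>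
      eq_dK ρ (hp'.cen j)
    refine ⟨fun j => prK F V false ∘ₗ p' j ∘ₗ injK F V false, h2, ?_, ?_, ?_, ?_, ?_⟩
    · exact fun j => pr_comF ρ (hp'.mem j) false false
    · intro j
      refine cen_dK ρ ?_
      rw [← h2]
      exact hp'.cen j
    · intro j
      refine dK_inj ?_
      rw [(h1 F V).1, ← h2]
      exact hp'.idem j
    · intro i j hij
      refine dK_inj ?_
      rw [(h1 F V).1, ← h2, ← h2, dK_zero h1]
      exact hp'.orth i j hij
    · refine skew_dK ρ ?_
      rw [← dK_sum h1]
      simp only [← h2]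
      exact hp'.skew

end Pool.Agent.Lib.MP_640417_ag.Kf
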