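import Pool.Agent.Lib.MP_640417_ag.Kf.Spec

/-!
# MP_640417_ag, Kf: the primitive central idempotents of an `H1Rep`
-/

set_option autoImplicit false

namespace Pool.Agent.Lib.MP_640417_ag.Kf

open Polynomial Matrix Module TensorProduct MeasureTheory Pool.Agent.Lib.MP_640417_ag
  Pool.Agent.Lib.MP_640417_ag.Frob Pool.Agent.Lib.MP_640417_ag.Glob
  Pool.Agent.Lib.MP_640417_ag.Ctl Pool.Agent.Lib.MP_640417_ag.Ty Pool.Agent.Lib.MP_640417_ag.Gen4
  Pool.Agent.Lib.MP_640417_ag.Dfr Pool.Agent.Lib.MP_640417_ag.Fr Pool.Agent.Lib.MP_640417_ag.Fg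
  Pool.Agent.Lib.MP_640417_ag.Orth

theorem tCs (l : ℕ) [Fact l.Prime] : S_Cs l := by
  classical
  intro Γ _ _ _ _ V _ _ _ ρ hss
  have hchar : CharZero (AlgebraicClosure ℚ_[l]) :=
    charZero_of_injective_algebraMap (algebraMap ℚ_[l] (AlgebraicClosure ℚ_[l])).injective
  obtain ⟨U0, hU0⟩ := exists_U0 ρ
  have := topGroup_U U0
  have := compact_U U0
  have hfull : ∀ c, CommF (res ρ U0) c → ∀ γ, c * (res ρ U0).T γ = (res ρ U0).T γ * c :=
    fun c hc γ' => (hU0 γ'.1).mp γ'.2 c ((commF_res ρ U0 c).mp hc)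
  have hreg : Lef.Reg (comK ρ) := by
    have h := Dfr.reg_comK (res ρ U0) (semi_res ρ U0 hss) hfull
    rwa [comK_resU] at h
  have hadj : Lef.AdjC (ρ.form.baseChange (AlgebraicClosure ℚ_[l])) (comK ρ) := by
    have h := Dfr.adj_comK (res ρ U0) hfull
    rwa [comK_resU] at h
  have halt := alt_baseChange (AlgebraicClosure ℚ_[l]) ρ.form ρ.form_alt
  have hnd := nondeg_baseChange (AlgebraicClosure ℚ_[l]) ρ.form ρ.form_alt ρ.form_nondeg
  exact Mt.tCsy (AlgebraicClosure ℚ_[l]) (AlgebraicClosure ℚ_[l] ⊗[ℚ_[l]] V)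
    (ρ.form.baseChange (AlgebraicClosure ℚ_[l])) (comK ρ) halt hnd hreg hadj

end Pool.Agent.Lib.MP_640417_ag.Kf
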