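import Pool.Agent.Lib.MP_640417_ag.Mt.DefsC
import Pool.Agent.Lib.MP_640417_ag.Fg.ComF

/-!
# MP_640417_ag, Kf (the motivic Mumford-Tate conjecture for every variety): definitions

`ρ` is a representation with a form (`FormRep`), for example the sum of all `H^j(X)(j/2)` for a smooth projective
variety `X`. `Z` is a family of spaces of Tate forms in any number of variables (the known ones, for example
the classes of algebraic cycles on the powers of `X`).
-/

set_option autoImplicit false

namespace Pool.Agent.Lib.MP_640417_ag.Kf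

open Polynomial Module TensorProduct MeasureTheory Pool.Agent.Lib.MP_640417_ag.Fr
  Pool.Agent.Lib.MP_640417_ag.Fg Pool.Agent.Lib.MP_640417_ag.Dfr

/-- A family of spaces of multilinear forms: `Z k` for `k` variables. -/
abbrev Fam (F V : Type) [Field F] [AddCommGroup V] [Module F V] : Type :=
  (k : ℕ) → Submodule F (MultilinearMap F (fun _ : Fin k => V) F)

section rep

variable {Γ : Type} [Group Γ] [TopologicalSpace Γ] {F : Type} [Field F]
  [TopologicalSpace F] {V : Type} [AddCommGroup V] [Module F V]

/-- `Z k` is a space of Tate forms in `k` variables, stable under `Γ`, and equal to the space of all Tate forms for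
`k = 2`. -/
structure Known (ρ : FormRep Γ F V) (Z : Fam F V) : Prop where
  tate : ∀ k, ∀ f ∈ Z k, TateG ρ k f
  stable : ∀ γ k, ∀ f ∈ Z k, f.compLinearMap (fun _ => ρ.T γ) ∈ Z k
  two : ∀ f, TateG ρ 2 f → f ∈ Z 2

/-- The Lie algebra of the maps which kill all known forms. -/
def LieOf (Z : Fam F V) : Set (Module.End F V) :=
  {X | ∀ k, ∀ f ∈ Z k, ∀ v, DF X f v = 0}

/-- All Tate forms in `k` variables which are killed by the center of `g` are killed by `g`. -/
def Controls (ρ : FormRep Γ F V) (g : Set (Module.End F V)) (k : ℕ) : Prop :=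
  ∀ f, TateG ρ k f → (∀ z ∈ g, (∀ X ∈ g, z * X = X * z) → ∀ v, DF z f v = 0) →
    ∀ X ∈ g, ∀ v, DF X f v = 0

/-- All Tate forms in any number of variables are killed by `g`. -/
def KillsAll (ρ : FormRep Γ F V) (g : Set (Module.End F V)) : Prop :=
  ∀ k f, TateG ρ k f → ∀ X ∈ g, ∀ v, DF X f v = 0

/-- conjugation by `γ` over an algebraic closure -/
noncomputable def conjK (ρ : FormRep Γ F V) (γ : Γ) :
    Module.End (AlgebraicClosure F)
      (Module.End (AlgebraicClosure F) (AlgebraicClosure F ⊗[F] V)) :=
  LinearMap.mulLeft (AlgebraicClosure F) ((ρ.T γ).baseChange (AlgebraicClosure F)) ∘ₗ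
    LinearMap.mulRight (AlgebraicClosure F) ((ρ.T γ⁻¹).baseChange (AlgebraicClosure F))

/-- the part of the span of `g` over an algebraic closure in the generalized `z`-eigenspace of the
conjugation by `γ` -/
noncomputable def Part (ρ : FormRep Γ F V) (g : Set (Module.End F V)) (γ : Γ)
    (z : AlgebraicClosure F) :
    Submodule (AlgebraicClosure F)
      (Module.End (AlgebraicClosure F) (AlgebraicClosure F ⊗[F] V)) :=
  Module.End.maxGenEigenspace (R := AlgebraicClosure F)
      (M := Module.End (AlgebraicClosure F) (AlgebraicClosure F ⊗[F] V)) (conjK ρ γ) z ⊓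
    Submodule.span (AlgebraicClosure F) ((fun X => X.baseChange (AlgebraicClosure F)) '' g)

/-- `γ` is good for `g`: for all `N > 0` conjugation by `γ ^ N` on `g` (over an algebraic closure) has a
commutative generalized eigenspace for the eigenvalue `1`, and the other generalized eigenspaces have
dimension at most one. -/
def GoodFor (ρ : FormRep Γ F V) (g : Set (Module.End F V)) (γ : Γ) : Prop :=
  ∀ N : ℕ, 0 < N →
    (∀ X ∈ Part ρ g (γ ^ N) 1, ∀ Y ∈ Part ρ g (γ ^ N) 1, X * Y = Y * X) ∧
    ∀ z, z ≠ 1 → finrank (AlgebraicClosure F) (Part ρ g (γ ^ N) z) ≤ 1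

/-- A relation between the determinants on components holds on an open subgroup and does not hold for `g`. -/
def WeilFor (ρ : FormRep Γ F V) (g : Set (Module.End F V)) : Prop :=
  ∃ (k : ℕ) (p : Fin k → Module.End (AlgebraicClosure F) (AlgebraicClosure F ⊗[F] V))
    (s : Fin k → ℤ), CenRel (ρ.form.baseChange (AlgebraicClosure F)) (comF ρ) p s ∧
    ¬ Mt.TrRel g p s ∧
    ∃ U : OpenSubgroup Γ, ∀ γ ∈ U, detProd p s ((ρ.T γ).baseChange (AlgebraicClosure F)) = 1

/-- The relations between the determinants on components of the powers of `γ` hold for `g`. -/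
def DetFor (ρ : FormRep Γ F V) (g : Set (Module.End F V)) (γ : Γ) : Prop :=
  ∀ N : ℕ, 0 < N → ∀ (k : ℕ)
    (p : Fin k → Module.End (AlgebraicClosure F) (AlgebraicClosure F ⊗[F] V)) (s : Fin k → ℤ),
    CenRel (ρ.form.baseChange (AlgebraicClosure F)) (comF ρ) p s →
    detProd p s ((ρ.T (γ ^ N)).baseChange (AlgebraicClosure F)) = 1 → Mt.TrRel g p s

/-- The element `γ` acts like a Frobenius element: for a prime number `p` the characteristic polynomial of `p ^ c • γ ^ 2` has
integral coefficients, and all its complex roots have absolute value `p ^ (b / 2)`. For `V = H^j(X)` and the Frobenius element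
of a place of good reduction with residue field of `p` elements this holds with `c = 0`, `b = 2 j`, and for the sum of
the `H^j(X)(j/2)`, `j ≤ 2 d`, with `c = 2 d`, `b = 4 d`. -/
def FrobLike [FiniteDimensional F V] (ρ : FormRep Γ F V) (c b : ℕ) (γ : Γ) : Prop :=
  ∃ (p : ℕ) (P : ℤ[X]), p.Prime ∧
    ((p : F) ^ c • (ρ.T γ * ρ.T γ)).charpoly = P.map (Int.castRingHom F) ∧
    ∀ z : ℂ, aeval z P = 0 → ‖z‖ ^ 2 = (p : ℝ) ^ b

/-- The Tate forms in two variables. -/
def TwoZ (ρ : FormRep Γ F V) (k : ℕ) : Submodule F (MultilinearMap F (fun _ : Fin k => V) F) :=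
  Submodule.span F {f | k = 2 ∧ TateG ρ k f}

end rep

/-- a number of variables (a bound in terms of the dimension `n` and the weight `b`) -/
def bnd (n b : ℕ) : ℕ :=
  4 + 2 * (n * (n.factorial * ((2 * n) ^ (2 * n) * (b * (2 * n)) + 2) ^ n)) * n

end Pool.Agent.Lib.MP_640417_ag.Kf
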