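import Pool.Agent.Lib.MP_640417_ag.Kf.Spec

/-!
# MP_640417_ag, Kf, module `Dk`: the map `dK`
-/

set_option autoImplicit false

namespace Pool.Agent.Lib.MP_640417_ag.Kf

open Polynomial Matrix Module TensorProduct MeasureTheory Pool.Agent.Lib.MP_640417_ag
  Pool.Agent.Lib.MP_640417_ag.Frob Pool.Agent.Lib.MP_640417_ag.Glob
  Pool.Agent.Lib.MP_640417_ag.Ctl Pool.Agent.Lib.MP_640417_ag.Ty Pool.Agent.Lib.MP_640417_ag.Gen4
  Pool.Agent.Lib.MP_640417_ag.Dfr Pool.Agent.Lib.MP_640417_ag.Fr Pool.Agent.Lib.MP_640417_ag.Fg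
  Pool.Agent.Lib.MP_640417_ag.Orth

section

variable {F : Type} [Field F] {V : Type} [AddCommGroup V] [Module F V]

private theorem Dk_ext {y y' : AlgebraicClosure F ⊗[F] (V × V)}
    (h : ∀ a, prK F V a y = prK F V a y') : y = y' := by
  rw [← injK_prK F V y, ← injK_prK F V y', h, h]

private theorem Dk_pr (p : Module.End (AlgebraicClosure F) (AlgebraicClosure F ⊗[F] V)) (a : Bool)
    (z : AlgebraicClosure F ⊗[F] (V × V)) : prK F V a (dK p z) = p (prK F V a z) := by
  have h : dK p z = injK F V false (p (prK F V false z)) + injK F V true (p (prK F V true z)) :=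
    rfl
  rw [h, map_add, prK_injK, prK_injK]
  cases a
  · simp
  · simp

end

theorem tDk : S_Dk := by
  intro F _ V _ _
  refine ⟨fun p q => ?_, fun p q => ?_, fun c p => ?_, ?_, fun p hp => ?_, fun X => ?_⟩
  · refine LinearMap.ext fun z => Dk_ext fun a => ?_
    rw [Dk_pr, Module.End.mul_apply, Module.End.mul_apply, Dk_pr, Dk_pr]
  · refine LinearMap.ext fun z => Dk_ext fun a => ?_
    rw [Dk_pr, LinearMap.add_apply, LinearMap.add_apply, map_add, Dk_pr, Dk_pr]
  · refine LinearMap.ext fun z => Dk_ext fun a => ?_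
    rw [Dk_pr, LinearMap.smul_apply, LinearMap.smul_apply, map_smul, Dk_pr]
  · refine LinearMap.ext fun z => Dk_ext fun a => ?_
    rw [Dk_pr, Module.End.one_apply, Module.End.one_apply]
  · refine LinearMap.ext fun x => ?_
    have h1 := Dk_pr p false (injK F V false x)
    rw [hp, prK_injK, if_pos rfl, LinearMap.zero_apply, map_zero] at h1
    rw [← h1, LinearMap.zero_apply]
  · refine LinearMap.ext fun z => Dk_ext fun a => ?_
    rw [Dk_pr, prK_prodMap]

end Pool.Agent.Lib.MP_640417_ag.Kf
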