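import Pool.Agent.Lib.MP_640417_ag.Kf.Spec

/-!
# MP_640417_ag, Kf, module Dl: the product of the determinants on the ranges of idempotents
-/

set_option autoImplicit false

namespace Pool.Agent.Lib.MP_640417_ag.Kf

open Polynomial Matrix Module TensorProduct MeasureTheory Pool.Agent.Lib.MP_640417_ag
  Pool.Agent.Lib.MP_640417_ag.Frob Pool.Agent.Lib.MP_640417_ag.Glob
  Pool.Agent.Lib.MP_640417_ag.Ctl Pool.Agent.Lib.MP_640417_ag.Ty Pool.Agent.Lib.MP_640417_ag.Gen4
  Pool.Agent.Lib.MP_640417_ag.Dfr Pool.Agent.Lib.MP_640417_ag.Fr Pool.Agent.Lib.MP_640417_ag.Fg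
  Pool.Agent.Lib.MP_640417_ag.Orth

private theorem Dl_ll {V : Type} {k m n : ℕ} (e : Fin k ⊕ Fin m ≃ Fin n) (z : Fin n → V)
    (i : Fin k) (x : V) :
    (fun j => (Function.update z (e (Sum.inl i)) x) (e (Sum.inl j))) =
      Function.update (fun j => z (e (Sum.inl j))) i x := by
  funext j
  by_cases h : j = i
  · subst h
    rw [Function.update_self, Function.update_self]
  · rw [Function.update_of_ne, Function.update_of_ne h]
    intro h2
    exact h (Sum.inl_injective (e.injective h2))

private theorem Dl_rr {V : Type} {k m n : ℕ} (e : Fin k ⊕ Fin m ≃ Fin n) (z : Fin n → V)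
    (i : Fin m) (x : V) :
    (fun j => (Function.update z (e (Sum.inr i)) x) (e (Sum.inr j))) =
      Function.update (fun j => z (e (Sum.inr j))) i x := by
  funext j
  by_cases h : j = i
  · subst h
    rw [Function.update_self, Function.update_self]
  · rw [Function.update_of_ne, Function.update_of_ne h]
    intro h2
    exact h (Sum.inr_injective (e.injective h2))

private theorem Dl_lr {V : Type} {k m n : ℕ} (e : Fin k ⊕ Fin m ≃ Fin n) (z : Fin n → V)
    (i : Fin k) (x : V) :
    (fun j => (Function.update z (e (Sum.inl i)) x) (e (Sum.inr j))) =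
      fun j => z (e (Sum.inr j)) := by
  funext j
  rw [Function.update_of_ne]
  intro h2
  exact absurd (e.injective h2) (by simp)

private theorem Dl_rl {V : Type} {k m n : ℕ} (e : Fin k ⊕ Fin m ≃ Fin n) (z : Fin n → V)
    (i : Fin m) (x : V) :
    (fun j => (Function.update z (e (Sum.inr i)) x) (e (Sum.inl j))) =
      fun j => z (e (Sum.inl j)) := by
  funext j
  rw [Function.update_of_ne]
  intro h2
  exact absurd (e.injective h2) (by simp)

/-- the product form -/
private noncomputable def Dl_pr {F V : Type} [Field F] [AddCommGroup V] [Module F V] {k m n : ℕ}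
    (e : Fin k ⊕ Fin m ≃ Fin n) (f : MultilinearMap F (fun _ : Fin k => V) F)
    (f' : MultilinearMap F (fun _ : Fin m => V) F) :
    MultilinearMap F (fun _ : Fin n => V) F where
  toFun z := f (fun j => z (e (Sum.inl j))) * f' (fun j => z (e (Sum.inr j)))
  map_update_add' := by
    intro inst z i x y
    rw [Subsingleton.elim inst (instDecidableEqFin n)]
    obtain ⟨s, rfl⟩ := e.surjective i
    rcases s with s | s
    · rw [Dl_ll, Dl_ll, Dl_ll, Dl_lr, Dl_lr, Dl_lr, MultilinearMap.map_update_add, add_mul]
    · rw [Dl_rr, Dl_rr, Dl_rr, Dl_rl, Dl_rl, Dl_rl, MultilinearMap.map_update_add, mul_add]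
  map_update_smul' := by
    intro inst z i r x
    rw [Subsingleton.elim inst (instDecidableEqFin n)]
    obtain ⟨s, rfl⟩ := e.surjective i
    rcases s with s | s
    · rw [Dl_ll, Dl_ll, Dl_lr, Dl_lr, MultilinearMap.map_update_smul, smul_eq_mul,
        smul_eq_mul, mul_assoc]
    · rw [Dl_rr, Dl_rr, Dl_rl, Dl_rl, MultilinearMap.map_update_smul, smul_eq_mul,
        smul_eq_mul, mul_left_comm]

private theorem Dl_pr_apply {F V : Type} [Field F] [AddCommGroup V] [Module F V] {k m n : ℕ}
    (e : Fin k ⊕ Fin m ≃ Fin n) (f : MultilinearMap F (fun _ : Fin k => V) F)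
    (f' : MultilinearMap F (fun _ : Fin m => V) F) (z : Fin n → V) :
    Dl_pr e f f' z = f (fun j => z (e (Sum.inl j))) * f' (fun j => z (e (Sum.inr j))) := rfl

private theorem DF_Dl_pr {F V : Type} [Field F] [AddCommGroup V] [Module F V] {k m n : ℕ}
    (e : Fin k ⊕ Fin m ≃ Fin n) (f : MultilinearMap F (fun _ : Fin k => V) F)
    (f' : MultilinearMap F (fun _ : Fin m => V) F) (M : Module.End F V) (z : Fin n → V) :
    DF M (Dl_pr e f f') z = DF M f (fun j => z (e (Sum.inl j))) * f' (fun j => z (e (Sum.inr j))) +
      f (fun j => z (e (Sum.inl j))) * DF M f' (fun j => z (e (Sum.inr j))) := by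
  unfold DF
  rw [← Equiv.sum_comp e, Fintype.sum_sum_type, Finset.sum_mul, Finset.mul_sum]
  congr 1
  · refine Finset.sum_congr rfl fun i _ => ?_
    rw [Dl_pr_apply, Dl_ll, Dl_lr]
  · refine Finset.sum_congr rfl fun i _ => ?_
    rw [Dl_pr_apply, Dl_rr, Dl_rl]

private theorem Dl_det_range {K V : Type} [Field K] [AddCommGroup V] [Module K V]
    [FiniteDimensional K V] {Q : Module.End K V} (hQ : Q * Q = Q) {G : Module.End K V}
    (hG : Q * G = G * Q) (hR : ∀ x ∈ LinearMap.range Q, G x ∈ LinearMap.range Q) :
    LinearMap.det (G.restrict hR) = LinearMap.det (Q * G + (1 - Q)) := by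
  have hQx : ∀ x ∈ LinearMap.range Q, Q x = x := by
    rintro _ ⟨y, rfl⟩
    rw [← Module.End.mul_apply, hQ]
  have he : ∀ x ∈ LinearMap.range Q, (Q * G + (1 - Q)) x = G x := by
    intro x hx
    rw [LinearMap.add_apply, LinearMap.sub_apply, Module.End.one_apply, hQx x hx, sub_self,
      add_zero, hG, Module.End.mul_apply, hQx x hx]
  have hle : LinearMap.range Q ≤ (LinearMap.range Q).comap (Q * G + (1 - Q)) := by
    intro x hx
    rw [Submodule.mem_comap, he x hx]
    exact hR x hx
  rw [LinearMap.det_eq_det_mul_det (LinearMap.range Q) (Q * G + (1 - Q)) hle]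
  have h1 : (LinearMap.range Q).mapQ (LinearMap.range Q) (Q * G + (1 - Q)) hle =
      LinearMap.id := by
    apply Submodule.linearMap_qext
    ext x
    rw [LinearMap.comp_apply, LinearMap.comp_apply, Submodule.mkQ_apply, Submodule.mapQ_apply,
      LinearMap.id_apply, Submodule.Quotient.eq]
    refine ⟨G x - x, ?_⟩
    rw [LinearMap.add_apply, LinearMap.sub_apply, Module.End.one_apply, map_sub,
      Module.End.mul_apply]
    abel
  rw [h1, LinearMap.det_id, mul_one]
  congr 1
  ext x
  exact (he x x.2).symm

/-- the trace of the restriction to the range of an idempotent -/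
private theorem Dl_trace_range {K V : Type} [Field K] [AddCommGroup V] [Module K V]
    [FiniteDimensional K V] {Q : Module.End K V} (hQ : Q * Q = Q) {X : Module.End K V}
    (hX : Q * X = X * Q) (hR : ∀ x ∈ LinearMap.range Q, X x ∈ LinearMap.range Q) :
    LinearMap.trace K _ (X.restrict hR) = LinearMap.trace K V (Q * X) := by
  have hQx : ∀ x ∈ LinearMap.range Q, Q x = x := by
    rintro _ ⟨y, rfl⟩
    rw [← Module.End.mul_apply, hQ]
  have h1 : Q * X = (LinearMap.range Q).subtype ∘ₗ (X.restrict hR ∘ₗ Q.rangeRestrict) := by
    rw [hX]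
    ext x
    rfl
  have h2 : X.restrict hR = (X.restrict hR ∘ₗ Q.rangeRestrict) ∘ₗ (LinearMap.range Q).subtype := by
    ext x
    change X x = X (Q x)
    rw [hQx x x.2]
  rw [h1, LinearMap.trace_comp_comm']
  exact congrArg _ h2

private theorem Dl_det_upd {F : Type} [Field F] {V : Type} [AddCommGroup V]
    [Module F V] {N : ℕ} (b : Basis (Fin N) F V) (i : Fin N) (y : V) :
    b.det (Function.update b i y) = b.repr y i := by
  have h : b.det.toMultilinearMap.toLinearMap b i = b.coord i := by
    refine b.ext fun j => ?_
    rw [MultilinearMap.toLinearMap_apply, Basis.coord_apply, Basis.repr_self]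
    by_cases hij : i = j
    · subst hij
      rw [Function.update_eq_self, Finsupp.single_eq_same]
      exact b.det_self
    · rw [Finsupp.single_eq_of_ne hij]
      refine b.det.map_eq_zero_of_eq _ (i := i) (j := j) ?_ hij
      rw [Function.update_self, Function.update_of_ne (Ne.symm hij)]
  have h2 := LinearMap.congr_fun h y
  rw [MultilinearMap.toLinearMap_apply, Basis.coord_apply] at h2
  exact h2

private theorem Dl_det_der {F : Type} [Field F] [CharZero F] {V : Type} [AddCommGroup V]
    [Module F V] [FiniteDimensional F V] (b : Basis (Fin (finrank F V)) F V) (X : Module.End F V)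
    (w : Fin (finrank F V) → V) :
    ∑ a, b.det (Function.update w a (X (w a))) = LinearMap.trace F V X * b.det w := by
  let A : V [⋀^Fin (finrank F V)]→ₗ[F] F :=
    { toMultilinearMap := Dm X b.det.toMultilinearMap
      map_eq_zero_of_eq' := by
        intro v i j hv hij
        change Dm X b.det.toMultilinearMap v = 0
        rw [Dm_apply, ← Finset.add_sum_erase Finset.univ _ (Finset.mem_univ i),
          ← Finset.add_sum_erase (Finset.univ.erase i) _
            (Finset.mem_erase.2 ⟨Ne.symm hij, Finset.mem_univ j⟩)]
        rw [Finset.sum_eq_zero, add_zero]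
        · have h1 : Function.update v j (X (v j)) =
              Function.update v i (X (v i)) ∘ Equiv.swap i j := by
            funext l
            by_cases hl : l = i
            · subst hl
              rw [Function.comp_apply, Equiv.swap_apply_left, Function.update_of_ne hij,
                Function.update_of_ne (Ne.symm hij), hv]
            · by_cases hl' : l = j
              · subst hl'
                rw [Function.comp_apply, Equiv.swap_apply_right, Function.update_self,
                  Function.update_self, hv]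
              · rw [Function.comp_apply, Equiv.swap_apply_of_ne_of_ne hl hl',
                  Function.update_of_ne hl', Function.update_of_ne hl]
          rw [h1]
          change b.det _ + b.det _ = 0
          rw [b.det.map_swap _ hij, add_neg_cancel]
        · intro l hl
          have hlj := Finset.ne_of_mem_erase hl
          have hli := Finset.ne_of_mem_erase (Finset.mem_of_mem_erase hl)
          refine b.det.map_eq_zero_of_eq _ (i := i) (j := j) ?_ hij
          rw [Function.update_of_ne (Ne.symm hli), Function.update_of_ne (Ne.symm hlj), hv] }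
  have hA : ∀ v, A v = ∑ a, b.det (Function.update v a (X (v a))) := fun v =>
    Dm_apply X b.det.toMultilinearMap v
  have h1 : A b = LinearMap.trace F V X := by
    rw [hA, LinearMap.trace_eq_matrix_trace F b X, Matrix.trace]
    refine Finset.sum_congr rfl fun i _ => ?_
    rw [Dl_det_upd, Matrix.diag_apply, LinearMap.toMatrix_apply]
  rw [← hA, ← h1]
  have h2 := A.eq_smul_basis_det b
  have h3 := congrArg (fun g : V [⋀^Fin (finrank F V)]→ₗ[F] F => g w) h2
  exact h3

/-- the determinant on the range of an idempotent -/
private theorem Dl_one {K V : Type} [Field K] [CharZero K] [AddCommGroup V] [Module K V]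
    [FiniteDimensional K V] {Q : Module.End K V} (hQ : Q * Q = Q) :
    ∃ f : Mf K V (finrank K (LinearMap.range Q)), (∃ v, f v ≠ 0) ∧
      (∀ g : Module.End K V, Q * g = g * Q → ∀ v,
        f (fun i => g (v i)) = LinearMap.det (Q * g + (1 - Q)) * f v) ∧
      ∀ X : Module.End K V, Q * X = X * Q → ∀ v,
        DF X f v = LinearMap.trace K V (Q * X) * f v := by
  have hQx : ∀ x ∈ LinearMap.range Q, Q x = x := by
    rintro _ ⟨y, rfl⟩
    rw [← Module.End.mul_apply, hQ]
  have hres : ∀ g : Module.End K V, Q * g = g * Q →
      ∀ x ∈ LinearMap.range Q, g x ∈ LinearMap.range Q := by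
    rintro g hg _ ⟨y, rfl⟩
    refine ⟨g y, ?_⟩
    rw [← Module.End.mul_apply, hg, Module.End.mul_apply]
  have hcomm : ∀ (g : Module.End K V) (hg : Q * g = g * Q) (x : V),
      Q.rangeRestrict (g x) = g.restrict (hres g hg) (Q.rangeRestrict x) := by
    intro g hg x
    apply Subtype.ext
    change Q (g x) = g (Q x)
    rw [← Module.End.mul_apply, hg, Module.End.mul_apply]
  let b : Basis (Fin (finrank K (LinearMap.range Q))) K (LinearMap.range Q) :=
    Module.finBasis K (LinearMap.range Q)
  let f : Mf K V (finrank K (LinearMap.range Q)) :=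
    b.det.toMultilinearMap.compLinearMap fun _ => Q.rangeRestrict
  have hf : ∀ v, f v = b.det (fun i => Q.rangeRestrict (v i)) := fun v => rfl
  refine ⟨f, ⟨fun i => (b i : V), ?_⟩, ?_, ?_⟩
  · rw [hf]
    have h1 : (fun i => Q.rangeRestrict ((b i : LinearMap.range Q) : V)) = b := by
      funext i
      exact Subtype.ext (hQx _ (b i).2)
    rw [h1, Basis.det_self]
    exact one_ne_zero
  · intro g hg v
    rw [hf, hf, ← Dl_det_range hQ hg (hres g hg), ← Basis.det_comp]
    congr 1
    funext i
    exact hcomm g hg (v i)
  · intro X hX v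
    have h1 := Dl_det_der b (X.restrict (hres X hX)) (fun i => Q.rangeRestrict (v i))
    rw [Dl_trace_range hQ hX (hres X hX)] at h1
    rw [hf, ← h1]
    unfold DF
    refine Finset.sum_congr rfl fun j _ => ?_
    rw [hf]
    congr 1
    funext i
    by_cases h : i = j
    · subst h
      rw [Function.update_self, Function.update_self]
      exact hcomm X hX (v i)
    · rw [Function.update_of_ne h, Function.update_of_ne h]

/-- the product of the determinants on the ranges of idempotents -/
theorem tDl : S_Dl := by
  intro K _ _ V _ _ _ L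
  induction L with
  | nil =>
    intro _
    refine ⟨0, MultilinearMap.constOfIsEmpty K (fun _ : Fin 0 => V) 1, ?_, ?_, ?_, ?_⟩
    · intro h
      have h1 := congrArg (fun g : Mf K V 0 => g Fin.elim0) h
      exact one_ne_zero h1
    · rfl
    · intro g _ v
      change (1 : K) = _ * 1
      simp
    · intro X _ v
      simp [DF]
  | cons q L ih =>
    intro hL
    obtain ⟨k', f', hf0, hk, hg, hX⟩ := ih fun p hp => hL p (List.mem_cons_of_mem q hp)
    obtain ⟨ω, ⟨w, hw⟩, hωg, hωX⟩ := Dl_one (hL q List.mem_cons_self)
    have hf' : ∃ w', f' w' ≠ 0 := by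
      by_contra h
      push Not at h
      exact hf0 (MultilinearMap.ext h)
    obtain ⟨w', hw'⟩ := hf'
    refine ⟨finrank K (LinearMap.range q) + k', Dl_pr finSumFinEquiv ω f', ?_, ?_, ?_, ?_⟩
    · intro h
      have h1 := congrArg (fun g : Mf K V (finrank K (LinearMap.range q) + k') =>
        g (fun l => Sum.elim w w' (finSumFinEquiv.symm l))) h
      have h2 : ω w * f' w' = 0 := by
        have h3 : Dl_pr finSumFinEquiv ω f'
            (fun l => Sum.elim w w' (finSumFinEquiv.symm l)) = 0 := h1
        rw [Dl_pr_apply] at h3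
        simp only [Equiv.symm_apply_apply, Sum.elim_inl, Sum.elim_inr] at h3
        exact h3
      exact mul_ne_zero hw hw' h2
    · rw [List.map_cons, List.sum_cons, hk]
    · intro g hgL v
      rw [Dl_pr_apply, Dl_pr_apply, hωg g (hgL q List.mem_cons_self),
        hg g (fun p hp => hgL p (List.mem_cons_of_mem q hp)), List.map_cons, List.prod_cons]
      ring
    · intro X hXL v
      rw [DF_Dl_pr, Dl_pr_apply, hωX X (hXL q List.mem_cons_self),
        hX X (fun p hp => hXL p (List.mem_cons_of_mem q hp)), List.map_cons, List.sum_cons]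
      ring

end Pool.Agent.Lib.MP_640417_ag.Kf
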