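import Pool.Agent.Lib.MP_640417_ag.Kf.Spec

/-!
# MP_640417_ag, Kf, module Dt: trace and determinant of `dK p`
-/

set_option autoImplicit false

namespace Pool.Agent.Lib.MP_640417_ag.Kf

open Polynomial Matrix Module TensorProduct MeasureTheory Pool.Agent.Lib.MP_640417_ag
  Pool.Agent.Lib.MP_640417_ag.Frob Pool.Agent.Lib.MP_640417_ag.Glob
  Pool.Agent.Lib.MP_640417_ag.Ctl Pool.Agent.Lib.MP_640417_ag.Ty Pool.Agent.Lib.MP_640417_ag.Gen4
  Pool.Agent.Lib.MP_640417_ag.Dfr Pool.Agent.Lib.MP_640417_ag.Fr Pool.Agent.Lib.MP_640417_ag.Fg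
  Pool.Agent.Lib.MP_640417_ag.Orth

section

variable (F : Type) [Field F] (V : Type) [AddCommGroup V] [Module F V]

/-- `K ⊗ (V × V)` as a product -/
private noncomputable def eqv : (AlgebraicClosure F ⊗[F] (V × V)) ≃ₗ[AlgebraicClosure F]
    (AlgebraicClosure F ⊗[F] V) × (AlgebraicClosure F ⊗[F] V) where
  toFun z := (prK F V false z, prK F V true z)
  map_add' x y := by
    rw [map_add, map_add]
    rfl
  map_smul' c x := by
    rw [map_smul, map_smul]
    rfl
  invFun w := injK F V false w.1 + injK F V true w.2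
  left_inv z := injK_prK F V z
  right_inv w := by
    refine Prod.ext ?_ ?_
    · show prK F V false (injK F V false w.1 + injK F V true w.2) = w.1
      rw [map_add, prK_injK, prK_injK, if_pos rfl, if_neg (by decide), add_zero]
    · show prK F V true (injK F V false w.1 + injK F V true w.2) = w.2
      rw [map_add, prK_injK, prK_injK, if_neg (by decide), if_pos rfl, zero_add]

private theorem eqv_symm (w : (AlgebraicClosure F ⊗[F] V) × (AlgebraicClosure F ⊗[F] V)) :
    (eqv F V).symm w = injK F V false w.1 + injK F V true w.2 := rfl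

private theorem dK_conj (p : Module.End (AlgebraicClosure F) (AlgebraicClosure F ⊗[F] V)) :
    dK p = (eqv F V).symm.conj (p.prodMap p) := by
  refine LinearMap.ext fun z => ?_
  rw [LinearEquiv.conj_apply]
  rfl

end

theorem tDt : S_Dt := by
  intro F _ V _ _ _ p
  rw [dK_conj]
  constructor
  · rw [LinearMap.trace_conj', LinearMap.trace_prodMap', two_mul]
  · rw [sq, ← LinearMap.det_prodMap, LinearEquiv.conj_apply, LinearMap.comp_assoc]
    exact LinearMap.det_conj _ (eqv F V).symm

end Pool.Agent.Lib.MP_640417_ag.Kf
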