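import Pool.Agent.Lib.MP_640417_ag.Kf.Spec

/-!
# MP_640417_ag, Kf, module `Elb`: the relations of a Frobenius element
-/

set_option autoImplicit false

namespace Pool.Agent.Lib.MP_640417_ag.Kf

open Polynomial Matrix Module TensorProduct MeasureTheory Pool.Agent.Lib.MP_640417_ag
  Pool.Agent.Lib.MP_640417_ag.Frob Pool.Agent.Lib.MP_640417_ag.Glob
  Pool.Agent.Lib.MP_640417_ag.Ctl Pool.Agent.Lib.MP_640417_ag.Ty Pool.Agent.Lib.MP_640417_ag.Gen4
  Pool.Agent.Lib.MP_640417_ag.Dfr Pool.Agent.Lib.MP_640417_ag.Fr Pool.Agent.Lib.MP_640417_ag.Fg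
  Pool.Agent.Lib.MP_640417_ag.Orth

private theorem Elb_trace {K V : Type} [Field K] [CharZero K] [AddCommGroup V] [Module K V]
    [FiniteDimensional K V] {form : LinearMap.BilinForm K V} {C : Subalgebra K (Module.End K V)}
    (hnd : ∀ x, (∀ y, form x y = 0) → x = 0) {N : ℕ} {st : Fin N → Fin N} {ε : Fin N → Module.End K V}
    (hS : Mt.CSys form C N st ε) {t : Fin N → ℤ}
    (ht : Four.Skew form (∑ i, (t i : K) • ε i)) :
    ∑ i, t i * ((finrank K (LinearMap.range (ε i)) : ℕ) : ℤ) = 0 := by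
  obtain ⟨z, hz⟩ : ∃ z, z = ∑ i, (t i : K) • ε i := ⟨_, rfl⟩
  have hzs : RelM.Adj form z (-z) := by
    intro x y
    have h := ht x y
    rw [← hz] at h
    rw [LinearMap.neg_apply, map_neg]
    exact eq_neg_of_add_eq_zero_left h
  have h1 := hzs.trace hnd
  rw [map_neg] at h1
  have h2 : LinearMap.trace K V z = 0 := by
    have h3 : (2 : K) * LinearMap.trace K V z = 0 := by linear_combination -h1
    exact (mul_eq_zero.mp h3).resolve_left two_ne_zero
  rw [hz, map_sum] at h2
  have h3 : ((∑ i, t i * ((finrank K (LinearMap.range (ε i)) : ℕ) : ℤ) : ℤ) : K) = 0 := by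
    rw [← h2]
    push_cast
    refine Finset.sum_congr rfl fun i _ => ?_
    rw [map_smul, RelM.trace_idem (hS.idem i), smul_eq_mul]
  exact_mod_cast h3

/-- the determinant of `q • (G * G)` on the components -/
private theorem Elb_det {K V : Type} [Field K] [AddCommGroup V] [Module K V]
    [FiniteDimensional K V] {N : ℕ} {ε : Fin N → Module.End K V} (hid : ∀ i, ε i * ε i = ε i)
    {G : Module.End K V} (hG : ∀ i, ε i * G = G * ε i) {q : K} (hq : q ≠ 0) {t : Fin N → ℤ}
    (ht : ∑ i, t i * ((finrank K (LinearMap.range (ε i)) : ℕ) : ℤ) = 0) :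
    detProd ε t (q • (G * G)) = detProd ε t G ^ 2 := by
  have h1 : ∀ i, LinearMap.det (ε i * (q • (G * G)) + (1 - ε i)) =
      q ^ finrank K (LinearMap.range (ε i)) * LinearMap.det (ε i * G + (1 - ε i)) ^ 2 := by
    intro i
    have e1 : q • (G * G) = (q • (1 : Module.End K V)) * (G * G) := by
      rw [smul_mul_assoc, one_mul]
    have e2 : ε i * (q • (1 : Module.End K V)) = (q • (1 : Module.End K V)) * ε i := by
      rw [smul_mul_assoc, one_mul, mul_smul_comm, mul_one]
    rw [e1, RelM.det_mul' (hid i) e2, RelM.det_smul' (hid i), RelM.det_mul' (hid i) (hG i), sq]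
  rw [detProd, detProd, ← Finset.prod_pow]
  calc ∏ i, LinearMap.det (ε i * (q • (G * G)) + (1 - ε i)) ^ t i
      = ∏ i, (q ^ (t i * ((finrank K (LinearMap.range (ε i)) : ℕ) : ℤ)) *
          (LinearMap.det (ε i * G + (1 - ε i)) ^ t i) ^ 2) := by
        refine Finset.prod_congr rfl fun i _ => ?_
        rw [h1, mul_zpow]
        congr 1
        · rw [mul_comm, _root_.zpow_mul, zpow_natCast]
        · rw [← zpow_natCast, ← zpow_natCast, ← _root_.zpow_mul, ← _root_.zpow_mul, mul_comm]
    _ = (∏ i, q ^ (t i * ((finrank K (LinearMap.range (ε i)) : ℕ) : ℤ))) *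
          ∏ i, (LinearMap.det (ε i * G + (1 - ε i)) ^ t i) ^ 2 := Finset.prod_mul_distrib
    _ = ∏ i, (LinearMap.det (ε i * G + (1 - ε i)) ^ t i) ^ 2 := by
        have e3 : ∀ s : Finset (Fin N),
            ∏ i ∈ s, q ^ (t i * ((finrank K (LinearMap.range (ε i)) : ℕ) : ℤ)) =
            q ^ (∑ i ∈ s, t i * ((finrank K (LinearMap.range (ε i)) : ℕ) : ℤ)) := by
          intro s
          classical
          induction s using Finset.induction_on with
          | empty => simp
          | insert a s ha ih => rw [Finset.prod_insert ha, Finset.sum_insert ha, zpow_add₀ hq, ih]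
        rw [e3, ht, zpow_zero, one_mul]

theorem tElb (h1 : S_Wp) : S_Elb := by
  intro F V _ _ _ _ _ _ Γ _ _ ρ hfull N st ε hS c b
  classical
  refine ⟨2 * Wn.ord (finrank F V ^ finrank F V),
    Nat.mul_pos two_pos (pow_pos (Nat.factorial_pos _) _), ?_⟩
  rintro γ ⟨p, P, hp, hchar, hnorm⟩
  have hPm : P.Monic := by
    apply Polynomial.monic_of_injective (f := Int.castRingHom F) Int.cast_injective
    rw [← hchar]
    exact LinearMap.charpoly_monic _
  have hPd : P.natDegree = finrank F V := by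
    rw [← Polynomial.natDegree_map_eq_of_injective (f := Int.castRingHom F) Int.cast_injective,
      ← hchar, LinearMap.charpoly_natDegree]
  obtain ⟨G, hG⟩ : ∃ G, G = (ρ.T γ).baseChange (AlgebraicClosure F) := ⟨_, rfl⟩
  obtain ⟨A, hA⟩ : ∃ A, A = ((p : F) ^ c • (ρ.T γ * ρ.T γ)).baseChange (AlgebraicClosure F) :=
    ⟨_, rfl⟩
  rw [← hG]
  have hAG : A = ((p : AlgebraicClosure F) ^ c) • (G * G) := by
    rw [hA, hG, LinearMap.baseChange_smul, LinearMap.baseChange_mul,
      ← algebraMap_smul (AlgebraicClosure F) ((p : F) ^ c), map_pow, map_natCast]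
  have hcG : ∀ i, ε i * G = G * ε i := by
    intro i
    rw [hG]
    exact comK_full ρ hfull (hS.mem i) γ
  have hcomm : ∀ i, ε i * A = A * ε i := by
    intro i
    rw [hAG, mul_smul_comm, smul_mul_assoc, ← mul_assoc, hcG i, mul_assoc, hcG i, mul_assoc]
  choose R hRc hRe hRd using fun i => Wn.exists_roots (hS.idem i) (hcomm i)
  have hRP : ∀ i, ∀ z ∈ R i, Polynomial.aeval z P = 0 := by
    intro i z hz
    have h2 := hRe i z hz
    rw [hA] at h2
    exact Wn.elt_roots _ hchar h2
  choose D hDR hDW using fun i =>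
    h1 (AlgebraicClosure F) P hPm p hp b hnorm (R i) (hRP i)
  obtain ⟨hfin, hdeg⟩ := Wn.rootField_finite (AlgebraicClosure F) hPm
  have hNF : NumberField (Wn.rootField (AlgebraicClosure F) P) :=
    { to_charZero := inferInstance
      to_finiteDimensional := by convert hfin }
  have hdeg' : finrank ℚ (Wn.rootField (AlgebraicClosure F) P) ≤ finrank F V ^ finrank F V := by
    rw [hPd] at hdeg
    convert hdeg
  have hm : ∀ i, Multiset.card (R i) ≤ finrank F V := by
    intro i
    rw [hRc]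
    refine (Submodule.finrank_le _).trans ?_
    rw [Module.finrank_baseChange]
  have hDp : ∀ t : Fin N → ℤ, detProd ε t A =
      ((∏ i, D i ^ t i : Wn.rootField (AlgebraicClosure F) P) : AlgebraicClosure F) := by
    intro t
    rw [detProd]
    push_cast
    refine Finset.prod_congr rfl fun i _ => ?_
    rw [hRd, ← hDR]
    exact (map_zpow₀ (algebraMap (Wn.rootField (AlgebraicClosure F) P) (AlgebraicClosure F)) (D i)
      (t i)).symm
  refine ⟨Wn.valSet D (Mb (finrank F V) b), fun t ht => ?_⟩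
  have htr := Elb_trace
    (nondeg_baseChange (AlgebraicClosure F) ρ.form ρ.form_alt ρ.form_nondeg) hS ht
  have ht0 : ∑ i, t i * ((b * Multiset.card (R i) : ℕ) : ℤ) = 0 := by
    have e1 : ∑ i, t i * ((b * Multiset.card (R i) : ℕ) : ℤ) =
        (b : ℤ) * ∑ i, t i * ((finrank (AlgebraicClosure F) (LinearMap.range (ε i)) : ℕ) : ℤ) := by
      rw [Finset.mul_sum]
      refine Finset.sum_congr rfl fun i _ => ?_
      rw [hRc]
      push_cast
      ring
    rw [e1, htr, mul_zero]
  have hiff := Wn.root_iff (M := Mb (finrank F V) b) hp hDW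
    (fun i => Nat.mul_le_mul hdeg' (Nat.mul_le_mul le_rfl (hm i))) t ht0
  have hpK : ((p : AlgebraicClosure F) ^ c) ≠ 0 :=
    pow_ne_zero _ (Nat.cast_ne_zero.mpr hp.ne_zero)
  have hsq : detProd ε t A = detProd ε t G ^ 2 := by
    rw [hAG]
    exact Elb_det hS.idem hcG hpK htr
  constructor
  · intro n hn h2
    apply hiff.mp
    refine ⟨n, hn, ?_⟩
    have h3 : detProd ε t A ^ n = 1 := by
      rw [hsq, ← pow_mul, mul_comm, pow_mul, h2, one_pow]
    rw [hDp] at h3
    exact_mod_cast h3
  · intro h2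
    obtain ⟨n, hn, hn1⟩ := hiff.mpr h2
    have h3 := Wn.pow_ord hdeg' _ hn hn1
    rw [pow_mul, ← hsq, hDp]
    exact_mod_cast h3

end Pool.Agent.Lib.MP_640417_ag.Kf
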