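import Pool.Agent.Lib.MP_640417_ag.Kf.Spec

/-!
# MP_640417_ag, Kf, module Fd: elements which act like Frobenius elements on the double
-/

set_option autoImplicit false

namespace Pool.Agent.Lib.MP_640417_ag.Kf

open Polynomial Matrix Module TensorProduct MeasureTheory Pool.Agent.Lib.MP_640417_ag
  Pool.Agent.Lib.MP_640417_ag.Frob Pool.Agent.Lib.MP_640417_ag.Glob
  Pool.Agent.Lib.MP_640417_ag.Ctl Pool.Agent.Lib.MP_640417_ag.Ty Pool.Agent.Lib.MP_640417_ag.Gen4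
  Pool.Agent.Lib.MP_640417_ag.Dfr Pool.Agent.Lib.MP_640417_ag.Fr Pool.Agent.Lib.MP_640417_ag.Fg
  Pool.Agent.Lib.MP_640417_ag.Orth

theorem tFd : S_Fd := by
  intro Γ _ _ F _ _ _ V _ _ _ ρ c b γ h
  obtain ⟨p, P, hp, hP, hz⟩ := h
  refine ⟨p, P ^ 2, hp, ?_, fun z hzz => hz z ?_⟩
  · have h1 : (p : F) ^ c • ((dbl ρ).T γ * (dbl ρ).T γ) =
        LinearMap.prodMap ((p : F) ^ c • (ρ.T γ * ρ.T γ)) ((p : F) ^ c • (ρ.T γ * ρ.T γ)) := rfl
    rw [h1, LinearMap.charpoly_prodMap, hP, Polynomial.map_pow, sq]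
  · rw [map_pow] at hzz
    exact pow_eq_zero_iff (two_ne_zero) |>.1 hzz

end Pool.Agent.Lib.MP_640417_ag.Kf
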