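import Pool.Agent.Lib.MP_640417_ag.Kf.Spec

/-!
# MP_640417_ag, Kf, module Gf: good elements of the double
-/

set_option autoImplicit false

namespace Pool.Agent.Lib.MP_640417_ag.Kf

open Polynomial Matrix Module TensorProduct MeasureTheory Pool.Agent.Lib.MP_640417_ag
  Pool.Agent.Lib.MP_640417_ag.Frob Pool.Agent.Lib.MP_640417_ag.Glob
  Pool.Agent.Lib.MP_640417_ag.Ctl Pool.Agent.Lib.MP_640417_ag.Ty Pool.Agent.Lib.MP_640417_ag.Gen4
  Pool.Agent.Lib.MP_640417_ag.Dfr Pool.Agent.Lib.MP_640417_ag.Fr Pool.Agent.Lib.MP_640417_ag.Fg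
  Pool.Agent.Lib.MP_640417_ag.Orth

section abs

variable {K : Type} [Field K] {A B : Type} [AddCommGroup A] [Module K A] [AddCommGroup B]
  [Module K B]

/-- generalized eigenspaces and injective maps -/
private theorem Gf_mge (Φ : A →ₗ[K] B) (hi : Function.Injective Φ) (f : Module.End K A)
    (f' : Module.End K B) (h : ∀ x, Φ (f x) = f' (Φ x)) (z : K) (x : A) :
    x ∈ Module.End.maxGenEigenspace f z ↔ Φ x ∈ Module.End.maxGenEigenspace f' z := by
  have h1 : ∀ (k : ℕ) (x : A), Φ (((f - z • (1 : Module.End K A)) ^ k) x) =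
      ((f' - z • (1 : Module.End K B)) ^ k) (Φ x) := by
    intro k
    induction k with
    | zero =>
      intro x
      rw [pow_zero, pow_zero, Module.End.one_apply, Module.End.one_apply]
    | succ k ih =>
      intro x
      rw [pow_succ, pow_succ, Module.End.mul_apply, Module.End.mul_apply, ih]
      congr 1
      rw [LinearMap.sub_apply, LinearMap.sub_apply, map_sub, h, LinearMap.smul_apply,
        LinearMap.smul_apply, map_smul, Module.End.one_apply, Module.End.one_apply]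
  rw [Module.End.mem_maxGenEigenspace, Module.End.mem_maxGenEigenspace]
  refine exists_congr fun k => ?_
  rw [← h1, map_eq_zero_iff Φ hi]

/-- the part of `A` and the part of `B` -/
private theorem Gf_part (Φ : A →ₗ[K] B) (hi : Function.Injective Φ) (f : Module.End K A)
    (f' : Module.End K B) (h : ∀ x, Φ (f x) = f' (Φ x)) (s : Set A) (s' : Set B)
    (hs : Φ '' s = s') (z : K) :
    Module.End.maxGenEigenspace f' z ⊓ Submodule.span K s' =
      (Module.End.maxGenEigenspace f z ⊓ Submodule.span K s).map Φ := by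
  have h2 : Submodule.span K s' = (Submodule.span K s).map Φ := by
    rw [Submodule.map_span, hs]
  rw [h2]
  ext y
  constructor
  · rintro ⟨hy, ⟨x, hx, rfl⟩⟩
    exact ⟨x, ⟨(Gf_mge Φ hi f f' h z x).2 hy, hx⟩, rfl⟩
  · rintro ⟨x, ⟨hx1, hx2⟩, rfl⟩
    exact ⟨(Gf_mge Φ hi f f' h z x).1 hx1, ⟨x, hx2, rfl⟩⟩

private theorem Gf_rank (Φ : A →ₗ[K] B) (hi : Function.Injective Φ) (W : Submodule K A) :
    finrank K (W.map Φ) = finrank K W :=
  (W.equivMapOfInjective Φ hi).finrank_eq.symm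

variable {V V' : Type} [AddCommGroup V] [Module K V] [AddCommGroup V'] [Module K V']

/-- the statement for endomorphisms -/
private theorem Gf_abs (d : Module.End K V → Module.End K V')
    (h1 : ∀ p q, d (p * q) = d p * d q) (h2 : ∀ p q, d (p + q) = d p + d q)
    (h3 : ∀ (c : K) p, d (c • p) = c • d p) (h4 : ∀ p, d p = 0 → p = 0)
    (f : Module.End K (Module.End K V)) (f' : Module.End K (Module.End K V'))
    (h : ∀ x, d (f x) = f' (d x)) (s : Set (Module.End K V)) (s' : Set (Module.End K V'))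
    (hs : d '' s = s') (z : K) :
    ((∀ X ∈ Module.End.maxGenEigenspace f' z ⊓ Submodule.span K s',
      ∀ Y ∈ Module.End.maxGenEigenspace f' z ⊓ Submodule.span K s', X * Y = Y * X) ↔
      ∀ X ∈ Module.End.maxGenEigenspace f z ⊓ Submodule.span K s,
      ∀ Y ∈ Module.End.maxGenEigenspace f z ⊓ Submodule.span K s, X * Y = Y * X) ∧
    finrank K (Module.End.maxGenEigenspace f' z ⊓ Submodule.span K s' :
      Submodule K (Module.End K V')) =
      finrank K (Module.End.maxGenEigenspace f z ⊓ Submodule.span K s :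
        Submodule K (Module.End K V)) := by
  obtain ⟨Φ, hΦ⟩ : ∃ Φ : Module.End K V →ₗ[K] Module.End K V', ∀ x, Φ x = d x :=
    ⟨{ toFun := d, map_add' := h2, map_smul' := h3 }, fun _ => rfl⟩
  have hd : (d : Module.End K V → Module.End K V') = Φ := funext fun x => (hΦ x).symm
  have hi : Function.Injective Φ :=
    (injective_iff_map_eq_zero Φ).2 fun x hx => h4 x (by rw [← hΦ, hx])
  have hP := Gf_part Φ hi f f' (fun x => by rw [hΦ, hΦ, h]) s s' (by rw [← hd, hs]) z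
  rw [hP]
  refine ⟨⟨fun g X hX Y hY => hi ?_, ?_⟩, Gf_rank Φ hi _⟩
  · rw [hΦ, hΦ, h1, h1, ← hΦ, ← hΦ]
    exact g _ ⟨X, hX, rfl⟩ _ ⟨Y, hY, rfl⟩
  · rintro g _ ⟨X, hX, rfl⟩ _ ⟨Y, hY, rfl⟩
    rw [hΦ, hΦ, ← h1, ← h1, g X hX Y hY]

end abs

section rep

variable (h1 : S_Dk) {Γ : Type} [Group Γ] [TopologicalSpace Γ] {F : Type} [Field F]
  [TopologicalSpace F] [ContinuousAdd F] {V : Type} [AddCommGroup V] [Module F V]
  (ρ : FormRep Γ F V) (g : Set (Module.End F V)) (γ : Γ)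

include h1

omit [TopologicalSpace F] [ContinuousAdd F] in
/-- the span of `g` and the span of `dg g` -/
private theorem Gf_span :
    (dK : Module.End (AlgebraicClosure F) (AlgebraicClosure F ⊗[F] V) →
      Module.End (AlgebraicClosure F) (AlgebraicClosure F ⊗[F] (V × V))) ''
      ((fun X => X.baseChange (AlgebraicClosure F)) '' g) =
      ((fun X => X.baseChange (AlgebraicClosure F)) '' (dg g)) := by
  ext Y
  constructor
  · rintro ⟨_, ⟨X, hX, rfl⟩, rfl⟩
    exact ⟨X.prodMap X, ⟨X, hX, rfl⟩, ((h1 F V).2.2.2.2.2 X).symm⟩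
  · rintro ⟨_, ⟨X, hX, rfl⟩, rfl⟩
    exact ⟨_, ⟨X, hX, rfl⟩, (h1 F V).2.2.2.2.2 X⟩

private theorem Gf_conj (X : Module.End (AlgebraicClosure F) (AlgebraicClosure F ⊗[F] V)) :
    dK (conjK ρ γ X) = Mt.conjK (dbl ρ) γ (dK X) := by
  have h2 : conjK ρ γ X = (ρ.T γ).baseChange (AlgebraicClosure F) *
      (X * (ρ.T γ⁻¹).baseChange (AlgebraicClosure F)) := rfl
  have h3 : Mt.conjK (dbl ρ) γ (dK X) =
      ((dbl ρ).T γ).baseChange (AlgebraicClosure F) *
      (dK X * ((dbl ρ).T γ⁻¹).baseChange (AlgebraicClosure F)) := rfl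
  rw [h2, h3, (h1 F V).1, (h1 F V).1, (h1 F V).2.2.2.2.2, (h1 F V).2.2.2.2.2,
    dbl_T, dbl_T]

private theorem Gf_part2 (z : AlgebraicClosure F) :
    ((∀ X ∈ Mt.Part (dbl ρ) (dg g) γ z, ∀ Y ∈ Mt.Part (dbl ρ) (dg g) γ z, X * Y = Y * X) ↔
      ∀ X ∈ Part ρ g γ z, ∀ Y ∈ Part ρ g γ z, X * Y = Y * X) ∧
    finrank (AlgebraicClosure F) (Mt.Part (dbl ρ) (dg g) γ z) =
      finrank (AlgebraicClosure F) (Part ρ g γ z) :=
  Gf_abs dK (h1 F V).1 (h1 F V).2.1 (h1 F V).2.2.1 (h1 F V).2.2.2.2.1 (conjK ρ γ)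
    (Mt.conjK (dbl ρ) γ) (Gf_conj h1 ρ γ) _ _ (Gf_span h1 g) z

end rep

theorem tGf (h1 : S_Dk) : S_Gf := by
  intro Γ _ _ F _ _ _ V _ _ ρ g γ
  refine forall_congr' fun N => forall_congr' fun _ => and_congr (Gf_part2 h1 ρ g (γ ^ N) 1).1
    (forall_congr' fun z => forall_congr' fun _ => ?_)
  rw [(Gf_part2 h1 ρ g (γ ^ N) z).2]

end Pool.Agent.Lib.MP_640417_ag.Kf
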