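import Pool.Agent.Lib.MP_640417_ag.Kf.Spec

/-!
# MP_640417_ag, Kf, module Kp: the canonical Tate form in four variables

The trace form is nondegenerate on the space `Hp R l` (in coordinates of the double), the projection
onto it gives an operator on `End V` which commutes with the group: a Tate form in four variables.
-/

set_option autoImplicit false

namespace Pool.Agent.Lib.MP_640417_ag.Kf

open Polynomial Matrix Module TensorProduct MeasureTheory Pool.Agent.Lib.MP_640417_ag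
  Pool.Agent.Lib.MP_640417_ag.Frob Pool.Agent.Lib.MP_640417_ag.Glob
  Pool.Agent.Lib.MP_640417_ag.Ctl Pool.Agent.Lib.MP_640417_ag.Ty Pool.Agent.Lib.MP_640417_ag.Gen4
  Pool.Agent.Lib.MP_640417_ag.Dfr Pool.Agent.Lib.MP_640417_ag.Fr Pool.Agent.Lib.MP_640417_ag.Fg
  Pool.Agent.Lib.MP_640417_ag.Orth

section form

variable {Γ : Type} [Group Γ] [TopologicalSpace Γ] {F : Type} [Field F]
  [TopologicalSpace F] {V : Type} [AddCommGroup V] [Module F V] [FiniteDimensional F V]
  (ρ : FormRep Γ F V)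

omit [FiniteDimensional F V] in
private theorem tinv (γ : Γ) (x : V) : ρ.T γ⁻¹ (ρ.T γ x) = x := by
  rw [← Module.End.mul_apply, ← map_mul, inv_mul_cancel, map_one, Module.End.one_apply]

omit [FiniteDimensional F V] in
private theorem tinv' (γ : Γ) (x : V) : ρ.T γ (ρ.T γ⁻¹ x) = x := by
  rw [← Module.End.mul_apply, ← map_mul, mul_inv_cancel, map_one, Module.End.one_apply]

/-- the endomorphism of rank one -/
private noncomputable def rk (a b : V) : Module.End F V := (ρ.form b).smulRight a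

omit [FiniteDimensional F V] in
private theorem rk_apply (a b x : V) : rk ρ a b x = ρ.form b x • a := rfl

omit [FiniteDimensional F V] in
private theorem rk_addl (a a' b : V) : rk ρ (a + a') b = rk ρ a b + rk ρ a' b := by
  ext x
  rw [LinearMap.add_apply, rk_apply, rk_apply, rk_apply, smul_add]

omit [FiniteDimensional F V] in
private theorem rk_addr (a b b' : V) : rk ρ a (b + b') = rk ρ a b + rk ρ a b' := by
  ext x
  rw [LinearMap.add_apply, rk_apply, rk_apply, rk_apply, map_add, LinearMap.add_apply, add_smul]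

omit [FiniteDimensional F V] in
private theorem rk_smull (c : F) (a b : V) : rk ρ (c • a) b = c • rk ρ a b := by
  ext x
  rw [LinearMap.smul_apply, rk_apply, rk_apply, smul_comm]

omit [FiniteDimensional F V] in
private theorem rk_smulr (c : F) (a b : V) : rk ρ a (c • b) = c • rk ρ a b := by
  ext x
  rw [LinearMap.smul_apply, rk_apply, rk_apply, map_smul, LinearMap.smul_apply, smul_assoc]

private theorem ne4 : (1 : Fin 4) ≠ 0 ∧ (2 : Fin 4) ≠ 0 ∧ (3 : Fin 4) ≠ 0 ∧ (2 : Fin 4) ≠ 1 ∧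
    (3 : Fin 4) ≠ 1 ∧ (3 : Fin 4) ≠ 2 := by decide

private theorem upd {α : Type} [DecidableEq (Fin 4)] (v : Fin 4 → α) (x : α) :
    (Function.update v 0 x 0 = x ∧ Function.update v 0 x 1 = v 1 ∧
      Function.update v 0 x 2 = v 2 ∧ Function.update v 0 x 3 = v 3) ∧
    (Function.update v 1 x 0 = v 0 ∧ Function.update v 1 x 1 = x ∧
      Function.update v 1 x 2 = v 2 ∧ Function.update v 1 x 3 = v 3) ∧
    (Function.update v 2 x 0 = v 0 ∧ Function.update v 2 x 1 = v 1 ∧
      Function.update v 2 x 2 = x ∧ Function.update v 2 x 3 = v 3) ∧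
    Function.update v 3 x 0 = v 0 ∧ Function.update v 3 x 1 = v 1 ∧
      Function.update v 3 x 2 = v 2 ∧ Function.update v 3 x 3 = x := by
  obtain ⟨n10, n20, n30, n21, n31, n32⟩ := ne4
  exact ⟨⟨Function.update_self _ _ _, Function.update_of_ne n10 _ _,
      Function.update_of_ne n20 _ _, Function.update_of_ne n30 _ _⟩,
    ⟨Function.update_of_ne n10.symm _ _, Function.update_self _ _ _,
      Function.update_of_ne n21 _ _, Function.update_of_ne n31 _ _⟩,
    ⟨Function.update_of_ne n20.symm _ _, Function.update_of_ne n21.symm _ _,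
      Function.update_self _ _ _, Function.update_of_ne n32 _ _⟩,
    Function.update_of_ne n30.symm _ _, Function.update_of_ne n31.symm _ _,
      Function.update_of_ne n32.symm _ _, Function.update_self _ _ _⟩

private theorem fin4 (i : Fin 4) : i = 0 ∨ i = 1 ∨ i = 2 ∨ i = 3 := by
  revert i
  decide

/-- the form in four variables -/
private noncomputable def fq (Q : Module.End F V →ₗ[F] Module.End F V) :
    MultilinearMap F (fun _ : Fin 4 => V) F where
  toFun v := ρ.form (Q (rk ρ (v 0) (v 1)) (v 2)) (v 3)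
  map_update_add' {_} v i x y := by
    rcases fin4 i with rfl | rfl | rfl | rfl
    · simp only [(upd v _).1.1, (upd v _).1.2.1, (upd v _).1.2.2.1, (upd v _).1.2.2.2, rk_addl,
        map_add, LinearMap.add_apply]
    · simp only [(upd v _).2.1.1, (upd v _).2.1.2.1, (upd v _).2.1.2.2.1, (upd v _).2.1.2.2.2,
        rk_addr, map_add, LinearMap.add_apply]
    · simp only [(upd v _).2.2.1.1, (upd v _).2.2.1.2.1, (upd v _).2.2.1.2.2.1,
        (upd v _).2.2.1.2.2.2, map_add, LinearMap.add_apply]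
    · simp only [(upd v _).2.2.2.1, (upd v _).2.2.2.2.1, (upd v _).2.2.2.2.2.1,
        (upd v _).2.2.2.2.2.2, map_add]
  map_update_smul' {_} v i c x := by
    rcases fin4 i with rfl | rfl | rfl | rfl
    · simp only [(upd v _).1.1, (upd v _).1.2.1, (upd v _).1.2.2.1, (upd v _).1.2.2.2, rk_smull,
        map_smul, LinearMap.smul_apply]
    · simp only [(upd v _).2.1.1, (upd v _).2.1.2.1, (upd v _).2.1.2.2.1, (upd v _).2.1.2.2.2,
        rk_smulr, map_smul, LinearMap.smul_apply]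
    · simp only [(upd v _).2.2.1.1, (upd v _).2.2.1.2.1, (upd v _).2.2.1.2.2.1,
        (upd v _).2.2.1.2.2.2, map_smul, LinearMap.smul_apply]
    · simp only [(upd v _).2.2.2.1, (upd v _).2.2.2.2.1, (upd v _).2.2.2.2.2.1,
        (upd v _).2.2.2.2.2.2, map_smul]

omit [FiniteDimensional F V] in
private theorem fq_apply (Q : Module.End F V →ₗ[F] Module.End F V) (v : Fin 4 → V) :
    fq ρ Q v = ρ.form (Q (rk ρ (v 0) (v 1)) (v 2)) (v 3) := rfl

omit [FiniteDimensional F V] in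
private theorem fq_tate (Q : Module.End F V →ₗ[F] Module.End F V)
    (hQ : ∃ U : OpenSubgroup Γ, ∀ γ ∈ U, ∀ Y,
      Q (ρ.T γ * Y * ρ.T γ⁻¹) = ρ.T γ * Q Y * ρ.T γ⁻¹) : TateF ρ 2 (fq ρ Q) := by
  obtain ⟨U, hU⟩ := hQ
  refine ⟨U, fun γ hγ v => ?_⟩
  have h1 : ∀ a b, rk ρ (ρ.T γ a) (ρ.T γ b) =
      ((ρ.χ γ)⁻¹ : Fˣ).val • (ρ.T γ * rk ρ a b * ρ.T γ⁻¹) := by
    intro a b
    ext x
    rw [LinearMap.smul_apply, Module.End.mul_apply, Module.End.mul_apply, rk_apply, rk_apply,
      map_smul, smul_smul, ← ρ.form_equivariant, tinv']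
  have h2 : fq ρ Q (fun j => ρ.T γ (v j)) = ((ρ.χ γ)⁻¹ : Fˣ).val * ((ρ.χ γ)⁻¹ : Fˣ).val *
      fq ρ Q v := by
    rw [fq_apply, fq_apply]
    show ρ.form (Q (rk ρ (ρ.T γ (v (0 : Fin 4))) (ρ.T γ (v (1 : Fin 4))))
      (ρ.T γ (v (2 : Fin 4)))) (ρ.T γ (v (3 : Fin 4))) = _
    rw [h1, map_smul, hU γ hγ, LinearMap.smul_apply, Module.End.mul_apply, Module.End.mul_apply,
      tinv, map_smul, LinearMap.smul_apply, ρ.form_equivariant, smul_eq_mul, mul_assoc]
  have h3 : ((ρ.χ γ : Fˣ) : F) * ((ρ.χ γ)⁻¹ : Fˣ).val = 1 := Units.mul_inv _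
  rw [h2]
  generalize ((ρ.χ γ)⁻¹ : Fˣ).val = s at h3
  generalize ((ρ.χ γ : Fˣ) : F) = t at h3
  generalize fq ρ Q v = w
  linear_combination (t * s + 1) * w * h3

omit [FiniteDimensional F V] in
private theorem fq_DF (Q : Module.End F V →ₗ[F] Module.End F V) {X : Module.End F V}
    (hX : Fr.Skew ρ X) (v : Fin 4 → V) : DF X (fq ρ Q) v =
      ρ.form ((Q (X * rk ρ (v 0) (v 1) - rk ρ (v 0) (v 1) * X) -
        (X * Q (rk ρ (v 0) (v 1)) - Q (rk ρ (v 0) (v 1)) * X)) (v 2)) (v 3) := by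
  have e1 : ∀ a b, rk ρ (X a) b = X * rk ρ a b := by
    intro a b
    ext x
    rw [Module.End.mul_apply, rk_apply, rk_apply, map_smul]
  have e2 : ∀ a b, rk ρ a (X b) = -(rk ρ a b * X) := by
    intro a b
    ext x
    rw [LinearMap.neg_apply, Module.End.mul_apply, rk_apply, rk_apply,
      eq_neg_of_add_eq_zero_left (hX b x), neg_smul]
  have e3 : ∀ a b, ρ.form a (X b) = -ρ.form (X a) b := fun a b =>
    eq_neg_of_add_eq_zero_right (hX a b)
  unfold DF
  rw [Fin.sum_univ_four]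
  simp only [fq_apply]
  have u1 := fun x => (upd v x).1
  have u2 := fun x => (upd v x).2.1
  have u3 := fun x => (upd v x).2.2.1
  have u4 := fun x => (upd v x).2.2.2
  rw [(u1 _).1, (u1 _).2.1, (u1 _).2.2.1, (u1 _).2.2.2, (u2 _).1, (u2 _).2.1, (u2 _).2.2.1,
    (u2 _).2.2.2, (u3 _).1, (u3 _).2.1, (u3 _).2.2.1, (u3 _).2.2.2, (u4 _).1, (u4 _).2.1,
    (u4 _).2.2.1, (u4 _).2.2.2, e1, e2, e3]
  simp only [map_sub, map_neg, LinearMap.sub_apply, LinearMap.neg_apply, Module.End.mul_apply]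
  ring

/-- a skew map which kills the form commutes with the operator -/
private theorem Kp_comm (Q : Module.End F V →ₗ[F] Module.End F V) {X : Module.End F V}
    (hXs : Fr.Skew ρ X) (h1 : ∀ v : Fin 4 → V, DF X (fq ρ Q) v = 0) (Y : Module.End F V) :
    X * Q Y - Q Y * X = Q (X * Y - Y * X) := by
  have key : ∀ a b, X * Q (rk ρ a b) - Q (rk ρ a b) * X =
      Q (X * rk ρ a b - rk ρ a b * X) := by
    intro a b
    refine (sub_eq_zero.1 ?_).symm
    ext c
    refine ρ.form_nondeg _ fun d => ?_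
    have h2 := h1 ![a, b, c, d]
    rw [fq_DF ρ Q hXs] at h2
    exact h2
  have hsurj : Function.Surjective ρ.form := by
    refine (LinearMap.injective_iff_surjective_of_finrank_eq_finrank
      (Subspace.dual_finrank_eq (K := F) (V := V)).symm).1 ?_
    rw [← LinearMap.ker_eq_bot, LinearMap.ker_eq_bot']
    intro x hx
    exact ρ.form_nondeg x fun y => by rw [hx, LinearMap.zero_apply]
  let e := Module.finBasis F V
  choose b hb using fun j => hsurj (e.coord j)
  have hY : Y = ∑ j, rk ρ (Y (e j)) (b j) := by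
    ext x
    rw [LinearMap.sum_apply]
    conv_lhs => rw [← e.sum_repr x, map_sum]
    refine Finset.sum_congr rfl fun j _ => ?_
    rw [rk_apply, hb, map_smul, Module.Basis.coord_apply]
  rw [hY]
  simp only [map_sum, Finset.mul_sum, Finset.sum_mul, ← Finset.sum_sub_distrib]
  exact Finset.sum_congr rfl fun j _ => key _ _

end form

section sgl

variable {F : Type} [Field F] {V : Type} [AddCommGroup V] [Module F V]

/-- the endomorphism `Y` on the first summand -/
private def Kp_sgl (F V : Type) [Field F] [AddCommGroup V] [Module F V] :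
    Module.End F V →ₗ[F] Module.End F (V × V) where
  toFun Y := Fr.inj F V false ∘ₗ Y ∘ₗ Fr.pr F V false
  map_add' Y Z := by
    refine LinearMap.ext fun x => ?_
    show Fr.inj F V false (Y _ + Z _) = _
    rw [map_add]
    rfl
  map_smul' c Y := by
    refine LinearMap.ext fun x => ?_
    show Fr.inj F V false (c • Y _) = _
    rw [map_smul]
    rfl

private theorem Kp_sgl_apply (Y : Module.End F V) :
    Kp_sgl F V Y = Fr.inj F V false ∘ₗ Y ∘ₗ Fr.pr F V false := rfl

private theorem Kp_sgl_mulr (Y A : Module.End F V) :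
    Kp_sgl F V (Y * A) = Kp_sgl F V Y * A.prodMap A := rfl

private theorem Kp_sgl_mull (A Y : Module.End F V) :
    Kp_sgl F V (A * Y) = A.prodMap A * Kp_sgl F V Y := by
  refine LinearMap.ext fun x => Prod.ext ?_ ?_
  · rfl
  · show (0 : V) = A 0
    rw [map_zero]

private theorem Kp_sgl_trace [FiniteDimensional F V] (Y : Module.End F V) :
    LinearMap.trace F (V × V) (Kp_sgl F V Y) = LinearMap.trace F V Y := by
  have h := LinearMap.trace_comp_comm' (R := F) (Fr.inj F V false) (Y ∘ₗ Fr.pr F V false)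
  rw [Kp_sgl_apply, ← h]
  rfl

variable {I : Type} [Fintype I] [DecidableEq I]

/-- the matrix of `Y` on the first summand -/
private noncomputable def Kp_T (e : Basis I F (V × V)) : Module.End F V →ₗ[F] Matrix I I F :=
  (LinearMap.toMatrix e e).toLinearMap ∘ₗ Kp_sgl F V

private theorem Kp_T_apply (e : Basis I F (V × V)) (Y : Module.End F V) :
    Kp_T e Y = LinearMap.toMatrix e e (Kp_sgl F V Y) := rfl

private theorem Kp_T_mulr (e : Basis I F (V × V)) (Y A : Module.End F V) :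
    Kp_T e (Y * A) = Kp_T e Y * mtx e A := by
  rw [Kp_T_apply, Kp_T_apply, Kp_sgl_mulr, LinearMap.toMatrix_mul, mtx_apply]

private theorem Kp_T_mull (e : Basis I F (V × V)) (A Y : Module.End F V) :
    Kp_T e (A * Y) = mtx e A * Kp_T e Y := by
  rw [Kp_T_apply, Kp_T_apply, Kp_sgl_mull, LinearMap.toMatrix_mul, mtx_apply]

private theorem Kp_T_trace [FiniteDimensional F V] (e : Basis I F (V × V)) (Y S : Module.End F V) :
    (Kp_T e Y * mtx e S).trace = LinearMap.trace F V (Y * S) := by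
  rw [← Kp_T_mulr, Kp_T_apply, ← LinearMap.trace_eq_matrix_trace, Kp_sgl_trace]

private theorem Kp_mtx_trace [FiniteDimensional F V] (e : Basis I F (V × V))
    (Y S : Module.End F V) :
    (mtx e Y * mtx e S).trace = 2 * LinearMap.trace F V (Y * S) := by
  rw [← mtx_mul, mtx_apply, ← LinearMap.trace_eq_matrix_trace, LinearMap.trace_prodMap', two_mul]

end sgl

theorem tKp (l : ℕ) [Fact l.Prime] : S_Kp l := by
  intro Γ _ _ _ _ V _ _ _ ρ I _ _ e R h1 h3 hsemi
  have hl : ‖(l : ℚ_[l])‖ < 1 := norm_l l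
  have hl0 : (l : ℚ_[l]) ≠ 0 := l_ne l
  obtain ⟨p, p1, p2, p3, p4⟩ := Glob.exists_proj (Hp R l) (fun X hX h0 =>
    Hp_nondeg R l hl hl0 hsemi X hX h0)
  have hZH : ∀ z ∈ Zm R, z ∈ Hp R l := fun z hz => Submodule.mem_sup_right hz
  have hlie : ∀ A ∈ Hp R l, ∀ B ∈ Hp R l, A * B - B * A ∈ Hp R l := fun A hA B hB =>
    Hp_lie R l hl hl0 hA hB
  have htr : ∀ A B C : Matrix I I ℚ_[l],
      ((A * B - B * A) * C).trace = (B * (C * A - A * C)).trace := by
    intro A B C
    rw [Matrix.sub_mul, Matrix.mul_sub, Matrix.trace_sub, Matrix.trace_sub]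
    congr 1
    · rw [Matrix.mul_assoc, Matrix.trace_mul_comm, Matrix.mul_assoc]
    · rw [Matrix.mul_assoc]
  have hpz : ∀ z ∈ Zm R, ∀ Y, z * p Y - p Y * z = p (z * Y - Y * z) := by
    intro z hz Y
    refine sub_eq_zero.1 (Hp_nondeg R l hl hl0 hsemi _
      ((Hp R l).sub_mem (hlie z (hZH z hz) _ (p1 Y)) (p1 _)) fun W hW => ?_)
    rw [Matrix.sub_mul, Matrix.trace_sub, p3 _ W hW, htr, htr,
      p3 _ _ (hlie W hW z (hZH z hz)), sub_self]
  -- elements of `Hp` are matrices of diagonal endomorphisms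
  have hmc : ∀ A ∈ Hp R l, mtx e (cm e A) = A := by
    intro A hA
    have hs : A ∈ spJ R.J := by
      obtain ⟨a, ha, z, hz, rfl⟩ := Submodule.mem_sup.1 hA
      exact (spJ R.J).add_mem ha.1 hz.2.2
    have hc : ∀ c, R.InC c → A * c = c * A := by
      intro c hc
      obtain ⟨a, ha, z, hz, rfl⟩ := Submodule.mem_sup.1 hA
      rw [Matrix.add_mul, Matrix.mul_add, Hh_comm_C R l hl hl0 ha hc, hz.2.1 c hc]
    obtain ⟨X, -, rfl⟩ := exists_lef l ρ e R h1 h3 hs hc
    rw [cm_mtx]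
  -- the operator
  let Q : Module.End ℚ_[l] V →ₗ[ℚ_[l]] Module.End ℚ_[l] V := cm e ∘ₗ p ∘ₗ Kp_T e
  have hQ : ∀ Y, Q Y = cm e (p (Kp_T e Y)) := fun Y => rfl
  have hQm : ∀ Y, mtx e (Q Y) = p (Kp_T e Y) := fun Y => hmc _ (p1 _)
  have hQc : ∀ A, cm e (mtx e A) = A := fun A => cm_mtx e A
  have hhalf : ∀ Y, mtx e Y ∈ Hp R l → Q Y = (1 / 2 : ℚ_[l]) • Y := by
    intro Y hY
    apply mtx_inj e
    rw [hQm, map_smul]
    refine sub_eq_zero.1 (Hp_nondeg R l hl hl0 hsemi _
      ((Hp R l).sub_mem (p1 _) ((Hp R l).smul_mem _ hY)) fun S hS => ?_)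
    rw [Matrix.sub_mul, Matrix.trace_sub, p3 _ S hS, Matrix.smul_mul, Matrix.trace_smul]
    rw [← hmc S hS, Kp_T_trace, Kp_mtx_trace, smul_eq_mul]
    ring
  have hM : ∀ γ, R.M γ = mtx e (ρ.T γ) := h1
  have hconj : ∀ γ Y, Q (ρ.T γ * Y * ρ.T γ⁻¹) = ρ.T γ * Q Y * ρ.T γ⁻¹ := by
    intro γ Y
    have h4 : p (R.M γ * Kp_T e Y * R.M γ⁻¹) = R.M γ * p (Kp_T e Y) * R.M γ⁻¹ := by
      refine p4 (R.M γ) (R.M γ⁻¹) (M_mul_inv R γ) (M_inv_mul R γ) ?_ ?_ _
      · intro X hX
        exact Hp_ad R l γ hX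
      · intro X hX
        have h := Hp_ad R l γ⁻¹ hX
        rwa [inv_inv] at h
    rw [hQ, Kp_T_mulr, Kp_T_mull, ← hM, ← hM, h4, ← hQm, hM, hM, ← mtx_mul, ← mtx_mul, hQc]
  have hcen : ∀ z, CenSkew ρ z → ∀ Y, z * Q Y - Q Y * z = Q (z * Y - Y * z) := by
    intro z hz Y
    have h4 : mtx e z ∈ Zm R :=
      (coord_zm (dbl ρ) e R h1 h3 _).2 ((central_dbl ρ _).2 ⟨z, hz, rfl⟩)
    have h5 := hpz _ h4 (Kp_T e Y)
    rw [hQ (z * Y - Y * z), map_sub, Kp_T_mull e z Y, Kp_T_mulr e Y z, ← h5, ← hQm, ← mtx_mul,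
      ← mtx_mul, ← map_sub, hQc]
  refine ⟨fq ρ Q, fq_tate ρ Q ⟨⊤, fun γ _ Y => hconj γ Y⟩, fun z hz v => ?_,
    fun X hX hX0 Y hY => ?_⟩
  · have h2 := fq_DF ρ Q hz.2.2 v
    rw [hcen z hz, sub_self, LinearMap.zero_apply, map_zero, LinearMap.zero_apply] at h2
    exact h2
  · have h4 := Kp_comm ρ Q hX hX0 Y
    rw [hhalf Y hY, mul_smul_comm, smul_mul_assoc, ← smul_sub] at h4
    have h5 : X * Y - Y * X = (2 : ℚ_[l]) • Q (X * Y - Y * X) := by
      rw [← h4, smul_smul]
      norm_num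
    rw [h5, map_smul, hQm]
    exact (Hp R l).smul_mem _ (p1 _)

end Pool.Agent.Lib.MP_640417_ag.Kf
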