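import Pool.Agent.Lib.MP_640417_ag.Kf.Spec

/-!
# MP_640417_ag, Kf, module `Lx`: bounded generators of the lattices of relations
-/

set_option autoImplicit false

namespace Pool.Agent.Lib.MP_640417_ag.Kf

open Matrix

/-- there is a nonzero minor of size `r` -/
private def Lx_P (N : ℕ) (A : Set (Fin N → ℤ)) (r : ℕ) : Prop :=
  ∃ (ι : Type) (_ : Fintype ι) (_ : DecidableEq ι) (a : ι → Fin N → ℤ) (c : ι → Fin N),
    Fintype.card ι = r ∧ (∀ i, a i ∈ A) ∧ (Matrix.of fun i k => a i (c k)).det ≠ 0

private theorem Lx_inj {N : ℕ} {ι : Type} [Fintype ι] [DecidableEq ι] (a : ι → Fin N → ℤ)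
    (c : ι → Fin N) (h : (Matrix.of fun i k => a i (c k)).det ≠ 0) : Function.Injective c := by
  intro k k' hk
  by_contra hne
  exact h (Matrix.det_zero_of_column_eq hne (fun i => by simp [hk]))

private theorem Lx_le {N : ℕ} {A : Set (Fin N → ℤ)} {r : ℕ} (h : Lx_P N A r) : r ≤ N := by
  obtain ⟨ι, hF, hD, a, c, hr, -, hdet⟩ := h
  rw [← hr]
  simpa using Fintype.card_le_of_injective c (Lx_inj a c hdet)

/-- the relation of a vector of `A` for a maximal minor -/
private theorem Lx_rel {N : ℕ} {A : Set (Fin N → ℤ)} {ι : Type} [Fintype ι] [DecidableEq ι]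
    (a : ι → Fin N → ℤ) (c : ι → Fin N) (ha : ∀ i, a i ∈ A)
    (hdet : (Matrix.of fun i k => a i (c k)).det ≠ 0)
    (hmax : ¬ Lx_P N A (Fintype.card ι + 1)) (a' : Fin N → ℤ) (ha' : a' ∈ A) (j : Fin N) :
    (Matrix.of fun i k => a i (c k)).det * a' j =
      ∑ k, a' (c k) * ((Matrix.of fun i k => a i (c k)).adjugate *ᵥ fun i => a i j) k := by
  classical
  set B : Matrix ι ι ℤ := Matrix.of fun i k => a i (c k) with hB
  -- the big matrix
  have h0 : (Matrix.of fun (i k : ι ⊕ Unit) =>
      (Sum.elim a (fun _ => a') i) ((Sum.elim c (fun _ => j)) k)).det = 0 := by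
    by_contra hne
    apply hmax
    refine ⟨ι ⊕ Unit, inferInstance, inferInstance, Sum.elim a (fun _ => a'),
      Sum.elim c (fun _ => j), by simp, ?_, hne⟩
    rintro (i | i)
    · exact ha i
    · exact ha'
  have h1 : (Matrix.of fun (i k : ι ⊕ Unit) =>
      (Sum.elim a (fun _ => a') i) ((Sum.elim c (fun _ => j)) k)) =
      Matrix.fromBlocks B (Matrix.of fun i (_ : Unit) => a i j)
        (Matrix.of fun (_ : Unit) k => a' (c k)) (Matrix.of fun (_ _ : Unit) => a' j) := by
    ext i k
    rcases i with i | i <;> rcases k with k | k <;> simp [hB]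
  -- over the rational numbers
  let f : ℤ →+* ℚ := Int.castRingHom ℚ
  have hinj : Function.Injective f := Int.cast_injective
  have hBQ : (B.map f).det ≠ 0 := by
    have : (B.map f).det = f B.det := (RingHom.map_det f B).symm
    rw [this]
    exact fun h => hdet (hinj (by rw [h, map_zero]))
  haveI : Invertible (B.map f) := Matrix.invertibleOfIsUnitDet _ (isUnit_iff_ne_zero.2 hBQ)
  have h2 : ((Matrix.fromBlocks B (Matrix.of fun i (_ : Unit) => a i j)
        (Matrix.of fun (_ : Unit) k => a' (c k)) (Matrix.of fun (_ _ : Unit) => a' j)).map f).det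
        = 0 := by
    rw [← h1, ← RingHom.mapMatrix_apply, ← RingHom.map_det, h0, map_zero]
  rw [Matrix.fromBlocks_map, Matrix.det_fromBlocks₁₁] at h2
  have h3 := (mul_eq_zero.1 h2).resolve_left hBQ
  rw [Matrix.det_unique] at h3
  simp only [Matrix.sub_apply, Matrix.map_apply, Matrix.of_apply] at h3
  -- the inverse is the adjugate divided by the determinant
  have h4 : (B.map f).det • (⅟ (B.map f)) = (B.map f).adjugate := by
    rw [Matrix.invOf_eq_nonsing_inv, Matrix.inv_def, Ring.inverse_eq_inv', smul_smul,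
      mul_inv_cancel₀ hBQ, one_smul]
  have h5 : (B.map f).adjugate = B.adjugate.map f := by
    have := RingHom.map_adjugate f B
    rw [RingHom.mapMatrix_apply, RingHom.mapMatrix_apply] at this
    exact this.symm
  have h6 : (B.map f).det * f (a' j) = ((Matrix.of fun (_ : Unit) k => a' (c k)).map f *
      ((B.map f).det • (⅟ (B.map f))) * (Matrix.of fun i (_ : Unit) => a i j).map f)
        default default := by
    rw [Matrix.mul_smul, Matrix.smul_mul, Matrix.smul_apply, smul_eq_mul, ← sub_eq_zero,
      ← mul_sub, h3, mul_zero]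
  rw [h4, h5] at h6
  apply hinj
  rw [map_mul, map_sum]
  have h7 : (B.map f).det = f B.det := (RingHom.map_det f B).symm
  rw [← h7, h6, Matrix.mul_assoc, Matrix.mul_apply]
  refine Finset.sum_congr rfl fun k _ => ?_
  rw [map_mul]
  congr 1
  rw [Matrix.mul_apply, Matrix.mulVec, dotProduct, map_sum]
  refine Finset.sum_congr rfl fun i _ => ?_
  simp

private theorem Lx_bd {N m : ℕ} (hm : 1 ≤ m) {ι : Type} [Fintype ι] [DecidableEq ι]
    (hc : Fintype.card ι ≤ N) (B : Matrix ι ι ℤ) (hB : ∀ i j, |B i j| ≤ (m : ℤ)) :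
    |B.det| ≤ ((N.factorial * m ^ N : ℕ) : ℤ) := by
  have h := Matrix.det_le (A := B) (abv := AbsoluteValue.abs) (x := (m : ℤ))
    (fun i j => by simpa using hB i j)
  rw [AbsoluteValue.abs_apply] at h
  refine h.trans ?_
  rw [nsmul_eq_mul]
  exact_mod_cast Nat.mul_le_mul (Nat.factorial_le hc) (Nat.pow_le_pow_right hm hc)

private theorem Lx_lemma {N m : ℕ} (hm : 1 ≤ m) (A : Set (Fin N → ℤ))
    (hA : ∀ a ∈ A, ∀ i, |a i| ≤ (m : ℤ)) (G : AddSubgroup (Fin N → ℤ)) (t : Fin N → ℤ)
    (ht : ∀ a ∈ A, ∑ i, a i * t i = 0) (hG : t ∉ G) :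
    ∃ t' : Fin N → ℤ, (∀ a ∈ A, ∑ i, a i * t' i = 0) ∧ t' ∉ G ∧
      ∀ i, |t' i| ≤ ((N * (N.factorial * m ^ N) : ℕ) : ℤ) := by
  classical
  have hP0 : Lx_P N A 0 := by
    refine ⟨Empty, inferInstance, inferInstance, fun i => i.elim, fun i => i.elim, by simp,
      fun i => i.elim, ?_⟩
    simp
  have hP := Nat.findGreatest_spec (P := Lx_P N A) (Nat.zero_le N) hP0
  set r := Nat.findGreatest (Lx_P N A) N with hr
  have hmaxr : ¬ Lx_P N A (r + 1) := by
    intro h
    exact Nat.findGreatest_is_greatest (P := Lx_P N A) (n := N) (k := r + 1)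
      (by rw [← hr]; omega) (Lx_le h) h
  have hrN : r ≤ N := Nat.findGreatest_le N
  obtain ⟨ι, hF, hDe, a, c, hcard, ha, hdet⟩ := hP
  have hmax : ¬ Lx_P N A (Fintype.card ι + 1) := by rw [hcard]; exact hmaxr
  have hcN : Fintype.card ι ≤ N := by rw [hcard]; exact hrN
  have hci := Lx_inj a c hdet
  set B : Matrix ι ι ℤ := Matrix.of fun i k => a i (c k) with hB
  set D := B.det with hD
  let g : Fin N → ι → ℤ := fun j k => (B.adjugate *ᵥ fun i => a i j) k
  let u : Fin N → Fin N → ℤ := fun j i =>
    (if i = j then D else 0) - ∑ k, if i = c k then g j k else 0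
  have hgdet : ∀ j k, g j k = (B.updateCol k fun i => a i j).det := by
    intro j k
    show (B.adjugate *ᵥ fun i => a i j) k = _
    rw [← Matrix.cramer_eq_adjugate_mulVec, Matrix.cramer_apply]
  have hBm : ∀ i k, |B i k| ≤ (m : ℤ) := fun i k => hA _ (ha i) _
  have hDb : |D| ≤ ((N.factorial * m ^ N : ℕ) : ℤ) := Lx_bd hm hcN B hBm
  have hgb : ∀ j k, |g j k| ≤ ((N.factorial * m ^ N : ℕ) : ℤ) := by
    intro j k
    rw [hgdet]
    apply Lx_bd hm hcN
    intro i k'
    by_cases hk : k' = k
    · subst hk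
      simpa using hA _ (ha i) j
    · rw [Matrix.updateCol_ne hk]
      exact hBm i k'
  have hgc : ∀ k, g (c k) k = D := by
    intro k
    rw [hgdet]
    have : (B.updateCol k fun i => a i (c k)) = B := by
      have := Matrix.updateCol_eq_self B k
      simpa [hB] using this
    rw [this]
  have hub : ∀ j i, |u j i| ≤ ((N.factorial * m ^ N : ℕ) : ℤ) := by
    intro j i
    show |(if i = j then D else 0) - ∑ k, if i = c k then g j k else 0| ≤ _
    by_cases hi : ∃ k, i = c k
    · obtain ⟨k, rfl⟩ := hi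
      have hs : (∑ k', if c k = c k' then g j k' else 0) = g j k := by
        rw [Finset.sum_eq_single k]
        · simp
        · intro b _ hb
          rw [if_neg (fun h => hb (hci h).symm)]
        · intro h; exact absurd (Finset.mem_univ k) h
      rw [hs]
      by_cases hj : c k = j
      · subst hj
        rw [if_pos rfl, hgc, sub_self, abs_zero]
        positivity
      · rw [if_neg hj, zero_sub, abs_neg]
        exact hgb j k
    · have hs : (∑ k', if i = c k' then g j k' else 0) = 0 :=
        Finset.sum_eq_zero fun k' _ => if_neg (fun h => hi ⟨k', h⟩)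
      rw [hs, sub_zero]
      split_ifs
      · exact hDb
      · rw [abs_zero]; positivity
  -- the sum against a vector
  have husum : ∀ (x : Fin N → ℤ) j, ∑ i, x i * u j i = D * x j - ∑ k, x (c k) * g j k := by
    intro x j
    show ∑ i, x i * ((if i = j then D else 0) - ∑ k, if i = c k then g j k else 0) = _
    simp only [mul_sub, Finset.sum_sub_distrib]
    congr 1
    · simp [mul_comm]
    · simp only [Finset.mul_sum]
      rw [Finset.sum_comm]
      refine Finset.sum_congr rfl fun k _ => ?_
      simp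
  have huL : ∀ j, ∀ a' ∈ A, ∑ i, a' i * u j i = 0 := by
    intro j a' ha'
    rw [husum, sub_eq_zero]
    exact Lx_rel a c ha hdet hmax a' ha' j
  have hDt : ∀ i, D * t i = ∑ j, t j * u j i := by
    intro i
    show _ = ∑ j, t j * ((if i = j then D else 0) - ∑ k, if i = c k then g j k else 0)
    simp only [mul_sub, Finset.sum_sub_distrib]
    have h1 : ∑ j, t j * (if i = j then D else 0) = D * t i := by simp [mul_comm]
    have h2 : ∑ j, t j * (∑ k, if i = c k then g j k else 0) = 0 := by
      simp only [Finset.mul_sum]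
      rw [Finset.sum_comm]
      refine Finset.sum_eq_zero fun k _ => ?_
      by_cases hk : i = c k
      · simp only [if_pos hk]
        show ∑ j, t j * (∑ l, B.adjugate k l * a l j) = 0
        simp only [Finset.mul_sum]
        rw [Finset.sum_comm]
        refine Finset.sum_eq_zero fun l _ => ?_
        have := ht (a l) (ha l)
        calc ∑ j, t j * (B.adjugate k l * a l j) = B.adjugate k l * ∑ j, a l j * t j := by
              rw [Finset.mul_sum]; exact Finset.sum_congr rfl fun j _ => by ring
          _ = 0 := by rw [this, mul_zero]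
      · simp [hk]
    rw [h1, h2, sub_zero]
  by_cases hall : ∀ j, u j ∈ G
  · -- divide with remainder
    let q : Fin N → ℤ := fun j => t j / D
    let w : Fin N → ℤ := t - ∑ j, q j • u j
    have hwi : ∀ i, w i = t i - ∑ j, q j * u j i := by
      intro i
      show (t - ∑ j, q j • u j) i = _
      simp [Finset.sum_apply]
    refine ⟨w, ?_, ?_, ?_⟩
    · intro a' ha'
      simp only [hwi, mul_sub, Finset.sum_sub_distrib]
      rw [ht a' ha', zero_sub, neg_eq_zero]
      simp only [Finset.mul_sum]
      rw [Finset.sum_comm]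
      refine Finset.sum_eq_zero fun j _ => ?_
      calc ∑ i, a' i * (q j * u j i) = q j * ∑ i, a' i * u j i := by
            rw [Finset.mul_sum]; exact Finset.sum_congr rfl fun i _ => by ring
        _ = 0 := by rw [huL j a' ha', mul_zero]
    · intro hw
      apply hG
      have hsum : ∑ j, q j • u j ∈ G := G.sum_mem fun j _ => G.zsmul_mem (hall j) _
      have : t = w + ∑ j, q j • u j := by
        show t = (t - ∑ j, q j • u j) + _
        abel
      rw [this]
      exact G.add_mem hw hsum
    · intro i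
      have hDw : D * w i = ∑ j, (t j % D) * u j i := by
        rw [hwi, mul_sub, hDt, Finset.mul_sum, ← Finset.sum_sub_distrib]
        refine Finset.sum_congr rfl fun j _ => ?_
        have : t j % D = t j - D * (t j / D) := by
          have := Int.emod_add_mul_ediv (t j) D
          linarith
        rw [this]
        show t j * u j i - D * (t j / D * u j i) = _
        ring
      have hb : |D * w i| ≤ |D| * ((N * (N.factorial * m ^ N) : ℕ) : ℤ) := by
        rw [hDw]
        calc |∑ j, (t j % D) * u j i| ≤ ∑ j, |(t j % D) * u j i| :=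
              Finset.abs_sum_le_sum_abs _ _
          _ ≤ ∑ _j : Fin N, |D| * ((N.factorial * m ^ N : ℕ) : ℤ) := by
              refine Finset.sum_le_sum fun j _ => ?_
              rw [abs_mul]
              refine mul_le_mul ?_ (hub j i) (abs_nonneg _) (abs_nonneg _)
              rw [abs_of_nonneg (Int.emod_nonneg _ hdet)]
              exact (Int.emod_lt_abs _ hdet).le
          _ = |D| * ((N * (N.factorial * m ^ N) : ℕ) : ℤ) := by
              rw [Finset.sum_const, Finset.card_univ, Fintype.card_fin, nsmul_eq_mul]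
              push_cast
              ring
      rw [abs_mul] at hb
      exact le_of_mul_le_mul_left hb (abs_pos.2 hdet)
  · obtain ⟨j, hj⟩ := not_forall.1 hall
    refine ⟨u j, huL j, hj, fun i => (hub j i).trans ?_⟩
    have hN : 1 ≤ N := by
      have := j.isLt
      omega
    exact_mod_cast Nat.le_mul_of_pos_left _ hN

theorem tLx : S_Lx := by
  classical
  intro N M st S G ⟨t, htG, hst, hS⟩
  let A : Set (Fin N → ℤ) := {x | (∃ v ∈ S, x = fun i => ((v i : ℕ) : ℤ)) ∨
    ∃ k, x = fun i => (if i = k then 1 else 0) + (if i = st k then 1 else 0)}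
  have hk : ∀ (x : Fin N → ℤ) k, ∑ i, ((if i = k then 1 else 0) + (if i = st k then 1 else 0)) *
      x i = x k + x (st k) := by
    intro x k
    simp [add_mul, Finset.sum_add_distrib]
  have hA : ∀ a ∈ A, ∀ i, |a i| ≤ ((M + 2 : ℕ) : ℤ) := by
    rintro a (⟨v, hv, rfl⟩ | ⟨k, rfl⟩) i
    · have := (v i).isLt
      show |((v i : ℕ) : ℤ)| ≤ _
      rw [Nat.abs_cast]
      exact_mod_cast (by omega : (v i : ℕ) ≤ M + 2)
    · show |(if i = k then (1 : ℤ) else 0) + (if i = st k then 1 else 0)| ≤ _
      split_ifs <;> push_cast <;> norm_num <;> omega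
  have hiff : ∀ x : Fin N → ℤ, (∀ a ∈ A, ∑ i, a i * x i = 0) ↔
      (∀ i, x (st i) = - x i) ∧ ∀ v ∈ S, ∑ i, x i * ((v i : ℕ) : ℤ) = 0 := by
    intro x
    constructor
    · intro h
      refine ⟨fun i => ?_, fun v hv => ?_⟩
      · have := h _ (Or.inr ⟨i, rfl⟩)
        rw [hk] at this
        linarith
      · have := h _ (Or.inl ⟨v, hv, rfl⟩)
        rw [← this]
        exact Finset.sum_congr rfl fun i _ => mul_comm _ _
    · rintro ⟨h1, h2⟩ a (⟨v, hv, rfl⟩ | ⟨k, rfl⟩)
      · rw [← h2 v hv]
        exact Finset.sum_congr rfl fun i _ => mul_comm _ _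
      · rw [hk, h1]
        ring
  obtain ⟨t', h1, h2, h3⟩ := Lx_lemma (by omega : 1 ≤ M + 2) A hA G t
    ((hiff t).2 ⟨hst, hS⟩) htG
  obtain ⟨h4, h5⟩ := (hiff t').1 h1
  refine ⟨t', h2, fun i => ?_, h4, h5⟩
  have := h3 i
  rw [Int.abs_eq_natAbs] at this
  exact_mod_cast this

end Pool.Agent.Lib.MP_640417_ag.Kf
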