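import Pool.Agent.Lib.MP_640417_ag.Kf.Spec

/-!
# MP_640417_ag, Kf, module Nrb: almost all Frobenius elements near the identity have only the
relations of `g`
-/

set_option autoImplicit false

namespace Pool.Agent.Lib.MP_640417_ag.Kf

open Polynomial Matrix Module TensorProduct MeasureTheory Pool.Agent.Lib.MP_640417_ag
  Pool.Agent.Lib.MP_640417_ag.Frob Pool.Agent.Lib.MP_640417_ag.Glob
  Pool.Agent.Lib.MP_640417_ag.Ctl Pool.Agent.Lib.MP_640417_ag.Ty Pool.Agent.Lib.MP_640417_ag.Gen4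
  Pool.Agent.Lib.MP_640417_ag.Dfr Pool.Agent.Lib.MP_640417_ag.Fr Pool.Agent.Lib.MP_640417_ag.Fg
  Pool.Agent.Lib.MP_640417_ag.Orth

/-- the analogue of `Mt.tBl` -/
private theorem Nrb_bl (h2 : S_Elb) (F V : Type) [NontriviallyNormedField F] [CharZero F]
    [AddCommGroup V] [Module F V] [FiniteDimensional F V] (Γ : Type) [Group Γ]
    [TopologicalSpace Γ] [IsTopologicalGroup Γ] [CompactSpace Γ] [MeasurableSpace Γ]
    [BorelSpace Γ] (ν : Measure Γ) [ν.IsHaarMeasure] (ρ : H1Rep Γ F V)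
    (hfull : ∀ c, CommF ρ c → ∀ γ, c * ρ.T γ = ρ.T γ * c) (N : ℕ) (st : Fin N → Fin N)
    (ε : Fin N → Module.End (AlgebraicClosure F) (AlgebraicClosure F ⊗[F] V))
    (hS : Mt.CSys (ρ.form.baseChange (AlgebraicClosure F)) (comK ρ) N st ε) (c b : ℕ)
    (g : Set (Module.End F V)) (hW : ¬ Mt.WeilFor ρ g) :
    ∃ O : Set Γ, IsOpen O ∧ ν Oᶜ = 0 ∧ ∀ γ ∈ O, FrobH ρ c b γ → Mt.DetFor ρ g γ := by
  classical
  have hchar : CharZero (AlgebraicClosure F) :=
    charZero_of_injective_algebraMap (algebraMap F (AlgebraicClosure F)).injective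
  obtain ⟨n0, hn0, hset⟩ := h2 F V Γ ρ hfull N st ε hS c b
  let good : (Fin N → ℤ) → Prop := fun t =>
    Four.Skew (ρ.form.baseChange (AlgebraicClosure F)) (∑ i, (t i : AlgebraicClosure F) • ε i) ∧
      ¬ Mt.TrRel g ε t
  have hgood : ∀ t, good t → good (fun i => (n0 : ℤ) * t i) := fun t ht =>
    ⟨Mt.Bl_skew_mul ht.1 n0, fun h => ht.2 (Mt.Bl_trRel_of_mul hn0 h)⟩
  let hasT : Set (Fin N → Fin (Mb (finrank F V) b + 1)) → Prop := fun S =>
    ∃ t : Fin N → ℤ, good t ∧ ∀ v ∈ S, ∑ i, t i * ((v i : ℕ) : ℤ) = 0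
  have hτ : ∀ S, ∃ t : Fin N → ℤ, hasT S → good t ∧
      ∀ v ∈ S, ∑ i, t i * ((v i : ℕ) : ℤ) = 0 := by
    intro S
    by_cases h : hasT S
    · obtain ⟨t, ht⟩ := h
      exact ⟨t, fun _ => ht⟩
    · exact ⟨0, fun h' => absurd h' h⟩
  choose τ hτ using hτ
  let D : Set (Fin N → Fin (Mb (finrank F V) b + 1)) → Set Γ := fun S => {γ | hasT S →
    detProd ε (fun i => (n0 : ℤ) * τ S i) ((ρ.T γ).baseChange (AlgebraicClosure F)) ≠ 1}
  have hD : ∀ S, IsOpen (D S) ∧ ν (D S)ᶜ = 0 := by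
    intro S
    by_cases h : hasT S
    · have hg := hgood _ (hτ S h).1
      obtain ⟨h4, h5⟩ := Mt.tNl F V Γ ν ρ hfull N st ε hS g hW _ hg.1 hg.2
      have h6 : D S = {γ | detProd ε (fun i => (n0 : ℤ) * τ S i)
          ((ρ.T γ).baseChange (AlgebraicClosure F)) ≠ 1} := by
        ext γ
        exact ⟨fun h4 => h4 h, fun h4 _ => h4⟩
      rw [h6]
      refine ⟨h4, ?_⟩
      have h7 : {γ | detProd ε (fun i => (n0 : ℤ) * τ S i)
          ((ρ.T γ).baseChange (AlgebraicClosure F)) ≠ 1}ᶜ =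
          {γ | detProd ε (fun i => (n0 : ℤ) * τ S i)
          ((ρ.T γ).baseChange (AlgebraicClosure F)) = 1} := by
        ext γ
        exact not_not
      rw [h7]
      exact h5
    · have h4 : D S = Set.univ := by
        ext γ
        exact ⟨fun _ => trivial, fun _ h' => absurd h' h⟩
      rw [h4]
      exact ⟨isOpen_univ, by rw [Set.compl_univ, measure_empty]⟩
  refine ⟨⋂ S, D S, isOpen_iInter_of_finite fun S => (hD S).1, ?_, ?_⟩
  · rw [Set.compl_iInter]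
    exact measure_iUnion_null fun S => (hD S).2
  · intro γ hγ hF n hn k p s hcr hdet
    by_contra hcon
    obtain ⟨t, hsum, hdp⟩ := Mt.tFm (AlgebraicClosure F) (AlgebraicClosure F ⊗[F] V)
      (ρ.form.baseChange (AlgebraicClosure F)) (comK ρ) N st ε hS k p s hcr
    have hpow : (ρ.T (γ ^ n)).baseChange (AlgebraicClosure F) =
        ((ρ.T γ).baseChange (AlgebraicClosure F)) ^ n := by
      rw [map_pow]
      exact map_pow (Module.End.baseChangeHom F (AlgebraicClosure F) V) (ρ.T γ) n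
    have hu : IsUnit ((ρ.T (γ ^ n)).baseChange (AlgebraicClosure F)) :=
      ((Group.isUnit (γ ^ n)).map ρ.T).map
        (Module.End.baseChangeHom F (AlgebraicClosure F) V)
    have hd := hdp _ (fun c hc => comK_full ρ hfull hc (γ ^ n)) hu
    rw [hdet, hpow, Mt.Bl_detProd_pow t hS.idem
      (fun i => comK_full ρ hfull (hS.mem i) γ) n] at hd
    have hgt : good t := by
      refine ⟨?_, fun h => hcon (Mt.Bl_trRel_congr hsum h)⟩
      rw [hsum]
      exact hcr.skew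
    obtain ⟨S, hSt⟩ := hset γ hF
    have h4 : hasT S := ⟨t, hgt, (hSt t hgt.1).1 n hn hd⟩
    have h5 := hτ S h4
    have h6 := (hSt (τ S) h5.1.1).2 h5.2
    have h7 := Set.mem_iInter.mp hγ S h4
    rw [Wn.detProd_mul] at h7
    exact h7 h6

/-- S_Nrb -/
theorem tNrb (l : ℕ) [Fact l.Prime] (h1 : S_Elb) : S_Nrb l := by
  intro Γ _ _ _ _ V _ _ _ _ _ ν _ ρ hss c b g hW
  have hchar : CharZero (AlgebraicClosure ℚ_[l]) :=
    charZero_of_injective_algebraMap (algebraMap ℚ_[l] (AlgebraicClosure ℚ_[l])).injective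
  obtain ⟨U, hU⟩ := exists_U0 ρ
  have := topGroup_U U
  have := compact_U U
  have hoe : Topology.IsOpenEmbedding (Subtype.val : U → Γ) := U.isOpen.isOpenEmbedding_subtypeVal
  have hν' : (ν.comap (Subtype.val : U → Γ)).IsHaarMeasure :=
    Measure.IsHaarMeasure.comap (f := U.toSubgroup.subtype) (mH := inferInstance) ν hoe
  have hfull : ∀ c, CommF (Ty.res ρ U) c → ∀ γ, c * (Ty.res ρ U).T γ = (Ty.res ρ U).T γ * c :=
    fun c hc γ' => (hU γ'.1).mp γ'.2 c ((commF_res ρ U c).mp hc)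
  obtain ⟨N, st, ε, hS⟩ := Mt.tCsy (AlgebraicClosure ℚ_[l])
    (AlgebraicClosure ℚ_[l] ⊗[ℚ_[l]] V)
    (ρ.form.baseChange (AlgebraicClosure ℚ_[l])) (comK (Ty.res ρ U))
    (alt_baseChange (AlgebraicClosure ℚ_[l]) ρ.form ρ.form_alt)
    (nondeg_baseChange (AlgebraicClosure ℚ_[l]) ρ.form ρ.form_alt ρ.form_nondeg)
    (reg_comK (Ty.res ρ U) (semi_res ρ U hss) hfull) (adj_comK (Ty.res ρ U) hfull)
  obtain ⟨O, hO, hOn, hOg⟩ := Nrb_bl h1 ℚ_[l] V U (ν.comap (Subtype.val : U → Γ)) (Ty.res ρ U)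
    hfull N st ε hS c b g (fun h => hW ((Mt.Nr_weilFor_res ρ U g).mp h))
  refine ⟨U, (Subtype.val : U → Γ) '' O, U.isOpen.isOpenMap_subtype_val O hO, ?_, ?_, ?_⟩
  · rintro _ ⟨γ, -, rfl⟩
    exact γ.2
  · have h4 : ((U : Set Γ) \ (Subtype.val : U → Γ) '' O) = (Subtype.val : U → Γ) '' Oᶜ := by
      ext γ
      constructor
      · rintro ⟨h5, h6⟩
        exact ⟨⟨γ, h5⟩, fun h7 => h6 ⟨_, h7, rfl⟩, rfl⟩
      · rintro ⟨γ', h5, rfl⟩
        refine ⟨γ'.2, ?_⟩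
        rintro ⟨γ'', h6, h7⟩
        exact h5 (Subtype.val_injective h7 ▸ h6)
    rw [h4, ← hoe.measurableEmbedding.comap_apply]
    exact hOn
  · rintro _ ⟨γ, hγ, rfl⟩ hF
    exact (Mt.Nr_detFor_res ρ U g γ).mp (hOg γ hγ hF)

end Pool.Agent.Lib.MP_640417_ag.Kf
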