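import Pool.Agent.Lib.MP_640417_ag.Kf.Spec

/-!
# MP_640417_ag, Kf, module `Nw`: a relation with the exponents `s` holds if `g` kills the Tate forms in
`∑ |s j| * rank (p j)` variables
-/

set_option autoImplicit false

namespace Pool.Agent.Lib.MP_640417_ag.Kf

open Polynomial Matrix Module TensorProduct MeasureTheory Pool.Agent.Lib.MP_640417_ag
  Pool.Agent.Lib.MP_640417_ag.Frob Pool.Agent.Lib.MP_640417_ag.Glob
  Pool.Agent.Lib.MP_640417_ag.Ctl Pool.Agent.Lib.MP_640417_ag.Ty Pool.Agent.Lib.MP_640417_ag.Gen4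
  Pool.Agent.Lib.MP_640417_ag.Dfr Pool.Agent.Lib.MP_640417_ag.Fr Pool.Agent.Lib.MP_640417_ag.Fg
  Pool.Agent.Lib.MP_640417_ag.Orth

section

variable {F : Type} [Field F] {V : Type} [AddCommGroup V] [Module F V]

/-- the form over `F` which belongs to a form over the closure and a linear function on the closure -/
private noncomputable def Nw_form {n : ℕ}
    (f : MultilinearMap (AlgebraicClosure F) (fun _ : Fin n => AlgebraicClosure F ⊗[F] V)
      (AlgebraicClosure F)) (u : AlgebraicClosure F →ₗ[F] F) :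
    MultilinearMap F (fun _ : Fin n => V) F :=
  u.compMultilinearMap ((f.restrictScalars F).compLinearMap
    fun _ => TensorProduct.mk F (AlgebraicClosure F) V 1)

private theorem Nw_form_apply {n : ℕ}
    (f : MultilinearMap (AlgebraicClosure F) (fun _ : Fin n => AlgebraicClosure F ⊗[F] V)
      (AlgebraicClosure F)) (u : AlgebraicClosure F →ₗ[F] F) (v : Fin n → V) :
    Nw_form f u v = u (f fun l => (1 : AlgebraicClosure F) ⊗ₜ[F] v l) := rfl

private theorem Nw_DF {n : ℕ}
    (f : MultilinearMap (AlgebraicClosure F) (fun _ : Fin n => AlgebraicClosure F ⊗[F] V)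
      (AlgebraicClosure F)) (u : AlgebraicClosure F →ₗ[F] F) (X : Module.End F V)
    (v : Fin n → V) :
    DF X (Nw_form f u) v = u (DF (X.baseChange (AlgebraicClosure F)) f
      fun l => (1 : AlgebraicClosure F) ⊗ₜ[F] v l) := by
  unfold DF
  rw [map_sum]
  refine Finset.sum_congr rfl fun j _ => ?_
  rw [Nw_form_apply]
  refine congrArg u (congrArg f (funext fun l => ?_))
  rcases eq_or_ne l j with rfl | hl
  · rw [Function.update_self, Function.update_self, LinearMap.baseChange_tmul]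
  · rw [Function.update_of_ne hl, Function.update_of_ne hl]

private theorem Nw_ne [FiniteDimensional F V] {n : ℕ}
    (f : MultilinearMap (AlgebraicClosure F) (fun _ : Fin n => AlgebraicClosure F ⊗[F] V)
      (AlgebraicClosure F)) (hf : f ≠ 0) :
    ∃ v : Fin n → V, f (fun l => (1 : AlgebraicClosure F) ⊗ₜ[F] v l) ≠ 0 := by
  by_contra hcon
  push Not at hcon
  refine hf (Basis.ext_multilinear
    (fun _ => Algebra.TensorProduct.basis (AlgebraicClosure F) (finBasis F V)) fun v => ?_)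
  have h1 : (fun l : Fin n => Algebra.TensorProduct.basis (AlgebraicClosure F) (finBasis F V)
      (v l)) = fun l => (1 : AlgebraicClosure F) ⊗ₜ[F] (finBasis F V (v l)) :=
    funext fun l => Algebra.TensorProduct.basis_apply _ _
  rw [h1, hcon, _root_.zero_apply]

end

private theorem Nw_open {Γ : Type} [Group Γ] [TopologicalSpace Γ] {k : ℕ}
    (P : Fin k → Γ → Prop) (h : ∀ j, ∃ U : OpenSubgroup Γ, ∀ γ ∈ U, P j γ) :
    ∃ U : OpenSubgroup Γ, ∀ γ ∈ U, ∀ j, P j γ := by
  choose U hU using h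
  refine ⟨Finset.univ.inf U, fun γ hγ j => hU j γ ?_⟩
  exact (Finset.inf_le (Finset.mem_univ j) : Finset.univ.inf U ≤ U j) hγ

private theorem Nw_unit {Γ : Type} [Group Γ] [TopologicalSpace Γ] {F : Type} [Field F]
    [TopologicalSpace F] {V : Type} [AddCommGroup V] [Module F V] (ρ : FormRep Γ F V) (γ : Γ) :
    IsUnit ((ρ.T γ).baseChange (AlgebraicClosure F)) := by
  have h1 : ρ.T γ * ρ.T γ⁻¹ = 1 := by rw [← map_mul, mul_inv_cancel, map_one]
  have h2 : ρ.T γ⁻¹ * ρ.T γ = 1 := by rw [← map_mul, inv_mul_cancel, map_one]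
  refine ⟨⟨(ρ.T γ).baseChange (AlgebraicClosure F), (ρ.T γ⁻¹).baseChange (AlgebraicClosure F),
    ?_, ?_⟩, rfl⟩
  · rw [← LinearMap.baseChange_mul, h1, LinearMap.baseChange_one]
  · rw [← LinearMap.baseChange_mul, h2, LinearMap.baseChange_one]

theorem tNw (h1 : S_Wl) : S_Nw := by
  intro Γ _ _ F _ _ _ V _ _ _ ρ g hg k p s hp hU m hm hkill
  have hchar : CharZero (AlgebraicClosure F) :=
    charZero_of_injective_algebraMap (algebraMap F (AlgebraicClosure F)).injective
  obtain ⟨i, f, hf0, hi, hT, hD⟩ := h1 (AlgebraicClosure F) (AlgebraicClosure F ⊗[F] V)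
    (ρ.form.baseChange (AlgebraicClosure F)) (comF ρ) (nondeg_formK ρ) (nondeg_formK' ρ)
    (adjCl_comF ρ) k p s hp
  obtain rfl : m = 2 * i := hm.trans hi.symm
  obtain ⟨U, hU⟩ := hU
  obtain ⟨W, hW⟩ := Nw_open (fun j γ => p j * (ρ.T γ).baseChange (AlgebraicClosure F) =
    (ρ.T γ).baseChange (AlgebraicClosure F) * p j) fun j => hp.mem j
  have key : ∀ u : AlgebraicClosure F →ₗ[F] F, TateG ρ (2 * i) (Nw_form f u) := by
    intro u
    refine ⟨U ⊓ W, fun γ hγ => ?_⟩
    have h2 : ∀ v : Fin (2 * i) → V, (ρ.χ γ : F) ^ i * Nw_form f u (fun j => ρ.T γ (v j)) =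
        Nw_form f u v := by
      intro v
      rw [Nw_form_apply, Nw_form_apply]
      have h3 := hT ((ρ.T γ).baseChange (AlgebraicClosure F))
        (algebraMap F (AlgebraicClosure F) ((ρ.χ γ)⁻¹ : Fˣ).val) (Nw_unit ρ γ)
        (by
          rw [Ne, map_eq_zero]
          exact Units.ne_zero _)
        (Frob.equivariant_baseChange (AlgebraicClosure F) ρ.form (ρ.T γ)
          ((ρ.χ γ)⁻¹ : Fˣ).val (ρ.form_equivariant γ))
        (hW γ (OpenSubgroup.mem_inf.mp hγ).2) (hU γ (OpenSubgroup.mem_inf.mp hγ).1)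
        fun l => (1 : AlgebraicClosure F) ⊗ₜ[F] v l
      simp only [LinearMap.baseChange_tmul] at h3
      rw [h3, ← map_pow, ← Algebra.smul_def, map_smul, smul_eq_mul, ← mul_assoc, ← mul_pow,
        Units.mul_inv, one_pow, one_mul]
    intro v w
    have h5 : (ρ.χ γ : F) ^ (2 * i) = (ρ.χ γ : F) ^ i * (ρ.χ γ : F) ^ i := by
      rw [← pow_add, two_mul]
    rw [← h2 v, ← h2 w, h5]
    ring
  intro X hX
  have hL := base_inL ρ (hg X hX)
  have hDX := hD (X.baseChange (AlgebraicClosure F)) hL.2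
    (fun j => (hL.1 _ (hp.mem j)).symm)
  obtain ⟨v, hv⟩ := Nw_ne f hf0
  have h4 : (∑ j, (s j : AlgebraicClosure F) *
      LinearMap.trace (AlgebraicClosure F) (AlgebraicClosure F ⊗[F] V)
        (p j * X.baseChange (AlgebraicClosure F))) *
      f (fun l => (1 : AlgebraicClosure F) ⊗ₜ[F] v l) = 0 := by
    rw [← hDX]
    refine (Module.forall_dual_apply_eq_zero_iff F _).mp fun u => ?_
    rw [← Nw_DF]
    exact hkill _ (key u) X hX v
  exact (mul_eq_zero.mp h4).resolve_right hv

end Pool.Agent.Lib.MP_640417_ag.Kf
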