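import Pool.Agent.Lib.MP_640417_ag.Kf.Spec

/-!
# MP_640417_ag, Kf, module Rl: a relation between traces gives a relation between determinants
-/

set_option autoImplicit false

namespace Pool.Agent.Lib.MP_640417_ag.Kf

open Polynomial Matrix Module TensorProduct MeasureTheory Pool.Agent.Lib.MP_640417_ag
  Pool.Agent.Lib.MP_640417_ag.Frob Pool.Agent.Lib.MP_640417_ag.Glob
  Pool.Agent.Lib.MP_640417_ag.Ctl Pool.Agent.Lib.MP_640417_ag.Ty Pool.Agent.Lib.MP_640417_ag.Gen4
  Pool.Agent.Lib.MP_640417_ag.Dfr Pool.Agent.Lib.MP_640417_ag.Fr Pool.Agent.Lib.MP_640417_ag.Fg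
  Pool.Agent.Lib.MP_640417_ag.Orth

section alg

variable {F K V : Type} [Field F] [Field K] [Algebra F K] [AddCommGroup V] [Module F V]

/-- `X ↦ ∑ s j * tr (ε j * X)` -/
private noncomputable def Rl_psi {N : ℕ} (ε : Fin N → Module.End K (K ⊗[F] V)) (s : Fin N → ℤ) :
    Module.End F V →ₗ[F] K where
  toFun X := ∑ j, (s j : K) * LinearMap.trace K (K ⊗[F] V) (ε j * X.baseChange K)
  map_add' X Y := by
    rw [← Finset.sum_add_distrib]
    refine Finset.sum_congr rfl fun j _ => ?_
    rw [LinearMap.baseChange_add, mul_add, map_add, mul_add]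
  map_smul' c X := by
    rw [RingHom.id_apply, Finset.smul_sum]
    refine Finset.sum_congr rfl fun j _ => ?_
    rw [LinearMap.baseChange_smul, mul_smul_comm, LinearMap.map_smul_of_tower, mul_smul_comm]

private theorem Rl_psi_apply {N : ℕ} (ε : Fin N → Module.End K (K ⊗[F] V)) (s : Fin N → ℤ)
    (X : Module.End F V) : Rl_psi ε s X =
      ∑ j, (s j : K) * LinearMap.trace K (K ⊗[F] V) (ε j * X.baseChange K) := rfl

/-- commutators -/
private theorem Rl_psi_comm {N : ℕ} (ε : Fin N → Module.End K (K ⊗[F] V)) (s : Fin N → ℤ)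
    (A B : Module.End F V) (hA : ∀ j, ε j * A.baseChange K = A.baseChange K * ε j) :
    Rl_psi ε s (A * B - B * A) = 0 := by
  rw [map_sub, Rl_psi_apply, Rl_psi_apply, ← Finset.sum_sub_distrib]
  refine Finset.sum_eq_zero fun j _ => ?_
  rw [LinearMap.baseChange_mul, LinearMap.baseChange_mul, ← mul_assoc, hA, mul_assoc,
    LinearMap.trace_mul_comm, mul_assoc, sub_self]

/-- the trace of a skew map -/
private theorem Rl_skew {W : Type} [AddCommGroup W] [Module K W] [FiniteDimensional K W]
    [CharZero K] {form : LinearMap.BilinForm K W} (hnd : ∀ x, (∀ y, form x y = 0) → x = 0)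
    {S : Module.End K W} (hS : Four.Skew form S) : LinearMap.trace K W S = 0 := by
  have h1 : RelM.Adj form S (-S) := by
    intro x y
    rw [LinearMap.neg_apply, map_neg]
    exact eq_neg_of_add_eq_zero_left (hS x y)
  have h2 := h1.trace hnd
  rw [map_neg] at h2
  have h3 : (2 : K) * LinearMap.trace K W S = 0 := by linear_combination -h2
  exact (mul_eq_zero.1 h3).resolve_left two_ne_zero

private theorem Rl_psi_one [FiniteDimensional F V] [CharZero K] {N : ℕ}
    (ε : Fin N → Module.End K (K ⊗[F] V))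
    (s : Fin N → ℤ) {form : LinearMap.BilinForm K (K ⊗[F] V)}
    (hnd : ∀ x, (∀ y, form x y = 0) → x = 0) (hS : Four.Skew form (∑ j, (s j : K) • ε j)) :
    Rl_psi ε s 1 = 0 := by
  have h1 := Rl_skew hnd hS
  rw [map_sum] at h1
  rw [Rl_psi_apply, ← h1]
  refine Finset.sum_congr rfl fun j _ => ?_
  rw [map_smul, smul_eq_mul]
  congr 2
  have h2 : ((1 : Module.End F V).baseChange K) = 1 := LinearMap.baseChange_id
  rw [h2, mul_one]

/-- determinants and traces in coordinates -/
private theorem Rl_det [FiniteDimensional F V] {I : Type} [Fintype I] [DecidableEq I]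
    (e : Basis I F V) (p : Module.End K (K ⊗[F] V)) (X : Module.End F V) :
    (LinearMap.toMatrixAlgEquiv (Algebra.TensorProduct.basis K e) p *
      (LinearMap.toMatrix e e X).map (algebraMap F K) +
      (1 - LinearMap.toMatrixAlgEquiv (Algebra.TensorProduct.basis K e) p)).det =
      LinearMap.det (p * X.baseChange K + (1 - p)) := by
  rw [← LinearMap.det_toMatrix (Algebra.TensorProduct.basis K e)]
  congr 1
  rw [← LinearMap.toMatrix_baseChange]
  have h1 : ∀ Y, LinearMap.toMatrix (Algebra.TensorProduct.basis K e)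
      (Algebra.TensorProduct.basis K e) Y =
      LinearMap.toMatrixAlgEquiv (Algebra.TensorProduct.basis K e) Y := fun _ => rfl
  have h2 : LinearMap.toMatrixAlgEquiv (Algebra.TensorProduct.basis K e) (1 - p) =
      1 - LinearMap.toMatrixAlgEquiv (Algebra.TensorProduct.basis K e) p := by
    rw [← map_one (LinearMap.toMatrixAlgEquiv (Algebra.TensorProduct.basis K e)), ← map_sub]
  rw [h1, h1, map_add, map_mul, h2]

private theorem Rl_trace [FiniteDimensional F V] {I : Type} [Fintype I] [DecidableEq I]
    (e : Basis I F V) (p : Module.End K (K ⊗[F] V)) (X : Module.End F V) :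
    (LinearMap.toMatrixAlgEquiv (Algebra.TensorProduct.basis K e) p *
      (LinearMap.toMatrix e e X).map (algebraMap F K)).trace =
      LinearMap.trace K (K ⊗[F] V) (p * X.baseChange K) := by
  rw [LinearMap.trace_eq_matrix_trace K (Algebra.TensorProduct.basis K e)]
  congr 1
  rw [← LinearMap.toMatrix_baseChange]
  have h1 : ∀ Y, LinearMap.toMatrix (Algebra.TensorProduct.basis K e)
      (Algebra.TensorProduct.basis K e) Y =
      LinearMap.toMatrixAlgEquiv (Algebra.TensorProduct.basis K e) Y := fun _ => rfl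
  rw [h1, h1, map_mul]

private theorem Rl_comm {I : Type} [Fintype I] [DecidableEq I]
    (e : Basis I F V) (p : Module.End K (K ⊗[F] V)) (X : Module.End F V)
    (h : p * X.baseChange K = X.baseChange K * p) :
    LinearMap.toMatrixAlgEquiv (Algebra.TensorProduct.basis K e) p *
      (LinearMap.toMatrix e e X).map (algebraMap F K) =
    (LinearMap.toMatrix e e X).map (algebraMap F K) *
      LinearMap.toMatrixAlgEquiv (Algebra.TensorProduct.basis K e) p := by
  rw [← LinearMap.toMatrix_baseChange]
  have h1 : ∀ Y, LinearMap.toMatrix (Algebra.TensorProduct.basis K e)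
      (Algebra.TensorProduct.basis K e) Y =
      LinearMap.toMatrixAlgEquiv (Algebra.TensorProduct.basis K e) Y := fun _ => rfl
  rw [h1, ← map_mul, ← map_mul, h]

end alg

section rep

variable {F : Type} [Field F] [CharZero F] [TopologicalSpace F] {V : Type} [AddCommGroup V]
  [Module F V] {Γ : Type} [Group Γ] [TopologicalSpace Γ] (ρ : H1Rep Γ F V)

omit [CharZero F] in
/-- everything in the commutant over `K` commutes with what commutes with the commutant -/
private theorem Rl_cenK {A : Module.End F V} (hA : ∀ c, CommF ρ c → A * c = c * A)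
    {c : Module.End (AlgebraicClosure F) (AlgebraicClosure F ⊗[F] V)} (hc : c ∈ comK ρ)
    [FiniteDimensional F V] :
    c * A.baseChange (AlgebraicClosure F) = A.baseChange (AlgebraicClosure F) * c := by
  classical
  let b := Module.Free.chooseBasis F (AlgebraicClosure F)
  obtain ⟨τ, hτ⟩ := Four.sum_cp b c
  rw [hτ, Finset.sum_mul, Finset.mul_sum]
  refine Finset.sum_congr rfl fun t _ => ?_
  rw [smul_mul_assoc, mul_smul_comm, ← LinearMap.baseChange_mul,
    ← hA _ (cp_comm ρ hc (b.coord t)), LinearMap.baseChange_mul]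

end rep

theorem tRl (l : ℕ) [Fact l.Prime] : S_Rl l := by
  classical
  intro Γ _ _ _ _ V _ _ _ ρ hss N st ε hS I _ _ e R r1 r3 s hs hA
  have hchar : CharZero (AlgebraicClosure ℚ_[l]) :=
    charZero_of_injective_algebraMap (algebraMap ℚ_[l] (AlgebraicClosure ℚ_[l])).injective
  obtain ⟨U0, hU0⟩ := exists_U0 ρ
  have := topGroup_U U0
  have := compact_U U0
  have hfull : ∀ c, CommF (res ρ U0) c → ∀ γ, c * (res ρ U0).T γ = (res ρ U0).T γ * c :=
    fun c hc γ' => (hU0 γ'.1).mp γ'.2 c ((commF_res ρ U0 c).mp hc)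
  have hnd := nondeg_baseChange (AlgebraicClosure ℚ_[l]) ρ.form ρ.form_alt ρ.form_nondeg
  have hsemi : R.Semi := coord_semi ρ e R r1 hss
  have hl := norm_l l
  have hl0 := l_ne l
  have hcom : ∀ X : Module.End ℚ_[l] V, LinearMap.toMatrix e e X ∈ R.Hh l →
      ∀ j, ε j * X.baseChange (AlgebraicClosure ℚ_[l]) =
        X.baseChange (AlgebraicClosure ℚ_[l]) * ε j := by
    intro X hX j
    refine Rl_cenK ρ (fun c hc => ?_) (hS.mem j)
    have h5 := Hh_comm_C R l hl hl0 hX ((coord_inC ρ e R r1 c).mpr hc)
    apply (LinearMap.toMatrixAlgEquiv e).injective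
    rw [map_mul, map_mul]
    exact h5
  -- the claim
  have hclaim : ∀ X : Module.End ℚ_[l] V, LinearMap.toMatrix e e X ∈ R.Zt l →
      Rl_psi ε s X = 0 := by
    intro X hX
    obtain ⟨c, hc⟩ := Zt_Hh R l hl hl0 hX
    obtain ⟨z', hz1, hz2, hz3⟩ := Mt.tSpl l Mt.tTnl I R hsemi _ hc
    have hone : Rl_psi ε s 1 = 0 := Rl_psi_one ε s hnd hs
    have hzz : Rl_psi ε s (Matrix.toLin e e z') = 0 := by
      refine hA _ ?_ ?_
      · rw [LinearMap.toMatrix_toLin]
        exact hz1
      · rw [← coord_zm ρ e R r1 r3, LinearMap.toMatrix_toLin]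
        exact hz2
    have hspan : ∀ D ∈ Submodule.span ℚ_[l] {D | ∃ A ∈ R.Hh l, ∃ B ∈ R.Hh l,
        D = A * B - B * A}, Rl_psi ε s (Matrix.toLin e e D) = 0 := by
      intro D hD
      induction hD using Submodule.span_induction with
      | mem D hD =>
        obtain ⟨A', hA', B', -, rfl⟩ := hD
        have h5 : Matrix.toLin e e (A' * B' - B' * A') =
            Matrix.toLin e e A' * Matrix.toLin e e B' -
              Matrix.toLin e e B' * Matrix.toLin e e A' := by
          have h6 : ∀ Y, Matrix.toLin e e Y = Matrix.toLinAlgEquiv e Y := fun _ => rfl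
          rw [h6, h6, h6, map_sub, map_mul, map_mul]
        rw [h5]
        refine Rl_psi_comm ε s _ _ (hcom _ ?_)
        rw [LinearMap.toMatrix_toLin]
        exact hA'
      | zero => rw [map_zero, map_zero]
      | add D D' _ _ hD hD' => rw [map_add, map_add, hD, hD', add_zero]
      | smul a D _ hD => rw [map_smul, map_smul, hD, smul_zero]
    have h5 := hspan _ hz3
    have h6 : Matrix.toLin e e (LinearMap.toMatrix e e X - c • 1 - z') =
        X - c • 1 - Matrix.toLin e e z' := by
      rw [map_sub, map_sub, map_smul, Matrix.toLin_toMatrix, Matrix.toLin_one]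
      rfl
    rw [h6, map_sub, map_sub, map_smul, hone, hzz, smul_zero, sub_zero, sub_zero] at h5
    exact h5
  -- the relation between the determinants
  obtain ⟨U, hU⟩ := Mt.tLgr l I R N
    (fun j => LinearMap.toMatrixAlgEquiv
      (Algebra.TensorProduct.basis (AlgebraicClosure ℚ_[l]) e) (ε j)) s
    (fun j => by rw [← map_mul, hS.idem])
    ⟨U0, fun γ hγ j => by
      rw [r1]
      refine Rl_comm e (ε j) (ρ.T γ) ?_
      have hj : ε j ∈ comK (res ρ U0) := by
        rw [comK_resU]
        exact hS.mem j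
      exact comK_full (res ρ U0) hfull hj ⟨γ, hγ⟩⟩
    (fun A' hA' => by
      have h5 := hclaim (Matrix.toLin e e A') (by
        rw [LinearMap.toMatrix_toLin]
        exact hA')
      rw [Rl_psi_apply] at h5
      rw [← h5]
      refine Finset.sum_congr rfl fun j _ => ?_
      congr 1
      have h6 := Rl_trace e (ε j) (Matrix.toLin e e A')
      rw [LinearMap.toMatrix_toLin] at h6
      exact h6)
  refine ⟨U, fun γ hγ => ?_⟩
  rw [← hU γ hγ, detProd]
  refine Finset.prod_congr rfl fun j _ => ?_
  rw [r1]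
  congr 1
  exact (Rl_det e (ε j) (ρ.T γ)).symm

end Pool.Agent.Lib.MP_640417_ag.Kf
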