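import Pool.Agent.Lib.MP_640417_ag.Kf.Spec

/-!
# MP_640417_ag, Kf, module Tw: relations between determinants for a representation and its double
-/

set_option autoImplicit false

namespace Pool.Agent.Lib.MP_640417_ag.Kf

open Polynomial Matrix Module TensorProduct MeasureTheory Pool.Agent.Lib.MP_640417_ag
  Pool.Agent.Lib.MP_640417_ag.Frob Pool.Agent.Lib.MP_640417_ag.Glob
  Pool.Agent.Lib.MP_640417_ag.Ctl Pool.Agent.Lib.MP_640417_ag.Ty Pool.Agent.Lib.MP_640417_ag.Gen4
  Pool.Agent.Lib.MP_640417_ag.Dfr Pool.Agent.Lib.MP_640417_ag.Fr Pool.Agent.Lib.MP_640417_ag.Fg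
  Pool.Agent.Lib.MP_640417_ag.Orth

section alg

variable {F : Type} [Field F] {V : Type} [AddCommGroup V] [Module F V]

/-- the map `dK` commutes with differences -/
theorem Tw_sub (h1 : S_Dk)
    (p q : Module.End (AlgebraicClosure F) (AlgebraicClosure F ⊗[F] V)) :
    dK (p - q) = dK p - dK q := by
  obtain ⟨-, hadd, -, -, -, -⟩ := h1 F V
  have h : dK (p - q) + dK q = dK p := (hadd (p - q) q).symm.trans
    (congrArg dK (LinearMap.ext fun x => sub_add_cancel (p x) (q x)))
  exact LinearMap.ext fun x => eq_sub_of_add_eq (LinearMap.congr_fun h x)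

/-- the determinant on a component of the double -/
theorem Tw_det (h1 : S_Dk) (h2 : S_Dt) [FiniteDimensional F V]
    (p G : Module.End (AlgebraicClosure F) (AlgebraicClosure F ⊗[F] V)) :
    LinearMap.det (dK p * dK G + (1 - dK p)) = LinearMap.det (p * G + (1 - p)) ^ 2 := by
  obtain ⟨hmul, hadd, -, hone, -, -⟩ := h1 F V
  rw [← (h2 F V (p * G + (1 - p))).2, hadd, hmul, Tw_sub h1, hone]

/-- the products of determinants for the double -/
theorem Tw_detProd (h1 : S_Dk) (h2 : S_Dt) [FiniteDimensional F V] {k : ℕ}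
    (p : Fin k → Module.End (AlgebraicClosure F) (AlgebraicClosure F ⊗[F] V)) (s : Fin k → ℤ)
    (G : Module.End (AlgebraicClosure F) (AlgebraicClosure F ⊗[F] V)) :
    detProd (fun j => dK (p j)) s (dK G) = detProd p s G ^ 2 := by
  unfold detProd
  rw [← Finset.prod_pow]
  refine Finset.prod_congr rfl fun j _ => ?_
  rw [Tw_det h1 h2, ← zpow_natCast, ← zpow_natCast, ← _root_.zpow_mul, ← _root_.zpow_mul,
    mul_comm]

/-- the products of determinants for twice the exponents -/
theorem Tw_two {k : ℕ}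
    (p : Fin k → Module.End (AlgebraicClosure F) (AlgebraicClosure F ⊗[F] V)) (s : Fin k → ℤ)
    (G : Module.End (AlgebraicClosure F) (AlgebraicClosure F ⊗[F] V)) :
    detProd p (fun j => 2 * s j) G = detProd p s G ^ 2 := by
  unfold detProd
  rw [← Finset.prod_pow]
  refine Finset.prod_congr rfl fun j _ => ?_
  rw [← zpow_natCast (LinearMap.det (p j * G + (1 - p j)) ^ s j) 2, ← _root_.zpow_mul,
    mul_comm (s j)]
  rfl

/-- the relations between traces for the double -/
theorem Tw_tr (h1 : S_Dk) (h2 : S_Dt) [CharZero F] [FiniteDimensional F V]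
    (g : Set (Module.End F V)) {k : ℕ}
    (p : Fin k → Module.End (AlgebraicClosure F) (AlgebraicClosure F ⊗[F] V))
    (s : Fin k → ℤ) :
    Mt.TrRel (dg g) (fun j => dK (p j)) s ↔ Mt.TrRel g p s := by
  have : CharZero (AlgebraicClosure F) :=
    charZero_of_injective_algebraMap (algebraMap F (AlgebraicClosure F)).injective
  obtain ⟨hmul, -, -, -, -, hbc⟩ := h1 F V
  have key : ∀ X : Module.End F V,
      ∑ j, (s j : AlgebraicClosure F) *
        LinearMap.trace (AlgebraicClosure F) (AlgebraicClosure F ⊗[F] (V × V))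
          (dK (p j) * (X.prodMap X).baseChange (AlgebraicClosure F)) =
      2 * ∑ j, (s j : AlgebraicClosure F) *
        LinearMap.trace (AlgebraicClosure F) (AlgebraicClosure F ⊗[F] V)
          (p j * X.baseChange (AlgebraicClosure F)) := by
    intro X
    rw [Finset.mul_sum]
    refine Finset.sum_congr rfl fun j _ => ?_
    rw [← hbc, ← hmul, (h2 F V _).1]
    ring
  constructor
  · intro h X hX
    have h3 := h (X.prodMap X) ⟨X, hX, rfl⟩
    rw [key] at h3
    exact (mul_eq_zero.1 h3).resolve_left two_ne_zero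
  · rintro h _ ⟨X, hX, rfl⟩
    rw [key, h X hX, mul_zero]

/-- the relations between traces for twice the coefficients -/
theorem Tw_tr_two [CharZero F] (g : Set (Module.End F V)) {k : ℕ}
    (p : Fin k → Module.End (AlgebraicClosure F) (AlgebraicClosure F ⊗[F] V))
    (s : Fin k → ℤ) (h : Mt.TrRel g p (fun j => 2 * s j)) : Mt.TrRel g p s := by
  have : CharZero (AlgebraicClosure F) :=
    charZero_of_injective_algebraMap (algebraMap F (AlgebraicClosure F)).injective
  intro X hX
  have h3 := h X hX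
  have h4 : ∑ j, ((2 * s j : ℤ) : AlgebraicClosure F) *
      LinearMap.trace (AlgebraicClosure F) (AlgebraicClosure F ⊗[F] V)
        (p j * X.baseChange (AlgebraicClosure F)) =
      2 * ∑ j, (s j : AlgebraicClosure F) *
        LinearMap.trace (AlgebraicClosure F) (AlgebraicClosure F ⊗[F] V)
          (p j * X.baseChange (AlgebraicClosure F)) := by
    rw [Finset.mul_sum]
    refine Finset.sum_congr rfl fun j _ => ?_
    push_cast
    ring
  rw [h4] at h3
  exact (mul_eq_zero.1 h3).resolve_left two_ne_zero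

/-- the relation with twice the exponents -/
theorem Tw_cenRel_two {K W : Type} [Field K] [AddCommGroup W] [Module K W]
    {form : LinearMap.BilinForm K W} {C : Subalgebra K (Module.End K W)} {k : ℕ}
    {p : Fin k → Module.End K W} {s : Fin k → ℤ} (h : CenRel form C p s) :
    CenRel form C p (fun j => 2 * s j) where
  mem := h.mem
  cen := h.cen
  idem := h.idem
  orth := h.orth
  skew := by
    have h3 : ∑ j, ((2 * s j : ℤ) : K) • p j = (2 : K) • ∑ j, (s j : K) • p j := by
      rw [Finset.smul_sum]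
      refine Finset.sum_congr rfl fun j _ => ?_
      rw [smul_smul]
      push_cast
      rfl
    rw [h3]
    intro x y
    have h4 := h.skew x y
    simp only [LinearMap.smul_apply, map_smul, smul_eq_mul] at *
    linear_combination (2 : K) * h4

end alg

theorem tTw (h1 : S_Dk) (h2 : S_Dt) (h3 : S_Cr) : S_Tw := by
  intro Γ _ _ F _ _ _ _ V _ _ _ ρ g
  have hT : ∀ γ : Γ, ((dbl ρ).T γ).baseChange (AlgebraicClosure F) =
      dK ((ρ.T γ).baseChange (AlgebraicClosure F)) := fun γ => by
    rw [dbl_T, (h1 F V).2.2.2.2.2]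
  -- from a relation of the double to a relation
  have hD : ∀ {k : ℕ}
      {p : Fin k → Module.End (AlgebraicClosure F) (AlgebraicClosure F ⊗[F] V)}
      {s : Fin k → ℤ} (γ : Γ),
      detProd (fun j => dK (p j)) s (((dbl ρ).T γ).baseChange (AlgebraicClosure F)) =
        detProd p s ((ρ.T γ).baseChange (AlgebraicClosure F)) ^ 2 := fun γ => by
    rw [hT, Tw_detProd h1 h2]
  refine ⟨⟨?_, ?_⟩, fun γ => ⟨?_, ?_⟩⟩
  · rintro ⟨k, p, s, hC, hn, U, hU⟩
    refine ⟨k, fun j => dK (p j), s, (h3 Γ F V ρ k s).1 p hC, ?_, U, fun γ hγ => ?_⟩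
    · rw [Tw_tr h1 h2]
      exact hn
    · rw [hD, hU γ hγ, one_pow]
  · rintro ⟨k, p', s, hC, hn, U, hU⟩
    obtain ⟨p, hp, hC'⟩ := (h3 Γ F V ρ k s).2 p' hC
    have hpp : p' = fun j => dK (p j) := funext hp
    subst hpp
    refine ⟨k, p, fun j => 2 * s j, Tw_cenRel_two hC', fun h => hn ?_, U, fun γ hγ => ?_⟩
    · rw [Tw_tr h1 h2]
      exact Tw_tr_two g p s h
    · rw [Tw_two, ← hD, hU γ hγ]
  · intro h N hN k p' s hC hd
    obtain ⟨p, hp, hC'⟩ := (h3 Γ F V ρ k s).2 p' hC
    have hpp : p' = fun j => dK (p j) := funext hp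
    subst hpp
    rw [Tw_tr h1 h2]
    refine Tw_tr_two g p s (h N hN k p _ (Tw_cenRel_two hC') ?_)
    rw [Tw_two, ← hD, hd]
  · intro h N hN k p s hC hd
    have h5 := h N hN k (fun j => dK (p j)) s ((h3 Γ F V ρ k s).1 p hC) (by
      rw [hD, hd, one_pow])
    rwa [Tw_tr h1 h2] at h5

end Pool.Agent.Lib.MP_640417_ag.Kf
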