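import Pool.Agent.Lib.MP_640417_ag.Kf.Spec

/-!
# MP_640417_ag, Kf: the forms in two variables are known, their Lie algebra is the Lefschetz Lie algebra
-/

set_option autoImplicit false

namespace Pool.Agent.Lib.MP_640417_ag.Kf

open Polynomial Matrix Module TensorProduct MeasureTheory Pool.Agent.Lib.MP_640417_ag
  Pool.Agent.Lib.MP_640417_ag.Frob Pool.Agent.Lib.MP_640417_ag.Glob
  Pool.Agent.Lib.MP_640417_ag.Ctl Pool.Agent.Lib.MP_640417_ag.Ty Pool.Agent.Lib.MP_640417_ag.Gen4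
  Pool.Agent.Lib.MP_640417_ag.Dfr Pool.Agent.Lib.MP_640417_ag.Fr Pool.Agent.Lib.MP_640417_ag.Fg
  Pool.Agent.Lib.MP_640417_ag.Orth

section alg

variable {F : Type} [Field F] {V : Type} [AddCommGroup V] [Module F V]

/-- the bilinear map of a form in two variables -/
private noncomputable def Tz_bil (f : MultilinearMap F (fun _ : Fin 2 => V) F) :
    V →ₗ[F] V →ₗ[F] F :=
  LinearMap.mk₂ F (fun x y => f ![x, y])
    (fun x x' y => by
      have h := f.map_update_add ![x, y] 0 x x'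
      have e : ∀ z : V, Function.update ![x, y] 0 z = ![z, y] := fun z => by
        funext i
        fin_cases i <;> simp
      rwa [e, e, e] at h)
    (fun a x y => by
      have h := f.map_update_smul ![x, y] 0 a x
      have e : ∀ z : V, Function.update ![x, y] 0 z = ![z, y] := fun z => by
        funext i
        fin_cases i <;> simp
      rwa [e, e] at h)
    (fun x y y' => by
      have h := f.map_update_add ![x, y] 1 y y'
      have e : ∀ z : V, Function.update ![x, y] 1 z = ![x, z] := fun z => by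
        funext i
        fin_cases i <;> simp
      rwa [e, e, e] at h)
    (fun a x y => by
      have h := f.map_update_smul ![x, y] 1 a y
      have e : ∀ z : V, Function.update ![x, y] 1 z = ![x, z] := fun z => by
        funext i
        fin_cases i <;> simp
      rwa [e, e] at h)

private theorem Tz_bil_apply (f : MultilinearMap F (fun _ : Fin 2 => V) F) (x y : V) :
    Tz_bil f x y = f ![x, y] := rfl

end alg

section rep

variable {Γ : Type} [Group Γ] [TopologicalSpace Γ] {F : Type} [Field F]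
  [TopologicalSpace F] {V : Type} [AddCommGroup V] [Module F V] (ρ : FormRep Γ F V)

private theorem Tz_ex [FiniteDimensional F V] (f : MultilinearMap F (fun _ : Fin 2 => V) F) :
    ∃ c : Module.End F V, f = twoF ρ c := by
  have hinj : Function.Injective (ρ.form : V →ₗ[F] V →ₗ[F] F) := by
    rw [injective_iff_map_eq_zero]
    intro x hx
    exact ρ.form_nondeg x fun y => by rw [hx]; rfl
  have hdim : finrank F V = finrank F (V →ₗ[F] F) := (Subspace.dual_finrank_eq).symm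
  let E : V ≃ₗ[F] (V →ₗ[F] F) := LinearMap.linearEquivOfInjective (ρ.form) hinj hdim
  refine ⟨E.symm.toLinearMap ∘ₗ Tz_bil f, ?_⟩
  ext v
  have h1 : v = ![v 0, v 1] := by
    funext i
    fin_cases i <;> rfl
  have h2 : E (E.symm (Tz_bil f (v 0))) = Tz_bil f (v 0) := E.apply_symm_apply _
  have h3 : ρ.form (E.symm (Tz_bil f (v 0))) = Tz_bil f (v 0) := h2
  rw [twoF_apply]
  have h4 : (E.symm.toLinearMap ∘ₗ Tz_bil f) (v 0) = E.symm (Tz_bil f (v 0)) := rfl
  rw [h4, h3, Tz_bil_apply]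
  exact congrArg f h1

private theorem Tz_ext {c c' : Module.End F V}
    (h : ∀ x y, ρ.form (c x) y = ρ.form (c' x) y) : c = c' := by
  refine LinearMap.ext fun x => ?_
  rw [← sub_eq_zero]
  refine ρ.form_nondeg _ fun y => ?_
  rw [map_sub, LinearMap.sub_apply, h, sub_self]

private theorem Tz_tt (γ : Γ) : ρ.T γ * ρ.T γ⁻¹ = 1 := by
  rw [← map_mul, mul_inv_cancel, map_one]

private theorem Tz_tt' (γ : Γ) : ρ.T γ⁻¹ * ρ.T γ = 1 := by
  rw [← map_mul, inv_mul_cancel, map_one]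

private theorem Tz_conj (c : Module.End F V) (γ : Γ) (x y : V) :
    ρ.form (c (ρ.T γ x)) (ρ.T γ y) =
      ((ρ.χ γ)⁻¹ : Fˣ).val * ρ.form ((ρ.T γ⁻¹ * c * ρ.T γ) x) y := by
  rw [← ρ.form_equivariant]
  congr 2
  have h := LinearMap.congr_fun (Tz_tt ρ γ) (c (ρ.T γ x))
  exact h.symm

private theorem Tz_pm [CharZero F] {c : Module.End F V} {γ : Γ}
    (h : ∀ v w : Fin 2 → V, (ρ.χ γ : F) ^ 2 * (twoF ρ c (fun j => ρ.T γ (v j)) *
      twoF ρ c (fun j => ρ.T γ (w j))) = twoF ρ c v * twoF ρ c w) :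
    c * ρ.T γ = ρ.T γ * c ∨ c * ρ.T γ = - (ρ.T γ * c) := by
  set c' : Module.End F V := ρ.T γ⁻¹ * c * ρ.T γ with hc'
  have h3 : ((ρ.χ γ : Fˣ) : F) * ((ρ.χ γ)⁻¹ : Fˣ).val = 1 := Units.mul_inv _
  have key : ∀ x y z w : V, ρ.form (c' x) y * ρ.form (c' z) w =
      ρ.form (c x) y * ρ.form (c z) w := by
    intro x y z w
    have h1 := h ![x, y] ![z, w]
    rw [twoF_apply, twoF_apply, twoF_apply, twoF_apply] at h1
    have h4 : ρ.form (c (ρ.T γ x)) (ρ.T γ y) = _ := Tz_conj ρ c γ x y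
    have h5 : ρ.form (c (ρ.T γ z)) (ρ.T γ w) = _ := Tz_conj ρ c γ z w
    have h6 : (ρ.χ γ : F) ^ 2 * (ρ.form (c (ρ.T γ x)) (ρ.T γ y) *
      ρ.form (c (ρ.T γ z)) (ρ.T γ w)) = ρ.form (c x) y * ρ.form (c z) w := h1
    rw [h4, h5] at h6
    rw [← h6]
    linear_combination (-(((ρ.χ γ : Fˣ) : F) * ((ρ.χ γ)⁻¹ : Fˣ).val + 1) *
      ρ.form (c' x) y * ρ.form (c' z) w) * h3
  have hcc : ρ.T γ * c' = c * ρ.T γ := by
    rw [hc', ← mul_assoc, ← mul_assoc, Tz_tt, one_mul]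
  by_cases h0 : ∀ x y, ρ.form (c x) y = 0
  · left
    have h1 : c = 0 := Tz_ext ρ fun x y => by rw [h0]; simp
    rw [h1, zero_mul, mul_zero]
  · push Not at h0
    obtain ⟨x, y, hxy⟩ := h0
    have h1 := key x y x y
    have h2 : (ρ.form (c' x) y - ρ.form (c x) y) * (ρ.form (c' x) y + ρ.form (c x) y) = 0 := by
      linear_combination h1
    rcases mul_eq_zero.1 h2 with h4 | h4
    · left
      have h5 : c' = c := Tz_ext ρ fun z w => by
        have h6 := key x y z w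
        rw [sub_eq_zero.1 h4] at h6
        exact mul_left_cancel₀ hxy h6
      rw [← hcc, h5]
    · right
      have h5 : c' = -c := Tz_ext ρ fun z w => by
        have h6 := key x y z w
        rw [eq_neg_of_add_eq_zero_left h4] at h6
        have h7 : ρ.form (c x) y * ρ.form (c' z) w = ρ.form (c x) y * (-ρ.form (c z) w) := by
          linear_combination -h6
        have h8 := mul_left_cancel₀ hxy h7
        rw [h8]
        simp
      rw [← hcc, h5, mul_neg]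

/-- the elements of `U` which commute with `c` -/
private def Tz_sub (U : OpenSubgroup Γ) (c : Module.End F V) : Subgroup Γ where
  carrier := {γ | γ ∈ U ∧ c * ρ.T γ = ρ.T γ * c}
  one_mem' := ⟨U.one_mem, by rw [map_one, mul_one, one_mul]⟩
  mul_mem' := fun {a b} ha hb => ⟨U.mul_mem ha.1 hb.1, by
    rw [map_mul, ← mul_assoc, ha.2, mul_assoc, hb.2, mul_assoc]⟩
  inv_mem' := fun {a} ha => ⟨U.inv_mem ha.1, by
    have h1 : ρ.T a⁻¹ * (c * ρ.T a) * ρ.T a⁻¹ = ρ.T a⁻¹ * (ρ.T a * c) * ρ.T a⁻¹ := by rw [ha.2]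
    have h2 : ρ.T a⁻¹ * (c * ρ.T a) * ρ.T a⁻¹ = ρ.T a⁻¹ * c := by
      rw [mul_assoc, mul_assoc, Tz_tt, mul_one]
    have h3 : ρ.T a⁻¹ * (ρ.T a * c) * ρ.T a⁻¹ = c * ρ.T a⁻¹ := by
      rw [← mul_assoc, Tz_tt', one_mul]
    rw [← h3, ← h1, h2]⟩

private theorem Tz_closed [T2Space F] (c d : Module.End F V) :
    IsClosed {γ | c * ρ.T γ = ρ.T γ * d} := by
  have h1 : {γ | c * ρ.T γ = ρ.T γ * d} =
      ⋂ (φ : Module.Dual F V) (x : V), {γ | (φ ∘ₗ c) (ρ.T γ x) = φ (ρ.T γ (d x))} := by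
    ext γ
    simp only [Set.mem_ofPred_eq, Set.mem_iInter]
    constructor
    · intro h φ x
      have h2 := LinearMap.congr_fun h x
      exact congrArg φ h2
    · intro h
      refine LinearMap.ext fun x => ?_
      rw [← sub_eq_zero, ← Module.forall_dual_apply_eq_zero_iff F]
      intro φ
      rw [map_sub, sub_eq_zero]
      exact h φ x
  rw [h1]
  refine isClosed_iInter fun φ => isClosed_iInter fun x => ?_
  exact isClosed_eq (ρ.continuous_coeff (φ ∘ₗ c) x) (ρ.continuous_coeff φ (d x))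

private theorem Tz_com [T2Space F] [CharZero F] [FiniteDimensional F V] [IsTopologicalGroup Γ]
    {f : MultilinearMap F (fun _ : Fin 2 => V) F} (hf : TateG ρ 2 f) :
    ∃ c, InCom ρ c ∧ f = twoF ρ c := by
  obtain ⟨c, rfl⟩ := Tz_ex ρ f
  refine ⟨c, ?_, rfl⟩
  obtain ⟨U, hU⟩ := hf
  by_cases hc : c = 0
  · exact ⟨⊤, fun γ _ => by rw [hc, zero_mul, mul_zero]⟩
  have h1 : ((Tz_sub ρ U c : Subgroup Γ) : Set Γ) =
      (U : Set Γ) ∩ {γ | c * ρ.T γ = ρ.T γ * (-c)}ᶜ := by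
    ext γ
    constructor
    · rintro ⟨h2, h3⟩
      refine ⟨h2, fun h4 => hc ?_⟩
      have h5 : ρ.T γ * c = ρ.T γ * (-c) := h3.symm.trans h4
      have h6 : ρ.T γ⁻¹ * (ρ.T γ * c) = ρ.T γ⁻¹ * (ρ.T γ * (-c)) := by rw [h5]
      rw [← mul_assoc, ← mul_assoc, Tz_tt', one_mul, one_mul] at h6
      have h7 : (2 : F) • c = 0 := by
        rw [two_smul]
        nth_rewrite 2 [h6]
        rw [add_neg_cancel]
      exact (smul_eq_zero.1 h7).resolve_left two_ne_zero
    · rintro ⟨h2, h3⟩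
      refine ⟨h2, ?_⟩
      rcases Tz_pm ρ (hU γ h2) with h4 | h4
      · exact h4
      · exact (h3 (by rw [Set.mem_ofPred_eq, h4, mul_neg])).elim
  have h2 : IsOpen ((Tz_sub ρ U c : Subgroup Γ) : Set Γ) := by
    rw [h1]
    exact U.isOpen.inter (Tz_closed ρ c (-c)).isOpen_compl
  exact ⟨⟨Tz_sub ρ U c, h2⟩, fun γ hγ => hγ.2⟩

private theorem Tz_add {c d : Module.End F V} (hc : InCom ρ c) (hd : InCom ρ d) :
    InCom ρ (c + d) := by
  obtain ⟨U, hU⟩ := hc
  obtain ⟨W, hW⟩ := hd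
  exact ⟨U ⊓ W, fun γ hγ => by rw [add_mul, mul_add, hU γ hγ.1, hW γ hγ.2]⟩

private theorem Tz_smul {c : Module.End F V} (a : F) (hc : InCom ρ c) : InCom ρ (a • c) := by
  obtain ⟨U, hU⟩ := hc
  exact ⟨U, fun γ hγ => by rw [smul_mul_assoc, mul_smul_comm, hU γ hγ]⟩

private theorem Tz_cj [IsTopologicalGroup Γ] {c : Module.End F V} (hc : InCom ρ c) (γ : Γ) :
    InCom ρ (ρ.T γ⁻¹ * c * ρ.T γ) := by
  obtain ⟨U, hU⟩ := hc
  have hcont : Continuous (MulAut.conj γ : Γ →* Γ) := by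
    show Continuous fun x => γ * x * γ⁻¹
    fun_prop
  refine ⟨U.comap (MulAut.conj γ : Γ →* Γ) hcont, fun δ hδ => ?_⟩
  have h1 : γ * δ * γ⁻¹ ∈ U := hδ
  have h2 := hU _ h1
  have h3 : ρ.T γ * ρ.T δ = ρ.T (γ * δ * γ⁻¹) * ρ.T γ := by
    rw [← map_mul, ← map_mul]
    congr 1
    group
  have h4 : ρ.T δ * ρ.T γ⁻¹ = ρ.T γ⁻¹ * ρ.T (γ * δ * γ⁻¹) := by
    rw [← map_mul, ← map_mul]
    congr 1
    group
  calc ρ.T γ⁻¹ * c * ρ.T γ * ρ.T δ = ρ.T γ⁻¹ * c * (ρ.T γ * ρ.T δ) := by rw [mul_assoc]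
    _ = ρ.T γ⁻¹ * (c * ρ.T (γ * δ * γ⁻¹)) * ρ.T γ := by rw [h3]; simp only [mul_assoc]
    _ = ρ.T γ⁻¹ * ρ.T (γ * δ * γ⁻¹) * c * ρ.T γ := by rw [h2]; simp only [mul_assoc]
    _ = ρ.T δ * (ρ.T γ⁻¹ * c * ρ.T γ) := by rw [← h4]; simp only [mul_assoc]

private theorem Tz_mem_ne {k : ℕ} (hk : k ≠ 2) {f : MultilinearMap F (fun _ : Fin k => V) F}
    (hf : f ∈ TwoZ ρ k) : f = 0 := by
  have h1 : {f : MultilinearMap F (fun _ : Fin k => V) F | k = 2 ∧ TateG ρ k f} = ∅ := by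
    ext g
    simp [hk]
  rw [TwoZ, h1, Submodule.span_empty] at hf
  exact (Submodule.mem_bot F).1 hf

private theorem Tz_mem_two [T2Space F] [CharZero F] [FiniteDimensional F V]
    [IsTopologicalGroup Γ] {f : MultilinearMap F (fun _ : Fin 2 => V) F}
    (hf : f ∈ TwoZ ρ 2) : ∃ c, InCom ρ c ∧ f = twoF ρ c := by
  unfold TwoZ at hf
  induction hf using Submodule.span_induction with
  | mem f hf => exact Tz_com ρ hf.2
  | zero =>
    refine ⟨0, ⟨⊤, fun γ _ => by rw [zero_mul, mul_zero]⟩, ?_⟩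
    ext v
    simp [twoF_apply]
  | add f g _ _ hf hg =>
    obtain ⟨c, hc, rfl⟩ := hf
    obtain ⟨d, hd, rfl⟩ := hg
    refine ⟨c + d, Tz_add ρ hc hd, ?_⟩
    ext v
    simp [twoF_apply]
  | smul a f _ hf =>
    obtain ⟨c, hc, rfl⟩ := hf
    refine ⟨a • c, Tz_smul ρ a hc, ?_⟩
    ext v
    simp [twoF_apply]

private theorem Tz_mem {c : Module.End F V} (hc : InCom ρ c) : twoF ρ c ∈ TwoZ ρ 2 :=
  Submodule.subset_span ⟨rfl, twoF_tate ρ hc⟩

private theorem Tz_known [T2Space F] [CharZero F] [FiniteDimensional F V]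
    [IsTopologicalGroup Γ] : Known ρ (TwoZ ρ) := by
  constructor
  · intro k f hf
    by_cases hk : k = 2
    · subst hk
      obtain ⟨c, hc, rfl⟩ := Tz_mem_two ρ hf
      exact twoF_tate ρ hc
    · rw [Tz_mem_ne ρ hk hf]
      exact ⟨⊤, fun γ _ v w => by simp⟩
  · intro γ k f hf
    by_cases hk : k = 2
    · subst hk
      obtain ⟨c, hc, rfl⟩ := Tz_mem_two ρ hf
      have h1 : (twoF ρ c).compLinearMap (fun _ => ρ.T γ) =
          twoF ρ (((ρ.χ γ)⁻¹ : Fˣ).val • (ρ.T γ⁻¹ * c * ρ.T γ)) := by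
        ext v
        rw [MultilinearMap.compLinearMap_apply, twoF_apply, twoF_apply, LinearMap.smul_apply,
          map_smul, LinearMap.smul_apply, smul_eq_mul]
        exact Tz_conj ρ c γ (v 0) (v 1)
      rw [h1]
      exact Tz_mem ρ (Tz_smul ρ _ (Tz_cj ρ hc γ))
    · rw [Tz_mem_ne ρ hk hf]
      have h1 : (0 : MultilinearMap F (fun _ : Fin k => V) F).compLinearMap (fun _ => ρ.T γ) =
          0 := by
        ext v
        simp
      rw [h1]
      exact Submodule.zero_mem _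
  · intro f hf
    exact Submodule.subset_span ⟨rfl, hf⟩

private theorem Tz_lie [T2Space F] [CharZero F] [FiniteDimensional F V]
    [IsTopologicalGroup Γ] {X : Module.End F V} (hX : Lef ρ X) : X ∈ LieOf (TwoZ ρ) := by
  intro k f hf v
  by_cases hk : k = 2
  · subst hk
    obtain ⟨c, hc, rfl⟩ := Tz_mem_two ρ hf
    rw [twoF_df]
    have h1 : c (X (v 0)) = X (c (v 0)) := (LinearMap.congr_fun (hX.1 c hc) (v 0)).symm
    rw [h1]
    exact hX.2 _ _
  · rw [Tz_mem_ne ρ hk hf]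
    simp [DF]

end rep

theorem tTz (l : ℕ) [Fact l.Prime] : S_Tz l := by
  intro Γ _ _ _ _ V _ _ _ ρ
  exact ⟨Tz_known ρ, fun X => ⟨fun h => lef_of_lieOf ρ (Tz_known ρ) h, fun h => Tz_lie ρ h⟩⟩

end Pool.Agent.Lib.MP_640417_ag.Kf
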