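import Pool.Agent.Lib.MP_640417_ag.Kf.Spec

/-!
# MP_640417_ag, Kf, module Wl: a relation gives a form on which the skew maps act by the relation between traces
-/

set_option autoImplicit false

namespace Pool.Agent.Lib.MP_640417_ag.Kf

open Polynomial Matrix Module TensorProduct MeasureTheory Pool.Agent.Lib.MP_640417_ag
  Pool.Agent.Lib.MP_640417_ag.Frob Pool.Agent.Lib.MP_640417_ag.Glob
  Pool.Agent.Lib.MP_640417_ag.Ctl Pool.Agent.Lib.MP_640417_ag.Ty Pool.Agent.Lib.MP_640417_ag.Gen4
  Pool.Agent.Lib.MP_640417_ag.Dfr Pool.Agent.Lib.MP_640417_ag.Fr Pool.Agent.Lib.MP_640417_ag.Fg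
  Pool.Agent.Lib.MP_640417_ag.Orth

private theorem Wl_unique {K V : Type} [Field K] [AddCommGroup V] [Module K V]
    {form : LinearMap.BilinForm K V} (hnd' : ∀ y, (∀ x, form x y = 0) → y = 0)
    {A A' A'' : Module.End K V} (h1 : RelM.Adj form A A') (h2 : RelM.Adj form A A'') :
    A' = A'' := by
  refine LinearMap.ext fun y => ?_
  rw [← sub_eq_zero]
  apply hnd'
  intro x
  rw [map_sub, ← h1, ← h2, sub_self]

private theorem Wl_sum {M : Type} [AddCommMonoid M] {A : Type} {k : ℕ} (σ : Fin k → ℕ)
    (q : Fin k → A) (f : A → M) :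
    (((List.finRange k).flatMap fun j => List.replicate (σ j) (q j)).map f).sum =
      ∑ j, σ j • f (q j) := by
  have key : ∀ l : List (Fin k), ((l.flatMap fun j => List.replicate (σ j) (q j)).map f).sum =
      (l.map fun j => σ j • f (q j)).sum := by
    intro l
    induction l with
    | nil => rfl
    | cons a l ih =>
      rw [List.flatMap_cons, List.map_append, List.sum_append, ih, List.map_cons, List.sum_cons,
        List.map_replicate, List.sum_replicate]
  rw [key, ← List.ofFn_eq_map, List.sum_ofFn]

private theorem Wl_prod {M : Type} [CommMonoid M] {A : Type} {k : ℕ} (σ : Fin k → ℕ)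
    (q : Fin k → A) (f : A → M) :
    (((List.finRange k).flatMap fun j => List.replicate (σ j) (q j)).map f).prod =
      ∏ j, f (q j) ^ σ j := by
  have key : ∀ l : List (Fin k), ((l.flatMap fun j => List.replicate (σ j) (q j)).map f).prod =
      (l.map fun j => f (q j) ^ σ j).prod := by
    intro l
    induction l with
    | nil => rfl
    | cons a l ih =>
      rw [List.flatMap_cons, List.map_append, List.prod_append, ih, List.map_cons, List.prod_cons,
        List.map_replicate, List.prod_replicate]
  rw [key, ← List.ofFn_eq_map, List.prod_ofFn]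

open Pool.Agent.Lib.MP_640417_ag.Dfr.RelM in
/-- S_Wl -/
theorem tWl (h1 : S_Dl) : S_Wl := by
  intro K _ _ V _ _ _ form C hnd hnd' hadj k p s hp
  obtain ⟨z, hz⟩ : ∃ z, z = ∑ j, (s j : K) • p j := ⟨_, rfl⟩
  have hex : ∀ j, ∃ A', Adj form (p j) A' := by
    intro j
    obtain ⟨c', -, hc'⟩ := hadj (p j) (hp.mem j)
    exact ⟨c', hc'⟩
  choose p' hp' using hex
  have hzs : Adj form z (-z) := by
    intro x y
    have h := hp.skew x y
    rw [← hz] at h
    rw [LinearMap.neg_apply, map_neg]
    exact eq_neg_of_add_eq_zero_left h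
  -- the idempotents
  have hp'i : ∀ j, p' j * p' j = p' j := fun j =>
    Wl_unique hnd' ((hp' j).mul (hp' j)) (by rw [hp.idem]; exact hp' j)
  -- ranks
  have hrk : ∀ j, finrank K (LinearMap.range (p' j)) = finrank K (LinearMap.range (p j)) := by
    intro j
    have h1 := (hp' j).trace hnd
    rw [trace_idem (hp'i j), trace_idem (hp.idem j)] at h1
    exact_mod_cast h1
  have htr : ∑ j, s j * (finrank K (LinearMap.range (p j)) : ℤ) = 0 := by
    have h1 := hzs.trace hnd
    rw [map_neg] at h1
    have h2 : LinearMap.trace K V z = 0 := by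
      have h3 : (2 : K) * LinearMap.trace K V z = 0 := by linear_combination -h1
      exact (mul_eq_zero.mp h3).resolve_left two_ne_zero
    rw [hz, map_sum] at h2
    have h3 : ((∑ j, s j * (finrank K (LinearMap.range (p j)) : ℤ) : ℤ) : K) = 0 := by
      rw [← h2]
      push_cast
      refine Finset.sum_congr rfl fun j _ => ?_
      rw [map_smul, trace_idem (hp.idem j), smul_eq_mul]
    exact_mod_cast h3
  -- the family of idempotents
  let σ : Fin k → ℕ := fun j => (s j).natAbs
  let q : Fin k → Module.End K V := fun j => if 0 < s j then p j else p' j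
  have hq1 : ∀ j, 0 < s j → q j = p j := fun j h => if_pos h
  have hq2 : ∀ j, ¬ 0 < s j → q j = p' j := fun j h => if_neg h
  have hqi : ∀ j, q j * q j = q j := by
    intro j
    by_cases h : 0 < s j
    · rw [hq1 j h]
      exact hp.idem j
    · rw [hq2 j h]
      exact hp'i j
  have hqrk : ∀ j, finrank K (LinearMap.range (q j)) = finrank K (LinearMap.range (p j)) := by
    intro j
    by_cases h : 0 < s j
    · rw [hq1 j h]
    · rw [hq2 j h]
      exact hrk j
  obtain ⟨L, hL⟩ : ∃ L : List (Module.End K V),
      L = (List.finRange k).flatMap fun j => List.replicate (σ j) (q j) := ⟨_, rfl⟩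
  have hLm : ∀ a ∈ L, ∃ j, a = q j := by
    intro a ha
    rw [hL, List.mem_flatMap] at ha
    obtain ⟨j, -, hj⟩ := ha
    exact ⟨j, List.eq_of_mem_replicate hj⟩
  obtain ⟨n, f, hf0, hn, hfg, hfX⟩ := h1 K V L (fun a ha => by
    obtain ⟨j, rfl⟩ := hLm a ha
    exact hqi j)
  obtain ⟨i, hi⟩ : ∃ i : ℕ, i = ∑ j, (-s j).toNat * finrank K (LinearMap.range (p j)) :=
    ⟨_, rfl⟩
  have hn' : n = ∑ j, (s j).natAbs * finrank K (LinearMap.range (p j)) := by
    rw [hn, hL, Wl_sum σ q (fun a => finrank K (LinearMap.range a))]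
    refine Finset.sum_congr rfl fun j _ => ?_
    rw [hqrk, smul_eq_mul]
  have hdeg : 2 * i = ∑ j, (s j).natAbs * finrank K (LinearMap.range (p j)) := by
    have h1 : ((∑ j, (s j).natAbs * finrank K (LinearMap.range (p j)) : ℕ) : ℤ) =
        ((2 * i : ℕ) : ℤ) := by
      have h2 : ((∑ j, (s j).natAbs * finrank K (LinearMap.range (p j)) : ℕ) : ℤ) =
          ∑ j, (s j * (finrank K (LinearMap.range (p j)) : ℤ) +
            2 * (((-s j).toNat : ℤ) * (finrank K (LinearMap.range (p j)) : ℤ))) := by
        rw [Nat.cast_sum]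
        refine Finset.sum_congr rfl fun j _ => ?_
        have h3 : (((s j).natAbs : ℕ) : ℤ) = s j + 2 * ((-s j).toNat : ℤ) := by
          omega
        rw [Nat.cast_mul, h3]
        ring
      rw [h2, Finset.sum_add_distrib, htr, zero_add, ← Finset.mul_sum, hi]
      push_cast
      rfl
    exact_mod_cast h1.symm
  have hn2 : n = 2 * i := hn'.trans hdeg.symm
  subst hn2
  refine ⟨i, f, hf0, hdeg, ?_, ?_⟩
  · intro g μ hgu hμ hgf hpg hdet v
    obtain ⟨u, rfl⟩ := hgu
    have huu : (u : Module.End K V) * ((u⁻¹ : (Module.End K V)ˣ) : Module.End K V) = 1 :=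
      u.mul_inv
    have huu' : ((u⁻¹ : (Module.End K V)ˣ) : Module.End K V) * (u : Module.End K V) = 1 :=
      u.inv_mul
    obtain ⟨w, hw⟩ : ∃ w : Module.End K V, w = ((u⁻¹ : (Module.End K V)ˣ) : Module.End K V) :=
      ⟨_, rfl⟩
    rw [← hw] at huu huu'
    obtain ⟨g, hg⟩ : ∃ g : Module.End K V, g = (u : Module.End K V) := ⟨_, rfl⟩
    rw [← hg] at huu huu' hgf hpg hdet ⊢
    have hTa : Adj form g (μ • w) := by
      intro x y
      rw [LinearMap.smul_apply, map_smul, smul_eq_mul, ← hgf, ← Module.End.mul_apply, huu,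
        Module.End.one_apply]
    have hp'w : ∀ j, w * p' j = p' j * w := by
      intro j
      have h1 : Adj form (p j * g) ((μ • w) * p' j) := (hp' j).mul hTa
      have h2 : Adj form (g * p j) (p' j * (μ • w)) := hTa.mul (hp' j)
      rw [← hpg j] at h2
      have h3 := Wl_unique hnd' h1 h2
      rw [smul_mul_assoc, mul_smul_comm] at h3
      exact smul_right_injective _ hμ h3
    have hp'T : ∀ j, p' j * g = g * p' j := by
      intro j
      calc p' j * g = g * (w * p' j) * g := by rw [← mul_assoc, huu, one_mul]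
        _ = g * (p' j * w) * g := by rw [hp'w]
        _ = g * p' j * (w * g) := by simp only [mul_assoc]
        _ = g * p' j := by rw [huu', mul_one]
    have hdd : ∀ j, LinearMap.det (p j * g + (1 - p j)) *
        LinearMap.det (p' j * g + (1 - p' j)) =
          μ ^ finrank K (LinearMap.range (p j)) := by
      intro j
      have h1 : Adj form (p j * g + (1 - p j)) ((μ • w) * p' j + (1 - p' j)) :=
        ((hp' j).mul hTa).add (Adj.one.sub (hp' j))
      have h3 : (μ • w) * p' j + (1 - p' j) = p' j * (μ • w) + (1 - p' j) := by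
        rw [smul_mul_assoc, mul_smul_comm, hp'w]
      have h4 : g * (μ • w) = μ • 1 := by
        rw [mul_smul_comm, huu]
      rw [← h1.det hnd, h3, mul_comm, ← det_mul' (hp'i j) (hp'T j), h4,
        det_smul' (hp'i j), hrk]
    have hqT : ∀ j, q j * g = g * q j := by
      intro j
      by_cases h : 0 < s j
      · rw [hq1 j h]
        exact hpg j
      · rw [hq2 j h]
        exact hp'T j
    have h1 := hfg g (fun a ha => by
      obtain ⟨j, rfl⟩ := hLm a ha
      exact hqT j) v
    rw [h1, hL, Wl_prod σ q (fun a => LinearMap.det (a * g + (1 - a)))]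
    have hd0 : ∀ j, LinearMap.det (p j * g + (1 - p j)) ≠ 0 := by
      intro j h
      have h2 := hdd j
      rw [h, zero_mul] at h2
      exact (pow_ne_zero _ hμ) h2.symm
    have h2 : ∀ j, LinearMap.det (q j * g + (1 - q j)) ^ σ j =
        LinearMap.det (p j * g + (1 - p j)) ^ s j *
          μ ^ ((-s j).toNat * finrank K (LinearMap.range (p j))) := by
      intro j
      by_cases h : 0 < s j
      · have h3 : s j = (σ j : ℤ) := (Int.natAbs_of_nonneg h.le).symm
        have h4 : (-s j).toNat = 0 := by omega
        rw [hq1 j h, h4, zero_mul, pow_zero, mul_one, ← zpow_natCast, ← h3]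
      · have h3 : s j = -(σ j : ℤ) := by
          change s j = -((s j).natAbs : ℤ)
          omega
        have h4 : (-s j).toNat = σ j := by
          change (-s j).toNat = (s j).natAbs
          omega
        rw [hq2 j h, h4, mul_comm (σ j), pow_mul, ← hdd j, mul_pow]
        rw [h3, _root_.zpow_neg, zpow_natCast, ← mul_assoc, inv_mul_cancel₀ (pow_ne_zero _ (hd0 j)),
          one_mul]
    have h3 : ∏ j, LinearMap.det (q j * g + (1 - q j)) ^ σ j = μ ^ i := by
      rw [detProd] at hdet
      rw [Finset.prod_congr rfl fun j _ => h2 j, Finset.prod_mul_distrib, hdet, one_mul,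
        Finset.prod_pow_eq_pow_sum, hi]
    rw [h3]
  · intro w hw hwp v
    have hws : Adj form w (-w) := by
      intro x y
      have h := hw x y
      rw [LinearMap.neg_apply, map_neg]
      exact eq_neg_of_add_eq_zero_left h
    have hadj : ∀ j, Adj form (p j * w) (-w * p' j) := fun j => (hp' j).mul hws
    have hp'w : ∀ j, p' j * w = w * p' j := by
      intro j
      have h1 := hadj j
      have h2 : Adj form (w * p j) (p' j * -w) := hws.mul (hp' j)
      rw [← hwp j] at h2
      have h3 := Wl_unique hnd' h1 h2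
      rw [neg_mul, mul_neg] at h3
      exact (neg_injective h3).symm
    have htrw : ∀ j, LinearMap.trace K V (p' j * w) = - LinearMap.trace K V (p j * w) := by
      intro j
      have h1 := (hadj j).trace hnd
      rw [neg_mul, map_neg] at h1
      rw [hp'w j, ← h1, neg_neg]
    have hqw : ∀ j, q j * w = w * q j := by
      intro j
      by_cases h : 0 < s j
      · rw [hq1 j h]
        exact hwp j
      · rw [hq2 j h]
        exact hp'w j
    rw [hfX w (fun a ha => by
      obtain ⟨j, rfl⟩ := hLm a ha
      exact hqw j) v]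
    congr 1
    rw [hL, Wl_sum σ q (fun a => LinearMap.trace K V (a * w))]
    refine Finset.sum_congr rfl fun j _ => ?_
    rw [nsmul_eq_mul]
    by_cases h : 0 < s j
    · have h1 : ((σ j : ℕ) : K) = (s j : K) := by
        have h2 : ((σ j : ℕ) : ℤ) = s j := Int.natAbs_of_nonneg h.le
        rw [← Int.cast_natCast, h2]
      rw [hq1 j h, h1]
    · have h1 : ((σ j : ℕ) : K) = -(s j : K) := by
        have h2 : ((σ j : ℕ) : ℤ) = -s j := by
          change ((s j).natAbs : ℤ) = -s j
          omega
        rw [← Int.cast_natCast, h2, Int.cast_neg]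
      rw [hq2 j h, h1, htrw j, neg_mul_neg]

end Pool.Agent.Lib.MP_640417_ag.Kf
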