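import Pool.Agent.Lib.MP_640417_ag.Kf.Spec

/-!
# MP_640417_ag, Kf, module `Wp`: products of the roots of a polynomial of weight `b` are Weil numbers
-/

set_option autoImplicit false

namespace Pool.Agent.Lib.MP_640417_ag.Kf

open Polynomial Matrix Module TensorProduct MeasureTheory Pool.Agent.Lib.MP_640417_ag
  Pool.Agent.Lib.MP_640417_ag.Frob Pool.Agent.Lib.MP_640417_ag.Glob
  Pool.Agent.Lib.MP_640417_ag.Ctl Pool.Agent.Lib.MP_640417_ag.Ty Pool.Agent.Lib.MP_640417_ag.Gen4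
  Pool.Agent.Lib.MP_640417_ag.Dfr Pool.Agent.Lib.MP_640417_ag.Fr Pool.Agent.Lib.MP_640417_ag.Fg
  Pool.Agent.Lib.MP_640417_ag.Orth

private lemma Wp_one {L : Type} [Field L] [CharZero L] (p : ℕ) : Wn.WeilNum p 0 (1 : L) where
  int := isIntegral_one
  quot := ⟨1, isIntegral_one, by rw [pow_zero, mul_one]⟩
  norm φ := by rw [map_one, norm_one, pow_zero, one_pow]

private lemma Wp_mul {L : Type} [Field L] [CharZero L] {p m n : ℕ} {D E : L}
    (hD : Wn.WeilNum p m D) (hE : Wn.WeilNum p n E) : Wn.WeilNum p (m + n) (D * E) where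
  int := hD.int.mul hE.int
  quot := by
    obtain ⟨D', h1, h2⟩ := hD.quot
    obtain ⟨E', h3, h4⟩ := hE.quot
    refine ⟨D' * E', h1.mul h3, ?_⟩
    rw [pow_add, ← h2, ← h4]
    ring
  norm φ := by
    rw [map_mul, norm_mul, mul_pow, hD.norm, hE.norm, pow_add]

private lemma Wp_hom {A B : Type} [CommRing A] [CommRing B] (φ : A →+* B) (z : A) (P : ℤ[X]) :
    aeval (φ z) P = φ (aeval z P) :=
  Polynomial.aeval_algHom_apply φ.toIntAlgHom z P

private lemma Wp_root {L : Type} [Field L] [CharZero L] {P : ℤ[X]} (hP : P.Monic) {p : ℕ}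
    (hp : p.Prime) {b : ℕ} (hz : ∀ z : ℂ, aeval z P = 0 → ‖z‖ ^ 2 = (p : ℝ) ^ b) (φ₀ : L →+* ℂ)
    {z : L} (h : aeval z P = 0) : Wn.WeilNum p b z := by
  have hp0 : (p : ℝ) ^ b ≠ 0 := pow_ne_zero _ (Nat.cast_ne_zero.2 hp.ne_zero)
  have h1 : ∀ φ : L →+* ℂ, ‖φ z‖ ^ 2 = (p : ℝ) ^ b := by
    intro φ
    apply hz
    rw [Wp_hom, h, map_zero]
  have hz0 : z ≠ 0 := by
    intro h0
    have h2 := h1 φ₀
    rw [h0, map_zero, norm_zero] at h2
    apply hp0
    rw [← h2]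
    norm_num
  refine ⟨⟨P, hP, h⟩, ⟨(p : L) ^ b / z, ⟨P, hP, ?_⟩, ?_⟩, ?_⟩
  · apply φ₀.injective
    have h3 : φ₀ ((p : L) ^ b / z) = (starRingEnd ℂ) (φ₀ z) := by
      have h4 : φ₀ z ≠ 0 := by
        intro h5
        exact hz0 (φ₀.injective (by rw [h5, map_zero]))
      rw [map_div₀, map_pow, map_natCast, div_eq_iff h4, mul_comm, Complex.mul_conj,
        Complex.normSq_eq_norm_sq, h1 φ₀]
      simp
    have h5 : aeval (φ₀ ((p : L) ^ b / z)) P = 0 := by
      rw [h3, Wp_hom (starRingEnd ℂ) (φ₀ z) P, Wp_hom φ₀ z P, h, map_zero, map_zero]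
    rw [map_zero, ← h5]
    exact (Wp_hom φ₀ _ P).symm
  · rw [mul_div_cancel₀ _ hz0]
  · intro φ
    rw [h1 φ]

theorem tWp : S_Wp := by
  intro Ω _ _ P hP p hp b hz R hR
  have : FiniteDimensional ℚ (Wn.rootField Ω P) := (Wn.rootField_finite Ω hP).1
  have : Algebra.IsAlgebraic ℚ (Wn.rootField Ω P) := Algebra.IsAlgebraic.of_finite _ _
  let φ₀ : Wn.rootField Ω P →ₐ[ℚ] ℂ := IsAlgClosed.lift
  induction R using Multiset.induction_on with
  | empty =>
    refine ⟨1, ?_, ?_⟩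
    · rw [Multiset.prod_zero]
      exact OneMemClass.coe_one _
    · rw [Multiset.card_zero, mul_zero]
      exact Wp_one p
  | cons z R ih =>
    obtain ⟨D, h1, h2⟩ := ih fun w hw => hR w (Multiset.mem_cons_of_mem hw)
    have h3 : aeval z P = 0 := hR z (Multiset.mem_cons_self z R)
    have h4 : z ∈ Wn.rootField Ω P := IntermediateField.subset_adjoin ℚ _ h3
    have h5 : aeval (⟨z, h4⟩ : Wn.rootField Ω P) P = 0 := by
      apply (Wn.rootField Ω P).val.toRingHom.injective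
      rw [← Wp_hom, map_zero]
      exact h3
    refine ⟨⟨z, h4⟩ * D, ?_, ?_⟩
    · rw [Multiset.prod_cons, ← h1]
      rfl
    · rw [Multiset.card_cons, mul_add, mul_one, add_comm]
      exact Wp_mul (Wp_root hP hp hz φ₀.toRingHom h5) h2

end Pool.Agent.Lib.MP_640417_ag.Kf
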