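import Pool.Agent.Lib.MP_640417_ag.Kf.AsmC
import Pool.Agent.Lib.MP_640417_ag.Kf.Kp
import Pool.Agent.Lib.MP_640417_ag.Kf.Gf
import Pool.Agent.Lib.MP_640417_ag.Kf.Dk
import Pool.Agent.Lib.MP_640417_ag.Kf.Dt
import Pool.Agent.Lib.MP_640417_ag.Kf.Cr
import Pool.Agent.Lib.MP_640417_ag.Kf.Tw
import Pool.Agent.Lib.MP_640417_ag.Kf.Dl
import Pool.Agent.Lib.MP_640417_ag.Kf.Wl
import Pool.Agent.Lib.MP_640417_ag.Kf.Nw
import Pool.Agent.Lib.MP_640417_ag.Kf.Ck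
import Pool.Agent.Lib.MP_640417_ag.Kf.Rl
import Pool.Agent.Lib.MP_640417_ag.Kf.Cs
import Pool.Agent.Lib.MP_640417_ag.Kf.Cn
import Pool.Agent.Lib.MP_640417_ag.Kf.Wp
import Pool.Agent.Lib.MP_640417_ag.Kf.Elb
import Pool.Agent.Lib.MP_640417_ag.Kf.Nrb
import Pool.Agent.Lib.MP_640417_ag.Kf.Fd
import Pool.Agent.Lib.MP_640417_ag.Kf.Lx
import Pool.Agent.Lib.MP_640417_ag.Kf.Bd
import Pool.Agent.Lib.MP_640417_ag.Kf.Tz

/-!
# MP_640417_ag, Kf: the motivic Mumford-Tate conjecture for every variety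
-/

set_option autoImplicit false

namespace Pool.Agent.Lib.MP_640417_ag.Kf

open Module TensorProduct MeasureTheory Pool.Agent.Lib.MP_640417_ag
  Pool.Agent.Lib.MP_640417_ag.Frob Pool.Agent.Lib.MP_640417_ag.Glob
  Pool.Agent.Lib.MP_640417_ag.Dfr Pool.Agent.Lib.MP_640417_ag.Fr Pool.Agent.Lib.MP_640417_ag.Fg

/-- **One Tate form, one Frobenius element or a bounded number of variables decide** if the Lie algebra of the known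
forms kills all Tate forms. -/
theorem known_classes (l : ℕ) [Fact l.Prime] {Γ : Type} [Group Γ] [TopologicalSpace Γ]
    [IsTopologicalGroup Γ] [CompactSpace Γ] [MeasurableSpace Γ] [BorelSpace Γ]
    (ν : Measure Γ) [ν.IsHaarMeasure] {V : Type} [AddCommGroup V] [Module ℚ_[l] V]
    [FiniteDimensional ℚ_[l] V] (ρ : FormRep Γ ℚ_[l] V) (hss : Fr.Semisimple ρ) :
    ∃ κ : MultilinearMap ℚ_[l] (fun _ : Fin 4 => V) ℚ_[l], TateG ρ 4 κ ∧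
      (∀ Z : Fam ℚ_[l] V, Known ρ Z →
        List.TFAE [∀ k, Controls ρ (LieOf Z) k, Controls ρ (LieOf Z) 4,
          ∀ X ∈ LieOf Z, ∀ v, DF X κ v = 0, NearOne ν (GoodFor ρ (LieOf Z)),
          ∃ γ, GoodFor ρ (LieOf Z) γ] ∧
        ∀ c b, Dense {γ | FrobLike ρ c b γ} →
          List.TFAE [KillsAll ρ (LieOf Z),
            ∀ k ≤ bnd (finrank ℚ_[l] V) b, ∀ f, TateG ρ k f → ∀ X ∈ LieOf Z, ∀ v, DF X f v = 0,
            (∀ X ∈ LieOf Z, ∀ v, DF X κ v = 0) ∧ ¬ WeilFor ρ (LieOf Z),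
            NearOne ν (fun γ => GoodFor ρ (LieOf Z) γ ∧ (FrobLike ρ c b γ → DetFor ρ (LieOf Z) γ)),
            ∃ γ, FrobLike ρ c b γ ∧ GoodFor ρ (LieOf Z) γ ∧ DetFor ρ (LieOf Z) γ]) ∧
      Known ρ (TwoZ ρ) ∧ (∀ X, X ∈ LieOf (TwoZ ρ) ↔ Lef ρ X) ∧
      List.TFAE [∀ k, Controls ρ (LieOf (TwoZ ρ)) k, ∀ k f, TateG ρ k f → Generated ρ k f,
        ∀ f, TateG ρ 4 f → (∀ z, CenSkew ρ z → ∀ v, DF z f v = 0) → Generated ρ 4 f,
        Near ν (GoodF ρ), ∀ D : Set Γ, Dense D → ∃ γ ∈ D, GoodF ρ γ, ∃ γ, DetectsF ρ γ] := by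
  obtain ⟨κ, hκ, hT⟩ := part_a l ρ (tKp l) (tGf tDk) ν hss
  have hTw : S_Tw := tTw tDk tDt (tCr tDk)
  have hNw : S_Nw := tNw (tWl tDl)
  have hElb : S_Elb := tElb tWp
  have hNrb : S_Nrb l := tNrb l hElb
  have hRl : S_Rl l := tRl l
  have hCs : S_Cs l := tCs l
  have hCn : S_Cn l := tCn l hTw tCk hRl hCs
  have hBd : S_Bd l := tBd l tDk tDt (tCr tDk) hTw hNw hRl hCs hElb hNrb
  refine ⟨κ, hκ, fun Z hZ => ⟨hT Z hZ, fun c b hF => ?_⟩, (tTz l Γ V ρ).1, (tTz l Γ V ρ).2,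
    part_z l (tTz l) ν ρ hss⟩
  exact part_c l hCn hNw hTw hNrb tFd tLx hBd ν ρ hss κ hκ Z hZ (hT Z hZ) c b hF

end Pool.Agent.Lib.MP_640417_ag.Kf
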