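import Pool.Agent.Lib.MP_640417_ag.Kf.Defs
import Pool.Agent.Lib.MP_640417_ag.Fr.DerL
import Pool.Agent.Lib.MP_640417_ag.Fg.BcF
import Pool.Agent.Lib.MP_640417_ag.Mt.Defs

/-!
# MP_640417_ag, Kf, module HlF: the Lie algebra which kills the known forms, in coordinates of the double
-/

set_option autoImplicit false

namespace Pool.Agent.Lib.MP_640417_ag.Kf

open Matrix Module TensorProduct Pool.Agent.Lib.MP_640417_ag Pool.Agent.Lib.MP_640417_ag.Frob
  Pool.Agent.Lib.MP_640417_ag.Glob Pool.Agent.Lib.MP_640417_ag.Ctl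
  Pool.Agent.Lib.MP_640417_ag.Ty Pool.Agent.Lib.MP_640417_ag.Gen4
  Pool.Agent.Lib.MP_640417_ag.Fr Pool.Agent.Lib.MP_640417_ag.Fg Pool.Agent.Lib.MP_640417_ag.Orth

section alg

variable {F : Type} [Field F] {V : Type} [AddCommGroup V] [Module F V]

theorem df_eq (X : Module.End F V) {k : ℕ} (f : MultilinearMap F (fun _ : Fin k => V) F)
    (v : Fin k → V) : DF X f v = Dm X f v := (Dm_apply X f v).symm

theorem df_iff (X : Module.End F V) {k : ℕ} (f : MultilinearMap F (fun _ : Fin k => V) F) :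
    (∀ v, DF X f v = 0) ↔ Dm X f = 0 := by
  constructor
  · intro h
    ext v
    rw [← df_eq, h, MultilinearMap.zero_apply]
  · intro h v
    rw [df_eq, h, MultilinearMap.zero_apply]

/-- `LieOf Z` as a submodule -/
def lieS (Z : Fam F V) : Submodule F (Module.End F V) where
  carrier := LieOf Z
  zero_mem' := fun k f _ => (df_iff _ f).2 (Dm_zero f)
  add_mem' := fun {X Y} hX hY k f hf => (df_iff _ f).2 (by
    rw [Dm_add, (df_iff X f).1 (hX k f hf), (df_iff Y f).1 (hY k f hf), add_zero])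
  smul_mem' := fun c X hX k f hf => (df_iff _ f).2 (by
    rw [Dm_smul, (df_iff X f).1 (hX k f hf), smul_zero])

theorem mem_lieS {Z : Fam F V} {X : Module.End F V} : X ∈ lieS Z ↔ X ∈ LieOf Z := Iff.rfl

theorem lieS_comm {Z : Fam F V} {X Y : Module.End F V} (hX : X ∈ LieOf Z) (hY : Y ∈ LieOf Z) :
    X * Y - Y * X ∈ LieOf Z := fun k f hf => (df_iff _ f).2 (by
  rw [Dm_comm, (df_iff X f).1 (hX k f hf), (df_iff Y f).1 (hY k f hf), Dm_zero_form, Dm_zero_form,
    sub_zero])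

variable {I : Type} [Fintype I] [DecidableEq I]

/-- the matrix of `X` on the double -/
noncomputable def mtx (e : Basis I F (V × V)) : Module.End F V →ₗ[F] Matrix I I F where
  toFun X := LinearMap.toMatrix e e (X.prodMap X)
  map_add' X Y := by
    rw [← map_add]
    congr 1
  map_smul' c X := by
    rw [RingHom.id_apply, ← map_smul]
    congr 1

theorem mtx_apply (e : Basis I F (V × V)) (X : Module.End F V) :
    mtx e X = LinearMap.toMatrix e e (X.prodMap X) := rfl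

theorem mtx_mul (e : Basis I F (V × V)) (X Y : Module.End F V) :
    mtx e (X * Y) = mtx e X * mtx e Y := by
  rw [mtx_apply, mtx_apply, mtx_apply, ← LinearMap.toMatrix_mul]
  congr 1

theorem cm_mtx (e : Basis I F (V × V)) (X : Module.End F V) : cm e (mtx e X) = X := by
  rw [mtx_apply, cm_toMatrix, cmp_prodMap, if_pos rfl]

theorem mtx_inj (e : Basis I F (V × V)) {X Y : Module.End F V} (h : mtx e X = mtx e Y) : X = Y := by
  rw [← cm_mtx e X, h, cm_mtx]

theorem mtx_one (e : Basis I F (V × V)) : mtx e (1 : Module.End F V) = 1 := by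
  rw [mtx_apply]
  have h : (1 : Module.End F V).prodMap (1 : Module.End F V) = (1 : Module.End F (V × V)) := by
    refine LinearMap.ext fun x => ?_
    rfl
  rw [h, LinearMap.toMatrix_one]

end alg

section two

variable {Γ : Type} [Group Γ] [TopologicalSpace Γ] {F : Type} [Field F]
  [TopologicalSpace F] {V : Type} [AddCommGroup V] [Module F V] (ρ : FormRep Γ F V)

/-- the form `form (c x) y` -/
noncomputable def twoF (c : Module.End F V) : MultilinearMap F (fun _ : Fin 2 => V) F where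
  toFun v := ρ.form (c (v 0)) (v 1)
  map_update_add' {_} v i x y := by
    fin_cases i <;> simp
  map_update_smul' {_} v i c x := by
    fin_cases i <;> simp

theorem twoF_apply (c : Module.End F V) (v : Fin 2 → V) :
    twoF ρ c v = ρ.form (c (v 0)) (v 1) := rfl

theorem twoF_tate {c : Module.End F V} (hc : InCom ρ c) : TateG ρ 2 (twoF ρ c) := by
  obtain ⟨U, hU⟩ := hc
  refine ⟨U, fun γ hγ v w => ?_⟩
  have h1 : ∀ u : Fin 2 → V, twoF ρ c (fun j => ρ.T γ (u j)) =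
      ((ρ.χ γ)⁻¹ : Fˣ).val * twoF ρ c u := by
    intro u
    rw [twoF_apply, twoF_apply]
    have h2 : c (ρ.T γ (u 0)) = ρ.T γ (c (u 0)) := LinearMap.congr_fun (hU γ hγ) (u 0)
    rw [h2, ρ.form_equivariant]
  have h3 : ((ρ.χ γ : Fˣ) : F) * ((ρ.χ γ)⁻¹ : Fˣ).val = 1 := Units.mul_inv _
  rw [h1, h1]
  linear_combination (((ρ.χ γ : Fˣ) : F) * ((ρ.χ γ)⁻¹ : Fˣ).val + 1) * twoF ρ c v *
    twoF ρ c w * h3

theorem twoF_df (c X : Module.End F V) (v : Fin 2 → V) :
    DF X (twoF ρ c) v = ρ.form (c (X (v 0))) (v 1) + ρ.form (c (v 0)) (X (v 1)) := by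
  unfold DF
  rw [Fin.sum_univ_two, twoF_apply, twoF_apply]
  simp

/-- an element which kills the known forms is a Lefschetz element -/
theorem lef_of_lieOf {Z : Fam F V} (hZ : Known ρ Z) {X : Module.End F V} (hX : X ∈ LieOf Z) :
    Lef ρ X := by
  have h1 : ∀ c, InCom ρ c → ∀ x y, ρ.form (c (X x)) y + ρ.form (c x) (X y) = 0 := by
    intro c hc x y
    have h2 := hX 2 _ (hZ.two _ (twoF_tate ρ hc)) ![x, y]
    rw [twoF_df] at h2
    exact h2
  have h2 : ∀ x y, ρ.form (X x) y + ρ.form x (X y) = 0 :=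
    h1 1 ⟨⊤, fun γ _ => by rw [one_mul, mul_one]⟩
  refine ⟨fun c hc => LinearMap.ext fun x => ?_, h2⟩
  have h3 : ∀ y, ρ.form (c (X x) - X (c x)) y = 0 := by
    intro y
    rw [map_sub, LinearMap.sub_apply]
    have h4 := h1 c hc x y
    have h5 := h2 (c x) y
    linear_combination h4 - h5
  exact (sub_eq_zero.1 (ρ.form_nondeg _ h3)).symm

/-- conjugates -/
theorem lieOf_conj {Z : Fam F V} (hZ : Known ρ Z) {X : Module.End F V} (hX : X ∈ LieOf Z)
    (γ : Γ) : ρ.T γ * X * ρ.T γ⁻¹ ∈ LieOf Z := by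
  intro k f hf
  have h1 : ρ.T γ * ρ.T γ⁻¹ = 1 := by rw [← map_mul, mul_inv_cancel, map_one]
  have h2 : ρ.T γ⁻¹ * ρ.T γ = 1 := by rw [← map_mul, inv_mul_cancel, map_one]
  rw [df_iff]
  have h3 := (df_iff X _).1 (hX k _ (hZ.stable γ k f hf))
  have h4 : Dm X (pull (ρ.T γ) f) = pull (ρ.T γ) (Dm (ρ.T γ * X * ρ.T γ⁻¹) f) := by
    refine Dm_pull _ _ _ ?_ f
    rw [mul_assoc, h2, mul_one]
  have h5 : pull (ρ.T γ) (Dm (ρ.T γ * X * ρ.T γ⁻¹) f) = 0 := h4.symm.trans h3
  ext v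
  have h6 := congrArg (fun g : Mf F V k => g fun i => ρ.T γ⁻¹ (v i)) h5
  simp only [pull_apply, MultilinearMap.zero_apply] at h6
  rw [MultilinearMap.zero_apply, ← h6]
  congr 1
  funext i
  exact (LinearMap.congr_fun h1 (v i)).symm

end two

section main

variable (l : ℕ) [Fact l.Prime] {Γ : Type} [Group Γ]
    [TopologicalSpace Γ] [IsTopologicalGroup Γ] [CompactSpace Γ] {V : Type} [AddCommGroup V]
    [Module ℚ_[l] V] [FiniteDimensional ℚ_[l] V] (ρ : FormRep Γ ℚ_[l] V)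
    {I : Type} [Fintype I] [DecidableEq I] (e : Basis I ℚ_[l] (V × V)) (R : MRep Γ ℚ_[l] I)
    (h1 : ∀ γ, R.M γ = LinearMap.toMatrix e e ((dbl ρ).T γ)) (h2 : R.μ = ρ.χ⁻¹)
    (h3 : ∀ i j, R.J i j = (dbl ρ).form (e i) (e j))

include h1 h3 in
/-- a Lefschetz element in coordinates -/
theorem lef_mtx (X : Module.End ℚ_[l] V) : Lef ρ X ↔ mtx e X ∈ spJ R.J ∧
    ∀ b, R.InC b → mtx e X * b = b * mtx e X := by
  rw [mtx_apply, ← lef_coord l (dbl ρ) e R h1 h3, lef_dbl]
  constructor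
  · intro h
    exact ⟨X, h, rfl⟩
  · rintro ⟨Y, hY, h⟩
    have h4 : X = Y := LinearMap.ext fun x =>
      congrArg Prod.fst (LinearMap.congr_fun h (x, (0 : V)))
    rw [h4]
    exact hY

include h1 h3 in
/-- an element of `spJ` which commutes with the commutant -/
theorem exists_lef {A : Matrix I I ℚ_[l]} (hA : A ∈ spJ R.J) (hc : ∀ b, R.InC b → A * b = b * A) :
    ∃ X, Lef ρ X ∧ mtx e X = A := by
  obtain ⟨X', rfl⟩ := (LinearMap.toMatrix e e).surjective A
  obtain ⟨X, hX, rfl⟩ := (lef_dbl ρ X').1 ((lef_coord l (dbl ρ) e R h1 h3 X').2 ⟨hA, hc⟩)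
  exact ⟨X, hX, rfl⟩

include h1 h2 in
/-- the Lie algebra of the image kills all Tate forms -/
theorem hh_kills {A : Matrix I I ℚ_[l]} (hA : A ∈ R.Hh l) {k : ℕ}
    (f : MultilinearMap ℚ_[l] (fun _ : Fin k => V) ℚ_[l]) (hf : TateG ρ k f)
    (v : Fin k → V) : DF (cm e A) f v = 0 := by
  obtain ⟨f₂, hf₂, hf₃⟩ := exists_square ρ f hf
  refine hf₃ _ (fun w => ?_) v
  rcases isEmpty_or_nonempty I with hI | hI
  · have h4 : cm e A = 0 := by
      refine LinearMap.ext fun x => ?_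
      have h5 : ((x, 0) : V × V) = 0 := by
        have h6 := e.sum_repr (x, (0 : V))
        rw [Finset.univ_eq_empty, Finset.sum_empty] at h6
        exact h6.symm
      have h7 : x = 0 := (Prod.mk.inj h5).1
      rw [h7, map_zero, map_zero]
    rw [h4, df_zero]
  · exact kill_hh l (norm_l l) (l_ne l) ρ e R h1 h2 k f₂ hf₂ w A hA

include h1 h2 h3 in
/-- The Lie algebra of the maps which kill the known forms has the property `HL`. -/
theorem hl_of_known (Z : Fam ℚ_[l] V) (hZ : Known ρ Z) :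
    Mt.HL R l ((lieS Z).map (mtx e)) := by
  constructor
  · rintro _ ⟨X, hX, rfl⟩ _ ⟨Y, hY, rfl⟩
    exact ⟨X * Y - Y * X, lieS_comm hX hY, by rw [map_sub, mtx_mul, mtx_mul]⟩
  · rintro _ ⟨X, hX, rfl⟩
    exact ((lef_mtx l ρ e R h1 h3 X).1 (lef_of_lieOf ρ hZ hX)).1
  · rintro γ _ ⟨X, hX, rfl⟩
    refine ⟨ρ.T γ * X * ρ.T γ⁻¹, lieOf_conj ρ hZ hX γ, ?_⟩
    have h4 : ∀ γ, R.M γ = mtx e (ρ.T γ) := h1
    rw [mtx_mul, mtx_mul, h4, h4]
  · intro A hA
    obtain ⟨X, hX, rfl⟩ := exists_lef l ρ e R h1 h3 hA.1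
      fun b hb => Hh_comm_C R l (norm_l l) (l_ne l) hA hb
    refine ⟨X, fun k f hf v => ?_, rfl⟩
    have h4 := hh_kills l ρ e R h1 h2 hA f (hZ.tate k f hf) v
    rwa [cm_mtx] at h4
  · rintro _ ⟨X, hX, rfl⟩ b hb
    exact ((lef_mtx l ρ e R h1 h3 X).1 (lef_of_lieOf ρ hZ hX)).2 b hb

end main

end Pool.Agent.Lib.MP_640417_ag.Kf
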