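import Pool.Agent.Lib.MP_640417_ag.Kf.HlF
import Pool.Agent.Lib.MP_640417_ag.Mt.FinalC
import Pool.Agent.Lib.MP_640417_ag.Fg.Final
import Pool.Agent.Lib.MP_640417_ag.Wn.Ball

/-!
# MP_640417_ag, Kf: the motivic Mumford-Tate conjecture for every variety, statements of the modules (owner helper31)

`K = AlgebraicClosure F`. `ρ` is a `FormRep` (Fr/Defs.lean), `dbl ρ` (Fr/Dbl.lean) the doubled representation on `V × V`, which is an
`H1Rep`, `prK`, `injK` (Fr/WtD.lean) the projections and inclusions over `K`, `comF ρ` (Fg/ComF.lean) the commutant over `K`. `Dm`, `Mf`: Orth/Ml.lean.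
Kf/HlF.lean: `df_iff` (`DF` and `Dm`), `mtx e X` (the matrix of `X.prodMap X`), `cm_mtx`, `lef_mtx`, `exists_lef`, `hh_kills`.
Every statement `S_X` is a `Prop`; the module `X` proves it in the file `Kf/X.lean` as `theorem tX ... : S_X` (`theorem tX (l : ℕ) [Fact l.Prime] ... : S_X l` for
those with `l`), with the statements named in the docstring as hypotheses, in that order.
-/

set_option autoImplicit false

namespace Pool.Agent.Lib.MP_640417_ag.Kf

open Polynomial Matrix Module TensorProduct MeasureTheory Pool.Agent.Lib.MP_640417_ag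
  Pool.Agent.Lib.MP_640417_ag.Frob Pool.Agent.Lib.MP_640417_ag.Glob
  Pool.Agent.Lib.MP_640417_ag.Ctl Pool.Agent.Lib.MP_640417_ag.Ty Pool.Agent.Lib.MP_640417_ag.Gen4
  Pool.Agent.Lib.MP_640417_ag.Dfr Pool.Agent.Lib.MP_640417_ag.Fr Pool.Agent.Lib.MP_640417_ag.Fg
  Pool.Agent.Lib.MP_640417_ag.Orth

/-! ### Definitions -/

section defs

variable {F : Type} [Field F] {V : Type} [AddCommGroup V] [Module F V]

/-- the diagonal endomorphisms of `V × V` -/
def dg (g : Set (Module.End F V)) : Set (Module.End F (V × V)) :=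
  {X' | ∃ X ∈ g, X' = X.prodMap X}

/-- the diagonal endomorphism over `K` -/
noncomputable def dK (p : Module.End (AlgebraicClosure F) (AlgebraicClosure F ⊗[F] V)) :
    Module.End (AlgebraicClosure F) (AlgebraicClosure F ⊗[F] (V × V)) :=
  injK F V false ∘ₗ p ∘ₗ prK F V false + injK F V true ∘ₗ p ∘ₗ prK F V true

/-- `FrobLike` for an `H1Rep` -/
def FrobH {Γ : Type} [Group Γ] [TopologicalSpace Γ] [TopologicalSpace F]
    [FiniteDimensional F V] (ρ : H1Rep Γ F V)
    (c b : ℕ) (γ : Γ) : Prop :=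
  ∃ (p : ℕ) (P : ℤ[X]), p.Prime ∧
    ((p : F) ^ c • (ρ.T γ * ρ.T γ)).charpoly = P.map (Int.castRingHom F) ∧
    ∀ z : ℂ, aeval z P = 0 → ‖z‖ ^ 2 = (p : ℝ) ^ b

end defs

/-- a bound for the valuations -/
def Mb (d b : ℕ) : ℕ := d ^ d * (b * d)

/-! ### Part A -/

/-- MODULE `Kp` (150 lines). The canonical Tate form in four variables.
PROOF. The proofs of `Mt.tKap` (Mt/Kap.lean) and of `q_of_form` (Fr/QForm.lean; its lemmas `rk`, `fq`, `fq_apply`, `fq_tate`, `fq_DF` are private: copy them).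
1. `p : Matrix I I F →ₗ Matrix I I F` the projection on `Hp R l` of `exists_proj` (`Hp_nondeg`), as in `Mt.tKap`; `p` commutes with conjugation by the `R.M γ` and
(`hpz` there) with `[z, .]` for `z ∈ Zm R`. Let `W = {Y : End V | mtx e Y ∈ Hp R l}` and let `Q : End V →ₗ End V`, `Q Y = cm e (p (toMatrix e e (inj false ∘ Y ∘ pr false)))` (`cm e` is linear, Fr/KillF.lean).
2. `Q Y ∈ W` and `mtx e (Q Y) = p (...)`: an element of `Hp R l` is in `spJ R.J` and commutes with all `b` with `R.InC b` (`hHs`, `hHc` in `mem_Hp_of_Q`, Ctl/Kill.lean), so it is `mtx e X` with `X = cm e (..)` (`exists_lef`, `cm_mtx`).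
3. `Q Y = (1 / 2) • Y` for `Y ∈ W`: by the third property of `p` (`tr (p T * S) = tr (T * S)` for `S ∈ Hp`) and `Hp_nondeg` it is enough that `tr (T * S) = tr (((1 / 2) • mtx e Y) * S)` for
`T = toMatrix e e (inj false ∘ Y ∘ pr false)`, `S = mtx e S'`: `T * S` is the matrix of `inj false ∘ (Y * S') ∘ pr false`, trace `tr (Y * S')`; `mtx e Y * mtx e S' = mtx e (Y * S')`, trace `2 tr (Y * S')`
(`LinearMap.trace_prodMap'`; `LinearMap.trace_comp_comm'` for the first).
4. `Q` commutes with conjugation by `ρ.T γ`, all `γ` (`T γ` on the double commutes with `inj`, `pr`), and `z * Q Y - Q Y * z = Q (z * Y - Y * z)` for `CenSkew ρ z` (`mtx e z ∈ Zm R`: `coord_zm` with `central_dbl`).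
5. `κ = fq ρ Q` (`Fin (2 * 2)` is `Fin 4`): `TateF ρ 2 κ` by `fq_tate`; `DF z κ = 0` by `fq_DF` and 4. If `X` is skew and `DF X κ = 0`, then (as `key` and the end of `q_of_form`) `X * Q Y - Q Y * X = Q (X * Y - Y * X)` for all `Y`, so
for `Y ∈ W`: `X * Y - Y * X = 2 (X * Q Y - Q Y * X) = 2 Q (X * Y - Y * X) ∈ W` (`W` is a submodule). -/
def S_Kp (l : ℕ) [Fact l.Prime] : Prop := ∀ (Γ : Type) [Group Γ] [TopologicalSpace Γ]
  [IsTopologicalGroup Γ] [CompactSpace Γ] (V : Type) [AddCommGroup V] [Module ℚ_[l] V]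
  [FiniteDimensional ℚ_[l] V] (ρ : FormRep Γ ℚ_[l] V) (I : Type) [Fintype I] [DecidableEq I]
  (e : Basis I ℚ_[l] (V × V)) (R : MRep Γ ℚ_[l] I),
  (∀ γ, R.M γ = LinearMap.toMatrix e e ((dbl ρ).T γ)) →
  (∀ i j, R.J i j = (dbl ρ).form (e i) (e j)) → R.Semi →
  ∃ κ : MultilinearMap ℚ_[l] (fun _ : Fin (2 * 2) => V) ℚ_[l], TateF ρ 2 κ ∧
    (∀ z, CenSkew ρ z → ∀ v, DF z κ v = 0) ∧
    ∀ X, Fr.Skew ρ X → (∀ v, DF X κ v = 0) → ∀ Y, mtx e Y ∈ Hp R l →
      mtx e (X * Y - Y * X) ∈ Hp R l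

/-- MODULE `Gf` (120 lines; uses `S_Dk`). Good elements of the double.
PROOF. `Φ = dK` is a ring homomorphism and injective (`S_Dk`), `K`-linear. It takes `X.baseChange K` to `(X.prodMap X).baseChange K`, so the span of `g` onto the span of `dg g` (`Submodule.map_span` for `Φ` as a
linear map), and `conjK ρ γ X` to `Mt.conjK (dbl ρ) γ (Φ X)`. So `Φ ((conjK ρ γ - z) ^ n X) = (Mt.conjK (dbl ρ) γ - z) ^ n (Φ X)` (induction), and `X ∈ maxGenEigenspace (conjK ρ γ) z ↔ Φ X ∈ maxGenEigenspace (Mt.conjK (dbl ρ) γ) z`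
(`Module.End.mem_maxGenEigenspace`). So `Mt.Part (dbl ρ) (dg g) γ z` is the image of `Part ρ g γ z`: same dimension (`LinearMap.finrank_map_eq`-type lemma for injective maps), commutative at the same time. -/
def S_Gf : Prop := ∀ (Γ : Type) [Group Γ] [TopologicalSpace Γ] (F : Type) [Field F]
  [TopologicalSpace F] [ContinuousAdd F] (V : Type) [AddCommGroup V] [Module F V]
  (ρ : FormRep Γ F V) (g : Set (Module.End F V)) (γ : Γ),
  Mt.GoodFor (dbl ρ) (dg g) γ ↔ GoodFor ρ g γ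

/-! ### Part C: the double over `K` -/

/-- MODULE `Dk` (80 lines). The map `dK`.
PROOF. Everything by `LinearMap.ext` and `prK_injK`, `injK_prK`: `prK a (dK p z) = p (prK a z)` for both `a`, and `z` is determined by `prK a z` (`injK_prK`). Last claim: `prK_prodMap`. -/
def S_Dk : Prop := ∀ (F : Type) [Field F] (V : Type) [AddCommGroup V] [Module F V],
  (∀ p q : Module.End (AlgebraicClosure F) (AlgebraicClosure F ⊗[F] V),
    dK (p * q) = dK p * dK q) ∧
  (∀ p q : Module.End (AlgebraicClosure F) (AlgebraicClosure F ⊗[F] V),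
    dK (p + q) = dK p + dK q) ∧
  (∀ (c : AlgebraicClosure F) (p : Module.End (AlgebraicClosure F) (AlgebraicClosure F ⊗[F] V)),
    dK (c • p) = c • dK p) ∧
  dK (1 : Module.End (AlgebraicClosure F) (AlgebraicClosure F ⊗[F] V)) = 1 ∧
  (∀ p : Module.End (AlgebraicClosure F) (AlgebraicClosure F ⊗[F] V), dK p = 0 → p = 0) ∧
  ∀ X : Module.End F V,
    dK (X.baseChange (AlgebraicClosure F)) = (X.prodMap X).baseChange (AlgebraicClosure F)

/-- MODULE `Dt` (80 lines). Trace and determinant of `dK p`.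
PROOF. The linear equivalence `E : K ⊗ (V × V) ≃ (K ⊗ V) × (K ⊗ V)`, `z ↦ (prK false z, prK true z)`, inverse `(x, y) ↦ injK false x + injK true y` (`prK_injK`, `injK_prK`), takes `dK p` to `p.prodMap p`.
`LinearMap.trace_conj'`, `LinearMap.trace_prodMap'`, `LinearMap.det_conj`, `LinearMap.det_prodMap`. -/
def S_Dt : Prop := ∀ (F : Type) [Field F] (V : Type) [AddCommGroup V] [Module F V]
  [FiniteDimensional F V] (p : Module.End (AlgebraicClosure F) (AlgebraicClosure F ⊗[F] V)),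
  LinearMap.trace (AlgebraicClosure F) (AlgebraicClosure F ⊗[F] (V × V)) (dK p) =
    2 * LinearMap.trace (AlgebraicClosure F) (AlgebraicClosure F ⊗[F] V) p ∧
  LinearMap.det (dK p) = LinearMap.det p ^ 2

/-- MODULE `Cr` (150 lines; uses `S_Dk`). Relations of the double.
PROOF. `comK (dbl ρ)` and `comF (dblF ρ)` have the same elements (both are the `c` which commute with an open subgroup of the `(dbl ρ).T γ`), and `(dblF ρ).form = (dbl ρ).form`; see Fg/DblF.lean: `pr_comF`, `inj_comF`, `dblF_formK`,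
`inL_dbl`, `diag_inL` (their proofs show how). 1. `dK p` for `p ∈ comF ρ`: sum of two elements as in `inj_comF`. If `p` commutes with `comF ρ` then `dK p` commutes with `comK (dbl ρ)` (components, as in `diag_inL`). `dK` of a skew map is skew (`diag_inL`). `S_Dk` for
`idem`, `orth` and `∑ s j • dK (p j) = dK (∑ s j • p j)`. 2. `p' j` commutes with the matrix units `injK a ∘ prK b` (`inj_comF` for `1`), so `p' j = dK (p j)`, `p j = prK false ∘ p' j ∘ injK false` (as `h2` in `inL_dbl`); `p j ∈ comF ρ` (`pr_comF`); it commutes with `c ∈ comF ρ` because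
`p' j` commutes with `injK false ∘ c ∘ prK false`; `idem`, `orth`: injectivity of `dK`; skew: the form of the double of `injK false x`, `injK true y` is `form x y` (`dblF_formK`). -/
def S_Cr : Prop := ∀ (Γ : Type) [Group Γ] [TopologicalSpace Γ] (F : Type) [Field F]
  [TopologicalSpace F] [ContinuousAdd F] (V : Type) [AddCommGroup V] [Module F V]
  (ρ : FormRep Γ F V) (k : ℕ) (s : Fin k → ℤ),
  (∀ p : Fin k → Module.End (AlgebraicClosure F) (AlgebraicClosure F ⊗[F] V),
    CenRel (ρ.form.baseChange (AlgebraicClosure F)) (comF ρ) p s →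
    CenRel ((dbl ρ).form.baseChange (AlgebraicClosure F)) (comK (dbl ρ))
      (fun j => dK (p j)) s) ∧
  ∀ p' : Fin k → Module.End (AlgebraicClosure F) (AlgebraicClosure F ⊗[F] (V × V)),
    CenRel ((dbl ρ).form.baseChange (AlgebraicClosure F)) (comK (dbl ρ)) p' s →
    ∃ p : Fin k → Module.End (AlgebraicClosure F) (AlgebraicClosure F ⊗[F] V),
      (∀ j, p' j = dK (p j)) ∧ CenRel (ρ.form.baseChange (AlgebraicClosure F)) (comF ρ) p s

/-- MODULE `Tw` (120 lines; uses `S_Dk`, `S_Dt`, `S_Cr`). Relations between determinants for `ρ` and for the double.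
PROOF. For `p j`, `G : End (K ⊗ V)`: `dK (p j) * dK G + (1 - dK (p j)) = dK (p j * G + (1 - p j))` (`S_Dk`), so `detProd (dK ∘ p) s (dK G) = detProd p s G ^ 2 = detProd p (2 s) G` (`S_Dt`), and `((dbl ρ).T γ).baseChange = dK ((ρ.T γ).baseChange)` (`dbl_T`, `S_Dk`).
`Mt.TrRel (dg g) (dK ∘ p) s ↔ Mt.TrRel g p s` (`S_Dt`, characteristic 0), and `Mt.TrRel g p (2 s) ↔ Mt.TrRel g p s`. `CenRel form C p s` gives `CenRel form C p (2 s)`. 1. `WeilFor`: `→` with `dK ∘ p`, `s`; `←` with `p` of `S_Cr` and `2 s`. 2. `DetFor`: `→`: for `p'`, `s` take `p` of `S_Cr`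
and `2 s`; `←`: `detProd p s = 1` gives `detProd (dK ∘ p) s = 1`. -/
def S_Tw : Prop := ∀ (Γ : Type) [Group Γ] [TopologicalSpace Γ] (F : Type) [Field F] [CharZero F]
  [TopologicalSpace F] [ContinuousAdd F] (V : Type) [AddCommGroup V] [Module F V]
  [FiniteDimensional F V] (ρ : FormRep Γ F V) (g : Set (Module.End F V)),
  (WeilFor ρ g ↔ Mt.WeilFor (dbl ρ) (dg g)) ∧
  ∀ γ, DetFor ρ g γ ↔ Mt.DetFor (dbl ρ) (dg g) γ

/-! ### Part C: forms from relations -/

/-- MODULE `Dl` (200 lines). The product of the determinants on the ranges of idempotents.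
PROOF. Induction on the list. Empty list: `k = 0`, `f` the constant form 1 (`MultilinearMap.constOfIsEmpty`). Step `q :: L`: let `f'`, `k'` be for `L`, `W = range q`, `d = finrank K W`, `b = finBasis K W`, `ω w = b.det (fun i => q.rangeRestrict (w i))` (multilinear: `b.det.toMultilinearMap.compLinearMap fun _ => q.rangeRestrict`),
`f` on `Fin (d + k')`: `f v = ω (fun i => v (Fin.castAdd k' i)) * f' (fun i => v (Fin.natAdd d i))` (as `sqf` in Fg/BcF.lean with `finSumFinEquiv`; copy the lemmas there, also `DF_sqf`). `f ≠ 0`: `ω ≠ 0` (value 1 at `b`), `f' ≠ 0`. For `g` commuting with `q`: `ω (g w) = det (g on W) * ω w`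
(`Basis.det_comp`), and `det (g on W) = det (q * g + (1 - q))` (private lemma `det_range` in Wn/DetE.lean, copy). `DF X ω w = trace (X on W) * ω w`: `det_der` (Fr/EvenA.lean) and `trace (X on W) = trace (q * X)` (for example: `q * X = W.subtype ∘ (X on W) ∘ q.rangeRestrict`, `LinearMap.trace_comp_comm'`). -/
def S_Dl : Prop := ∀ (K : Type) [Field K] [CharZero K] (V : Type) [AddCommGroup V] [Module K V]
  [FiniteDimensional K V] (L : List (Module.End K V)), (∀ q ∈ L, q * q = q) →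
  ∃ (k : ℕ) (f : Mf K V k), f ≠ 0 ∧
    k = (L.map fun q => finrank K (LinearMap.range q)).sum ∧
    (∀ g : Module.End K V, (∀ q ∈ L, q * g = g * q) → ∀ v,
      f (fun i => g (v i)) = (L.map fun q => LinearMap.det (q * g + (1 - q))).prod * f v) ∧
    ∀ X : Module.End K V, (∀ q ∈ L, q * X = X * q) → ∀ v,
      DF X f v = (L.map fun q => LinearMap.trace K V (q * X)).sum * f v

/-- MODULE `Wl` (150 lines; uses `S_Dl`). A relation gives a form on which the skew maps act by the relation between traces.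
PROOF. As `exists_weil` (Dfr/Rel.lean) and Mt/Wl.lean, with `S_Dl` in place of the class. Let `p' j` be the adjoint of `p j` (`form (p j x) y = form x (p' j y)`, hypothesis), idempotent (uniqueness of adjoints from `hnd'`). The list `L` contains `s j` times `p j` if `s j > 0` and `- s j` times `p' j` if `s j < 0` (`List.finRange k`, `flatMap`, `List.replicate`). Then
`∑ rank = ∑ |s j| * d j`, `d j = rank (p j) = rank (p' j)` (`Adj.trace`, `trace_idem`), and `∑ s j * d j = 0` (the trace of the skew map `∑ s j • p j` is `0`), so the number of variables is `2 i`, `i = ∑_{s j < 0} (- s j) * d j`. Let `g` commute with the `p j` and multiply the form by `μ ≠ 0`. It commutes with `p' j`, and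
`det (p' j * g + (1 - p' j)) * det (p j * g + (1 - p j)) = μ ^ d j` (as in `exists_weil`: `Adj.det` for `p j * g⁻¹`..., `det_mul'`, `det_smul'`). So the product over `L` is `detProd p s g * μ ^ i = μ ^ i`. For `X` skew and commuting with the `p j`: it commutes with `p' j`, and
`tr (p' j * X) = - tr (p j * X)` (`Adj.trace` for `p j * X` with the adjoint `-X * p' j`), so the sum over `L` is `∑ s j * tr (p j * X)`. -/
def S_Wl : Prop := ∀ (K : Type) [Field K] [CharZero K] (V : Type) [AddCommGroup V] [Module K V]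
  [FiniteDimensional K V] (form : LinearMap.BilinForm K V) (C : Subalgebra K (Module.End K V)),
  (∀ x, (∀ y, form x y = 0) → x = 0) → (∀ y, (∀ x, form x y = 0) → y = 0) → AdjCl form C →
  ∀ (k : ℕ) (p : Fin k → Module.End K V) (s : Fin k → ℤ), CenRel form C p s →
  ∃ (i : ℕ) (f : Mf K V (2 * i)), f ≠ 0 ∧
    2 * i = ∑ j, (s j).natAbs * finrank K (LinearMap.range (p j)) ∧
    (∀ (g : Module.End K V) (μ : K), IsUnit g → μ ≠ 0 → (∀ x y, form (g x) (g y) = μ * form x y) →
      (∀ j, p j * g = g * p j) → detProd p s g = 1 → ∀ v, f (fun l => g (v l)) = μ ^ i * f v) ∧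
    ∀ X : Module.End K V, (∀ x y, form (X x) y + form x (X y) = 0) → (∀ j, p j * X = X * p j) →
      ∀ v, DF X f v = (∑ j, (s j : K) * LinearMap.trace K V (p j * X)) * f v

/-- MODULE `Nw` (150 lines; uses `S_Wl`). If `g` kills the Tate forms in `m = ∑ |s j| * rank (p j)` variables, then a relation with the exponents `s` holds for `g`.
PROOF. `S_Wl` for `ρ.form.baseChange K`, `comF ρ` (`nondeg_formK`, `nondeg_formK'`, `adjCl_comF`) gives `i`, `f`, `2 * i = m`. Let `U'` be the intersection of `U` with the open subgroups of the `p j ∈ comF ρ`. For an `F`-linear map `λ : K → F` let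
`f_λ v = λ (f (fun l => 1 ⊗ v l))`, a multilinear form over `F` in `2 * i` variables. For `γ ∈ U'`: `f (1 ⊗ T γ v) = (χ γ)⁻¹ ^ i * f (1 ⊗ v)` (`Frob.equivariant_baseChange`), so `f_λ` is `TateF ρ i`, hence `TateG ρ (2 * i)`. So `DF X f_λ = 0` for `X ∈ g`. And
`DF X f_λ v = λ (DF (X.baseChange K) f (1 ⊗ v)) = λ (c * f (1 ⊗ v))`, `c = ∑ s j * tr (p j * X.baseChange K)` (`X ∈ g` is skew and commutes with the commutant: `base_inL`, Fg/BaseL.lean, gives both over `K`). So `c * f (1 ⊗ v) = 0` for all `v` (`Module.forall_dual_apply_eq_zero_iff`); there is `v` with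
`f (1 ⊗ v) ≠ 0` (`f ≠ 0`; `Basis.ext_multilinear` for the basis `Algebra.TensorProduct.basis`), so `c = 0`. -/
def S_Nw : Prop := ∀ (Γ : Type) [Group Γ] [TopologicalSpace Γ] (F : Type) [Field F] [CharZero F]
  [TopologicalSpace F] (V : Type) [AddCommGroup V] [Module F V] [FiniteDimensional F V]
  (ρ : FormRep Γ F V) (g : Set (Module.End F V)), (∀ X ∈ g, Lef ρ X) →
  ∀ (k : ℕ) (p : Fin k → Module.End (AlgebraicClosure F) (AlgebraicClosure F ⊗[F] V))
    (s : Fin k → ℤ), CenRel (ρ.form.baseChange (AlgebraicClosure F)) (comF ρ) p s →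
  (∃ U : OpenSubgroup Γ, ∀ γ ∈ U, detProd p s ((ρ.T γ).baseChange (AlgebraicClosure F)) = 1) →
  ∀ m : ℕ, m = ∑ j, (s j).natAbs * finrank (AlgebraicClosure F) (LinearMap.range (p j)) →
  (∀ f : MultilinearMap F (fun _ : Fin m => V) F, TateG ρ m f → ∀ X ∈ g, ∀ v, DF X f v = 0) →
  Mt.TrRel g p s

/-! ### Part C: the center -/

/-- MODULE `Ck` (120 lines). The central skew elements and forms, algebraic part.
PROOF. As Mt/CnA.lean (whose lemmas `CnA_coef`, `CnA_basis` are private: copy them), for forms instead of classes. `CnA_basis` gives a basis `e` of `V` with `a (e v) = c v.1 • e v` for `a = ∑ c j • ε j`. `Dm a f` and `Dm z f` are determined by the values at `fun l => e (m l)`, `m : Fin k → index` (`Basis.ext_multilinear`),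
and `Dm a f (e ∘ m) = (∑ l, c ((m l).1)) * f (e ∘ m)` (`Dm_apply`, `MultilinearMap.map_update_smul`, `Function.update_eq_self`). So it is enough: if `∑ l, c ((m l).1) = 0` for all `a ∈ A`, then `∑ l, t ((m l).1) = 0` for `z = ∑ t j • ε j`. Let `M j` be the number of `l` with `(m l).1 = j`: `∑ M j * c j = 0` for `a ∈ A`.
Continue as in CnA: `d j` = dimension of the range of `ε j` (positive), `s j = (∏ i ≠ j, d i) * (M j - M (st j))`, `∑ s j • ε j` is skew, `tr (ε j * a) = c j * d j`, `c (st j) = - c j`, `d (st j) = d j` (`Adj.trace`), so `∑ s j * tr (ε j * a) = 2 D ∑ M j * c j = 0`, hence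
`0 = ∑ s j * tr (ε j * z) = 2 D ∑ M j * t j`. (CnA is stated for an alternating form; the form enters only through `CSys.adj`, `hnd`. Here assume it alternating too.) -/
def S_Ck : Prop := ∀ (K V : Type) [Field K] [CharZero K] [AddCommGroup V] [Module K V]
  [FiniteDimensional K V] (form : LinearMap.BilinForm K V) (C : Subalgebra K (Module.End K V))
  (N : ℕ) (st : Fin N → Fin N) (ε : Fin N → Module.End K V),
  (∀ x, form x x = 0) → (∀ x, (∀ y, form x y = 0) → x = 0) → Mt.CSys form C N st ε →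
  ∀ (A : Set (Module.End K V)) (z : Module.End K V),
  (∀ a ∈ A, a ∈ C ∧ (∀ c ∈ C, c * a = a * c) ∧ Four.Skew form a) →
  (z ∈ C ∧ (∀ c ∈ C, c * z = z * c) ∧ Four.Skew form z) →
  (∀ s : Fin N → ℤ, Four.Skew form (∑ j, (s j : K) • ε j) →
    (∀ a ∈ A, ∑ j, (s j : K) * LinearMap.trace K V (ε j * a) = 0) →
    ∑ j, (s j : K) * LinearMap.trace K V (ε j * z) = 0) →
  ∀ (k : ℕ) (f : Mf K V k), (∀ a ∈ A, Dm a f = 0) → Dm z f = 0

/-- MODULE `Rl` (copy of the middle part of Mt/Cen.lean, 220 lines). A relation between the traces on the central skew elements of the Lie algebra of the image gives a relation between determinants on an open subgroup.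
PROOF. The proof of `Mt.tCen` (Mt/Cen.lean): in the second bullet after `refine h2 ...` (`intro s hs hA`) the part before `have hTr` proves exactly this (`hU`, then the rewriting of `hU` with `Cen_det` in the proof of `hTr`), for the coordinates chosen there; use `Mt.tSpl l Mt.tTnl`, `Mt.tLgr l` for `h3`, `h4`; `exists_U0` etc. as there. Copy the private lemmas of Mt/Cen.lean. -/
def S_Rl (l : ℕ) [Fact l.Prime] : Prop := ∀ (Γ : Type) [Group Γ] [TopologicalSpace Γ]
  [IsTopologicalGroup Γ] [CompactSpace Γ] (V : Type) [AddCommGroup V] [Module ℚ_[l] V]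
  [FiniteDimensional ℚ_[l] V] (ρ : H1Rep Γ ℚ_[l] V), Four.Semisimple ρ →
  ∀ (N : ℕ) (st : Fin N → Fin N)
    (ε : Fin N → Module.End (AlgebraicClosure ℚ_[l]) (AlgebraicClosure ℚ_[l] ⊗[ℚ_[l]] V)),
  Mt.CSys (ρ.form.baseChange (AlgebraicClosure ℚ_[l])) (comK ρ) N st ε →
  ∀ (I : Type) [Fintype I] [DecidableEq I] (e : Basis I ℚ_[l] V) (R : MRep Γ ℚ_[l] I),
  (∀ γ, R.M γ = LinearMap.toMatrix e e (ρ.T γ)) → (∀ i j, R.J i j = ρ.form (e i) (e j)) →
  ∀ s : Fin N → ℤ, Four.Skew (ρ.form.baseChange (AlgebraicClosure ℚ_[l]))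
    (∑ j, (s j : AlgebraicClosure ℚ_[l]) • ε j) →
  (∀ Y : Module.End ℚ_[l] V, LinearMap.toMatrix e e Y ∈ R.Hh l → CentralSkew ρ Y →
    ∑ j, (s j : AlgebraicClosure ℚ_[l]) * LinearMap.trace (AlgebraicClosure ℚ_[l])
      (AlgebraicClosure ℚ_[l] ⊗[ℚ_[l]] V) (ε j * Y.baseChange (AlgebraicClosure ℚ_[l])) = 0) →
  ∃ U : OpenSubgroup Γ, ∀ γ ∈ U,
    detProd ε s ((ρ.T γ).baseChange (AlgebraicClosure ℚ_[l])) = 1

/-- MODULE `Cs` (40 lines). The primitive central idempotents of an `H1Rep`.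
PROOF. The beginning of the proof of `Mt.tCen` (Mt/Cen.lean), with `Mt.tCsy`. -/
def S_Cs (l : ℕ) [Fact l.Prime] : Prop := ∀ (Γ : Type) [Group Γ] [TopologicalSpace Γ]
  [IsTopologicalGroup Γ] [CompactSpace Γ] (V : Type) [AddCommGroup V] [Module ℚ_[l] V]
  [FiniteDimensional ℚ_[l] V] (ρ : H1Rep Γ ℚ_[l] V), Four.Semisimple ρ →
  ∃ (N : ℕ) (st : Fin N → Fin N)
    (ε : Fin N → Module.End (AlgebraicClosure ℚ_[l]) (AlgebraicClosure ℚ_[l] ⊗[ℚ_[l]] V)),
  Mt.CSys (ρ.form.baseChange (AlgebraicClosure ℚ_[l])) (comK ρ) N st ε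

/-- MODULE `Cn` (150 lines; uses `S_Tw`, `S_Ck`, `S_Rl l`, `S_Cs l`). Without relations which do not hold for `g` the central skew elements of `g` kill all Tate forms.
PROOF. `¬ Mt.WeilFor (dbl ρ) (dg g)` (`S_Tw`), `z' = z.prodMap z ∈ dg g`, `CentralSkew (dbl ρ) z'` (`central_dbl`), `semi_dbl`. `CSys` for `dbl ρ`: `S_Cs`. Coordinates `e`, `R` of `dbl ρ` (`exists_coord`, `Module.finBasis`). Apply `S_Ck` for `dbl ρ` over `K` with
`A` the set of the `Y.baseChange`, `toMatrix e e Y ∈ R.Hh l`, `CentralSkew (dbl ρ) Y`, and `z'.baseChange` (`base_mem`, `cen_K`, `skew_base`; see the proof of `Mt.tCen`); the condition: `S_Rl` gives a relation on an open subgroup, which holds for `dg g` (`¬ WeilFor`; `CenRel` from `CSys` as at the end of the proof of `Mt.tCen`), so for `z'`.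
The form: `exists_bcF` (Fg/BcF.lean) for the form `f' v = f (fun j => (v j).1)` on `V × V` (`f.compLinearMap fun _ => LinearMap.fst _ _ _`) gives `G` over `K` with `G (1 ⊗ v) = f' v` and `Dm (M.baseChange) G = 0` if `DF M f' = 0`.
For `Y` as above `Y = y.prodMap y` (`central_dbl`) and `DF Y f' v = DF y f (fun j => (v j).1) = 0` by `hh_kills` (`cm_mtx`). So `Dm (z'.baseChange) G = 0`; evaluate at `1 ⊗ (v j, 0)`: `DF z f v = 0`. -/
def S_Cn (l : ℕ) [Fact l.Prime] : Prop := ∀ (Γ : Type) [Group Γ] [TopologicalSpace Γ]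
  [IsTopologicalGroup Γ] [CompactSpace Γ] (V : Type) [AddCommGroup V] [Module ℚ_[l] V]
  [FiniteDimensional ℚ_[l] V] (ρ : FormRep Γ ℚ_[l] V), Fr.Semisimple ρ →
  ∀ g : Set (Module.End ℚ_[l] V), ¬ WeilFor ρ g → ∀ z ∈ g, CenSkew ρ z →
  ∀ (k : ℕ) (f : MultilinearMap ℚ_[l] (fun _ : Fin k => V) ℚ_[l]), TateG ρ k f →
  ∀ v, DF z f v = 0

/-! ### Part C: Frobenius elements -/

/-- MODULE `Wp` (copy, 100 lines). PROOF. Copy Wn/Roots.lean; `WeilNum p b z` for a root `z` (`z' = p ^ b / z`). -/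
def S_Wp : Prop := ∀ (Ω : Type) [Field Ω] [CharZero Ω] (P : ℤ[X]), P.Monic → ∀ p : ℕ, p.Prime →
  ∀ b : ℕ, (∀ z : ℂ, aeval z P = 0 → ‖z‖ ^ 2 = (p : ℝ) ^ b) → ∀ R : Multiset Ω,
  (∀ z ∈ R, aeval z P = 0) →
  ∃ D : Wn.rootField Ω P, (D : Ω) = R.prod ∧ Wn.WeilNum p (b * Multiset.card R) D

/-- MODULE `Elb` (copy, 150 lines; uses `S_Wp`). The relations of a Frobenius element.
PROOF. Copy Mt/El.lean with `A = (p ^ c • (T γ * T γ)).baseChange K = p ^ c • (G * G)`, `G = (T γ).baseChange K`, and `S_Wp` in place of `weil_prod` (`m i = b * card (R i)`, `M = Mb d b`, `d = finrank F V`; `root_iff` needs `∑ t i * m i = 0`). It gives the two claims for `detProd ε t A`, with `ord (d ^ d)` in place of `n0`. And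
`detProd ε t A = detProd ε t G ^ 2` for `t` as in the statement: `det (ε i * A + (1 - ε i)) = p ^ (c * d i) * det (ε i * G + (1 - ε i)) ^ 2` (`RelM.det_mul'`, `RelM.det_smul'`), `∑ t i * d i = 0` (`El_trace`), `p ≠ 0` in `K`. So take `n0 = 2 * ord (d ^ d)`; for the first claim `detProd ε t G ^ n = 1` gives `detProd ε t A ^ n = 1`. -/
def S_Elb : Prop := ∀ (F V : Type) [Field F] [TopologicalSpace F] [CharZero F] [AddCommGroup V]
  [Module F V] [FiniteDimensional F V] (Γ : Type) [Group Γ] [TopologicalSpace Γ]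
  (ρ : H1Rep Γ F V), (∀ c, CommF ρ c → ∀ γ, c * ρ.T γ = ρ.T γ * c) →
  ∀ (N : ℕ) (st : Fin N → Fin N)
    (ε : Fin N → Module.End (AlgebraicClosure F) (AlgebraicClosure F ⊗[F] V)),
  Mt.CSys (ρ.form.baseChange (AlgebraicClosure F)) (comK ρ) N st ε →
  ∀ c b : ℕ, ∃ n0 : ℕ, 0 < n0 ∧ ∀ γ, FrobH ρ c b γ →
  ∃ S : Set (Fin N → Fin (Mb (finrank F V) b + 1)), ∀ t : Fin N → ℤ,
    Four.Skew (ρ.form.baseChange (AlgebraicClosure F)) (∑ i, (t i : AlgebraicClosure F) • ε i) →
    (∀ n : ℕ, 0 < n → detProd ε t ((ρ.T γ).baseChange (AlgebraicClosure F)) ^ n = 1 →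
      ∀ v ∈ S, ∑ i, t i * ((v i : ℕ) : ℤ) = 0) ∧
    ((∀ v ∈ S, ∑ i, t i * ((v i : ℕ) : ℤ) = 0) →
      detProd ε t ((ρ.T γ).baseChange (AlgebraicClosure F)) ^ n0 = 1)

/-- MODULE `Nrb` (copy, 200 lines; uses `S_Elb`). Almost all Frobenius elements near the identity have only the relations of `g`.
PROOF. Copy `tBl` (Mt/Bl.lean; its auxiliary lemmas are public) with `S_Elb` for `c`, `b` in place of `S_El`, with `Mt.tFm`, `Mt.tNl` for the other hypotheses; then copy `tNr` (Mt/Nr.lean) with `Mt.tCsy`; `FrobH (res ρ U) c b γ ↔ FrobH ρ c b γ` is `Iff.rfl` (or unfold). -/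
def S_Nrb (l : ℕ) [Fact l.Prime] : Prop := ∀ (Γ : Type) [Group Γ] [TopologicalSpace Γ]
  [IsTopologicalGroup Γ] [CompactSpace Γ] (V : Type) [AddCommGroup V] [Module ℚ_[l] V]
  [FiniteDimensional ℚ_[l] V] [MeasurableSpace Γ] [BorelSpace Γ] (ν : Measure Γ)
  [ν.IsHaarMeasure] (ρ : H1Rep Γ ℚ_[l] V), Four.Semisimple ρ → ∀ c b : ℕ,
  ∀ g : Set (Module.End ℚ_[l] V), ¬ Mt.WeilFor ρ g →
    NearOne ν (fun γ => FrobH ρ c b γ → Mt.DetFor ρ g γ)

/-- MODULE `Fd` (60 lines). PROOF. `(dbl ρ).T γ = (T γ).prodMap (T γ)`, so `p ^ c • ((dbl ρ).T γ * (dbl ρ).T γ) = A.prodMap A`, `A = p ^ c • (T γ * T γ)`, its characteristic polynomial is the square of that of `A` (`LinearMap.charpoly_prodMap`, or: `Matrix.charpoly_fromBlocks_zero₁₂` / `charpoly` of a block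
diagonal matrix in the basis `Basis.prod`). Take `P ^ 2`. -/
def S_Fd : Prop := ∀ (Γ : Type) [Group Γ] [TopologicalSpace Γ] (F : Type) [Field F]
  [TopologicalSpace F] [ContinuousAdd F] (V : Type) [AddCommGroup V] [Module F V]
  [FiniteDimensional F V] (ρ : FormRep Γ F V) (c b : ℕ) (γ : Γ), FrobLike ρ c b γ →
  FrobH (dbl ρ) c b γ

/-! ### A bound for the number of variables -/

/-- MODULE `Lx` (200 lines). Bounded generators of the lattices of relations.
PROOF. LEMMA: let `A` be a set of vectors `a : Fin N → ℤ` with `|a i| ≤ m`, `1 ≤ m`, `L` the group of the `t` with `∑ a i * t i = 0` for `a ∈ A`, `G` a subgroup and `t ∈ L`, `t ∉ G`. Then there is `t' ∈ L`, `t' ∉ G` with `|t' i| ≤ N * (N! * m ^ N)`.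
Proof: let `r` be the largest number such that there are `a : Fin r → A`, `c : Fin r → Fin N` with `D = det B ≠ 0`, `B i k = a i (c k)` (`Nat.findGreatest`, `r ≤ N` since `c` is injective; `r = 0` is possible). For `j` not in the range of `c` let `u j = D • e j - ∑ k, (adjugate B *ᵥ b j) k • e (c k)`, `b j i = a i j`.
`u j ∈ L`: for `a' ∈ A` the matrix of size `r + 1` with the rows `a i`, `a'` and the columns `c k`, `j` has determinant `0` (maximality), and over `ℚ` it is `D * (a' j - (a' ∘ c) ⬝ B⁻¹ b j)` (`Matrix.det_fromBlocks₁₁`), so `D * a' j = ∑ k, a' (c k) * (adjugate B *ᵥ b j) k`.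
`|u j i| ≤ N! * m ^ N` (`Matrix.det_le`, or the sum over the permutations; the entries of `adjugate B *ᵥ b j` are determinants of matrices with entries `≤ m`: `Matrix.cramer`). An element `w` of `L` which vanishes outside the range of `c` is `0` (`B *ᵥ (w ∘ c) = 0`). So for `t ∈ L`: `D • t = ∑ j, t j • u j` (sum over the `j` not in the range of `c`). Divide with remainder:
`t j = q j * D + s j`, `0 ≤ s j < |D|`. `w = t - ∑ q j • u j ∈ L` and `D • w = ∑ s j • u j`, so `|w i| ≤ ∑ |u j i| ≤ N * (N! * m ^ N)`. If all `u j ∈ G` then `w ∉ G`; otherwise take a `u j`. The statement follows for `A` the set of the vectors `v ∈ S` and `e i + e (st i)`, `m = M + 2`. -/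
def S_Lx : Prop := ∀ (N M : ℕ) (st : Fin N → Fin N) (S : Set (Fin N → Fin (M + 1)))
  (G : AddSubgroup (Fin N → ℤ)),
  (∃ t ∉ G, (∀ i, t (st i) = - t i) ∧ ∀ v ∈ S, ∑ i, t i * ((v i : ℕ) : ℤ) = 0) →
  ∃ t ∉ G, (∀ i, (t i).natAbs ≤ N * (N.factorial * (M + 2) ^ N)) ∧ (∀ i, t (st i) = - t i) ∧
    ∀ v ∈ S, ∑ i, t i * ((v i : ℕ) : ℤ) = 0

/-- MODULE `Bd` (250 lines; uses `S_Dk`, `S_Dt`, `S_Cr`, `S_Tw`, `S_Nw`, `S_Rl l`, `S_Cs l`, `S_Elb`, `S_Nrb l`). If `g` kills the Tate forms in a bounded number of variables, there is no relation which does not hold for `g`.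
PROOF. Let `D = dbl ρ`, `n = finrank V`, `d = finrank (V × V) = 2 n`. Suppose `WeilFor ρ g`, so `Mt.WeilFor D (dg g)` (`S_Tw`). `S_Cs` gives `N`, `st`, `ε` for `D`.
1. `Mt.tFm` gives `t` with `∑ t i • ε i = ∑ s j • p j`, so `Skew (∑ t i • ε i)`, `¬ Mt.TrRel (dg g) ε t` (`Mt.Bl_trRel_congr`) and `detProd ε t (T γ) = 1` for `γ` in the open subgroup `U ⊓ U0`, `U0` of `exists_U0 D` (as in `tBl`). `Skew (∑ t i • ε i)` is equivalent to `t (st i) = - t i` for all `i` (`CSys.adj`: the adjoint of `∑ t i • ε i` is `∑ t (st i) • ε i`; the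
`ε i` are linearly independent).
2. Let `h' = {Y | toMatrix e e Y ∈ R.Hh l}` (coordinates `e`, `R` of `D`). `h'` kills all Tate classes (`hh_tate`, `coord_dv`, see the end of `Mt.tCen`), is skew and commutes with the `CommF` (`Hh_comm_C`), so `¬ Mt.WeilFor D h'` (`Mt.tNwl l Mt.tWl`). `S_Nrb` gives `NearOne ν (FrobH D c b γ → Mt.DetFor D h' γ)`, so by the
density there is `γ ∈ U ⊓ U0` with `FrobH D c b γ` and `Mt.DetFor D h' γ` (`nearOne_and` with the open subgroup, `nearOne_dense`).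
3. `S_Elb` for `Ty.res D U0` (commutant full: as in `tNr`) and `γ` gives `S`; `t` satisfies `∑ t i v i = 0` for `v ∈ S` (`n = 1`). `N ≤ n` since by `S_Cr` (`CenRel` for `ε`, `t`) `ε j = dK (q j)` and `2 n = ∑ finrank (range (ε j)) = ∑ 2 * finrank (range (q j)) ≥ 2 N` (`RelM.trace_idem`, `CSys.sum`, `S_Dt`, `q j ≠ 0`).
`hB` with `G = {t | Mt.TrRel (dg g) ε t}` gives `t'` with `|t' i| ≤ B`, skew, `¬ Mt.TrRel (dg g) ε t'`, `∑ t' i v i = 0` for `v ∈ S`, so `detProd ε t' (T γ) ^ n0 = 1 = detProd ε t' (T (γ ^ n0))` (`Mt.Bl_detProd_pow`), so `Mt.TrRel h' ε t'`,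
so by `S_Rl` `detProd ε t' (T γ') = 1` for `γ'` in an open subgroup.
4. By `S_Cr` again `ε j = dK (q j)` with `CenRel` for `q`, `t'`, also for `q`, `2 t'`. `detProd q (2 t') = detProd ε t'` (see `Tw`) is 1 on an open subgroup. `∑ |2 t' j| * rank (q j) ≤ 2 * B * n` (`∑ rank (q j) = n`). By `S_Nw` `Mt.TrRel g q (2 t')`, so
`Mt.TrRel g q t'`, `Mt.TrRel (dg g) ε t'` (see `Tw`), a contradiction. -/
def S_Bd (l : ℕ) [Fact l.Prime] : Prop := ∀ (Γ : Type) [Group Γ] [TopologicalSpace Γ]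
  [IsTopologicalGroup Γ] [CompactSpace Γ] [MeasurableSpace Γ] [BorelSpace Γ] (ν : Measure Γ)
  [ν.IsHaarMeasure] (V : Type) [AddCommGroup V] [Module ℚ_[l] V]
  [FiniteDimensional ℚ_[l] V] (ρ : FormRep Γ ℚ_[l] V), Fr.Semisimple ρ → ∀ c b : ℕ,
  Dense {γ | FrobH (dbl ρ) c b γ} →
  ∀ B : ℕ, (∀ N ≤ finrank ℚ_[l] V, ∀ (st : Fin N → Fin N)
    (S : Set (Fin N → Fin (Mb (finrank ℚ_[l] (V × V)) b + 1))) (G : AddSubgroup (Fin N → ℤ)),
    (∃ t ∉ G, (∀ i, t (st i) = - t i) ∧ ∀ v ∈ S, ∑ i, t i * ((v i : ℕ) : ℤ) = 0) →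
    ∃ t ∉ G, (∀ i, (t i).natAbs ≤ B) ∧ (∀ i, t (st i) = - t i) ∧
      ∀ v ∈ S, ∑ i, t i * ((v i : ℕ) : ℤ) = 0) →
  ∀ g : Set (Module.End ℚ_[l] V), (∀ X ∈ g, Lef ρ X) →
  (∀ k ≤ 2 * B * finrank ℚ_[l] V, ∀ f, TateG ρ k f → ∀ X ∈ g, ∀ v, DF X f v = 0) →
  ¬ WeilFor ρ g

/-! ### The forms in two variables -/

/-- MODULE `Tz` (120 lines). The forms in two variables are known, their Lie algebra is the Lefschetz Lie algebra.
PROOF. 1. CLAIM: `TateG ρ 2 f` implies `f = twoF ρ c` with `InCom ρ c` (and conversely: `twoF_tate`). The bilinear form `f ![x, y]` is `form (c x) y` for some `c` (`V` is finite dimensional and the form nondegenerate). Let `U` be as in `TateG`. For `γ ∈ U`: `χ ^ 2 f (T γ v) f (T γ w) = f v f w`; with `c' = (T γ)⁻¹ c (T γ)`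
(`f (T γ v) = χ⁻¹ form (c' v0) v1`) `form (c' v0) v1 * form (c' w0) w1 = form (c v0) v1 * form (c w0) w1` for all `v w`, so `c' = c` or `c' = - c`. The set `W = {γ ∈ U | c * T γ = T γ * c}` is a subgroup, closed (`ρ.continuous_coeff`: `φ (c (T γ x)) = φ (T γ (c x))` for all `φ`, `x`), of index at most 2 in `U`, so it is open
(`Subgroup.isOpen_of_isClosed_of_finiteIndex`; the index of `W` in `Γ` is finite since that of `U` is: `Γ` compact; or: the complement of `W` in `U` is empty or `{γ ∈ U | c * T γ = - (T γ * c)}`, which is closed too, so `W` is open in `U`). 2. `Known`: `TwoZ ρ k` is `⊥` for `k ≠ 2`, and for `k = 2` the set of all `twoF ρ c`, `InCom ρ c`, by 1. (`InCom`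
is closed under sums and multiples). Stable: `twoF ρ c ∘ T γ = χ⁻¹ twoF ρ (T γ⁻¹ * c * T γ)`, and conjugates of elements of the commutant are in the commutant (`inC_conj` in Glob/Comm.lean for the method). 3. `LieOf (TwoZ ρ)`: `→` is `lef_of_lieOf` (Kf/HlF.lean); `←`: `twoF_df`. -/
def S_Tz (l : ℕ) [Fact l.Prime] : Prop := ∀ (Γ : Type) [Group Γ] [TopologicalSpace Γ]
  [IsTopologicalGroup Γ] [CompactSpace Γ] (V : Type) [AddCommGroup V] [Module ℚ_[l] V]
  [FiniteDimensional ℚ_[l] V] (ρ : FormRep Γ ℚ_[l] V),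
  Known ρ (TwoZ ρ) ∧ ∀ X, X ∈ LieOf (TwoZ ρ) ↔ Lef ρ X

end Pool.Agent.Lib.MP_640417_ag.Kf
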